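import Pool.Agent.Lib.MP_d0d59f_nt.Sub.Words

/-!
Segments of orbits: small elements, periodic segments, equal segments.
-/

section

namespace Pool.Agent.Lib.MP_d0d59f_nt.Un

open Lin

/-- One step: `2 T y = y` or `2 T y = 3 y + d` (`T_even`, `T_odd`). -/
theorem abs_T_le {d : ℤ} (hd : Odd d) (y : ℤ) : |T d y| ≤ 2 * max |y| |d| := by
  have h1 : |y| ≤ max |y| |d| := le_max_left _ _
  have h2 : |d| ≤ max |y| |d| := le_max_right _ _
  have hy0 : 0 ≤ |y| := abs_nonneg y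
  have habs : |2 * T d y| = 2 * |T d y| := by
    rw [abs_mul]; norm_num
  rcases Int.emod_two_eq_zero_or_one y with h | h
  · have e := T_even (d := d) h
    rw [e] at habs
    have h3 : 0 ≤ |T d y| := abs_nonneg _
    linarith
  · have e := T_odd hd h
    rw [e] at habs
    have h3 : |3 * y + d| ≤ 3 * |y| + |d| := by
      refine (abs_add_le _ _).trans ?_
      rw [abs_mul]; norm_num
    linarith

/-- Induction on `n` (`Function.iterate_succ_apply'`), `|d| ≤ 2 ^ n * max |y| |d|`. -/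
theorem abs_iter_le {d : ℤ} (hd : Odd d) (y : ℤ) (n : ℕ) :
    |(T d)^[n] y| ≤ 2 ^ n * max |y| |d| := by
  have h2 : |d| ≤ max |y| |d| := le_max_right _ _
  have h0 : 0 ≤ max |y| |d| := (abs_nonneg d).trans h2
  induction n with
  | zero => simp
  | succ n ih =>
    rw [Function.iterate_succ_apply']
    refine (abs_T_le hd _).trans ?_
    have h3 : |d| ≤ 2 ^ n * max |y| |d| := by
      have : (1 : ℤ) ≤ 2 ^ n := one_le_pow₀ (by norm_num)
      nlinarith
    have h4 := max_le ih h3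
    rw [pow_succ]
    linarith

/-- One step: if `|d| ≤ 2 |y|` then `|y| ≤ 2 |T y|` (even: equality; odd: `|3 y + d| ≥ 3 |y| - |d| ≥ |y|`).
Induction on `n` with `Function.iterate_succ_apply` (the first step from `y` to `T y`):
`2 ^ (n + 1) A ≤ |y| ≤ 2 |T y|`. (`A ≥ |d| ≥ 0`.) -/
theorem le_abs_iter {d : ℤ} (hd : Odd d) (y : ℤ) (n : ℕ) {A : ℤ} (hA : |d| ≤ A)
    (h : 2 ^ n * A ≤ |y|) : A ≤ |(T d)^[n] y| := by
  have hd0 : 0 ≤ |d| := abs_nonneg d
  induction n generalizing y with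
  | zero => simpa using h
  | succ n ih =>
    rw [Function.iterate_succ_apply]
    apply ih
    have h1 : (1 : ℤ) ≤ 2 ^ n := one_le_pow₀ (by norm_num)
    have h2 : A ≤ 2 ^ n * A := by nlinarith
    rw [pow_succ] at h
    have habs : |2 * T d y| = 2 * |T d y| := by
      rw [abs_mul]; norm_num
    rcases Int.emod_two_eq_zero_or_one y with h' | h'
    · have e := T_even (d := d) h'
      rw [e] at habs
      linarith
    · have e := T_odd hd h'
      rw [e] at habs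
      have h3 : 3 * |y| - |d| ≤ |3 * y + d| := by
        have h5 : |3 * y| = 3 * |y| := by rw [abs_mul]; norm_num
        have h4 := abs_sub_abs_le_abs_sub (3 * y) (-d)
        rw [abs_neg, sub_neg_eq_add, h5] at h4
        exact h4
      linarith

/-- `dvd_of_parity`: `2 ^ n` divides `y - z ≠ 0`. -/
theorem agree_le {d : ℤ} (hd : Odd d) {y z : ℤ} {n : ℕ}
    (h : ∀ k < n, ((T d)^[k] y % 2 = 1 ↔ (T d)^[k] z % 2 = 1)) (hne : y ≠ z) :
    2 ^ n ≤ |y| + |z| := by
  have h1 := dvd_of_parity hd n y z (fun k hk => by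
    have := h k hk
    rcases Int.emod_two_eq_zero_or_one ((T d)^[k] y) with ha | ha <;>
    rcases Int.emod_two_eq_zero_or_one ((T d)^[k] z) with hb | hb <;> omega)
  have h2 : (0 : ℤ) < |y - z| := abs_pos.mpr (sub_ne_zero.mpr hne)
  have h3 : (2 : ℤ) ^ n ≤ |y - z| := Int.le_of_dvd h2 ((dvd_abs _ _).mpr h1)
  exact h3.trans (abs_sub _ _)

/-- A piece of the orbit which is periodic with period `p`, begins at `i` and has length `N`: `agree_le`
for `(T d)^[i] x` and `(T d)^[i + p] x` and `abs_iter_le`: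
`2 ^ N ≤ 2 * (2 ^ (i + p) * 2 ^ s)`. -/
theorem run_bound3 {d : ℤ} (hd : Odd d) {x : ℤ} {i N p s : ℕ} (hs : max |x| |d| ≤ 2 ^ s)
    (hne : (T d)^[i + p] x ≠ (T d)^[i] x)
    (h : ∀ t < N, ((T d)^[i + t] x % 2 = 1 ↔ (T d)^[i + t + p] x % 2 = 1)) :
    N ≤ i + p + s + 1 := by
  have h1 := agree_le hd (y := (T d)^[i] x) (z := (T d)^[i + p] x) (n := N) (fun k hk => by
    have := h k hk
    rw [← Function.iterate_add_apply, ← Function.iterate_add_apply]
    have e1 : k + i = i + k := by omega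
    have e2 : k + (i + p) = i + k + p := by omega
    rw [e1, e2]
    exact this) (Ne.symm hne)
  have h2 := abs_iter_le hd x i
  have h3 := abs_iter_le hd x (i + p)
  have hp : (0 : ℤ) < 2 ^ i := by positivity
  have hp2 : (0 : ℤ) < 2 ^ (i + p) := by positivity
  have h4 : (2 : ℤ) ^ i * max |x| |d| ≤ 2 ^ i * 2 ^ s := mul_le_mul_of_nonneg_left hs hp.le
  have h5 : (2 : ℤ) ^ (i + p) * max |x| |d| ≤ 2 ^ (i + p) * 2 ^ s :=
    mul_le_mul_of_nonneg_left hs hp2.le
  have h6 : (2 : ℤ) ^ i * 2 ^ s ≤ 2 ^ (i + p) * 2 ^ s := by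
    apply mul_le_mul_of_nonneg_right _ (by positivity)
    exact pow_le_pow_right₀ (by norm_num) (by omega)
  have h7 : (2 : ℤ) ^ N ≤ 2 ^ (i + p + s + 1) := by
    have e : (2 : ℤ) ^ (i + p + s + 1) = 2 ^ (i + p) * 2 ^ s * 2 := by
      rw [pow_succ, pow_add]
    rw [e]
    linarith
  exact (pow_le_pow_iff_right₀ (by norm_num : (1 : ℤ) < 2)).mp h7

end Pool.Agent.Lib.MP_d0d59f_nt.Un

end

section

namespace Pool.Agent.Lib.MP_d0d59f_nt.Un

open Lin Auto

/-- the number of the letters `true` among `w s, ..., w (s + n - 1)` -/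
def wOnes (w : ℕ → Bool) (s : ℕ) : ℕ → ℕ
  | 0 => 0
  | n + 1 => wOnes w s n + if w (s + n) = true then 1 else 0

/-- the translation part of the affine map of the block `w s, ..., w (s + n - 1)` -/
def wShift (d : ℤ) (w : ℕ → Bool) (s : ℕ) : ℕ → ℤ
  | 0 => 0
  | n + 1 => if w (s + n) = true then 3 * wShift d w s n + 2 ^ n * d else wShift d w s n

/-- the constant of the block `w s, ..., w (s + n - 1)` -/
noncomputable def wVal (d : ℤ) (w : ℕ → Bool) (s n : ℕ) : ℚ :=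
  ((-(wShift d w s n) : ℤ) : ℚ) / ((3 ^ wOnes w s n : ℤ) : ℚ)

theorem ua2_congr {d : ℤ} {w : ℕ → Bool} {s s' : ℕ} (n : ℕ)
    (h : ∀ t < n, w (s + t) = w (s' + t)) :
    wOnes w s n = wOnes w s' n ∧ wShift d w s n = wShift d w s' n := by
  induction n with
  | zero => exact ⟨rfl, rfl⟩
  | succ n ih =>
    obtain ⟨h1, h2⟩ := ih fun t ht => h t (by omega)
    simp only [wOnes, wShift, h1, h2, h n (by omega)]
    exact ⟨trivial, trivial⟩

/-- Induction on `n` for `wOnes` and `wShift`. -/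
theorem wVal_congr {d : ℤ} {w : ℕ → Bool} {s s' n : ℕ} (h : ∀ t < n, w (s + t) = w (s' + t)) :
    wVal d w s n = wVal d w s' n := by
  obtain ⟨h1, h2⟩ := ua2_congr (d := d) n h
  unfold wVal
  rw [h1, h2]

theorem ua2_eq {d : ℤ} (hd : Odd d) {y : ℤ} {w : ℕ → Bool} {s : ℕ} (n : ℕ)
    (h : ∀ t < n, ((T d)^[t] y % 2 = 1 ↔ w (s + t) = true)) :
    ones d y n = wOnes w s n ∧ shift d y n = wShift d w s n := by
  induction n with
  | zero => exact ⟨ones_zero d y, shift_zero d y⟩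
  | succ n ih =>
    obtain ⟨h1, h2⟩ := ih fun t ht => h t (by omega)
    have h3 := h n (by omega)
    rw [ones_succ, shift_succ hd, h1, h2]
    simp only [wOnes, wShift]
    by_cases h4 : w (s + n) = true
    · rw [if_pos (h3.mpr h4), if_pos (h3.mpr h4), if_pos h4, if_pos h4]
      exact ⟨rfl, rfl⟩
    · rw [if_neg (fun h5 => h4 (h3.mp h5)), if_neg (fun h5 => h4 (h3.mp h5)), if_neg h4, if_neg h4]
      exact ⟨rfl, rfl⟩

/-- Induction on `n`: `ones d y n = wOnes w s n` (`ones_succ`) and `shift d y n = wShift d w s n`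
(`shift_succ`); `gval` by definition. -/
theorem gval_eq_wVal {d : ℤ} (hd : Odd d) {y : ℤ} {w : ℕ → Bool} {s n : ℕ}
    (h : ∀ t < n, ((T d)^[t] y % 2 = 1 ↔ w (s + t) = true)) : gval d y n = wVal d w s n := by
  obtain ⟨h1, h2⟩ := ua2_eq hd n h
  unfold gval wVal
  rw [h1, h2]

theorem ua2_ones_le (w : ℕ → Bool) (s n : ℕ) : wOnes w s n ≤ n := by
  induction n with
  | zero => exact le_refl _
  | succ n ih =>
    simp only [wOnes]
    split_ifs <;> omega

theorem ua2_abs_le (d : ℤ) (w : ℕ → Bool) (s n : ℕ) :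
    |wShift d w s n| ≤ |d| * (3 ^ n - 2 ^ n) := by
  induction n with
  | zero => simp [wShift]
  | succ n ih =>
    simp only [wShift]
    have h3 : (2 : ℤ) ^ n ≤ 3 ^ n := pow_le_pow_left₀ (by norm_num) (by norm_num) n
    have h0 : (0 : ℤ) ≤ |d| := abs_nonneg d
    split_ifs with h
    · calc |3 * wShift d w s n + 2 ^ n * d| ≤ |3 * wShift d w s n| + |2 ^ n * d| := abs_add_le _ _
        _ = 3 * |wShift d w s n| + 2 ^ n * |d| := by
          rw [abs_mul, abs_mul, abs_of_pos (by norm_num : (0 : ℤ) < 3),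
            abs_of_pos (by positivity : (0 : ℤ) < 2 ^ n)]
        _ ≤ 3 * (|d| * (3 ^ n - 2 ^ n)) + 2 ^ n * |d| := by linarith
        _ = |d| * (3 ^ (n + 1) - 2 ^ (n + 1)) := by ring
    · refine ih.trans ?_
      have : (3 : ℤ) ^ n - 2 ^ n ≤ 3 ^ (n + 1) - 2 ^ (n + 1) := by
        have h4 : (0 : ℤ) ≤ 3 ^ n := by positivity
        rw [pow_succ, pow_succ]; linarith
      exact mul_le_mul_of_nonneg_left this h0

/-- `|wShift d w s n| ≤ |d| (3 ^ n - 2 ^ n)` and `wOnes w s n ≤ n` by induction; then as in the proof of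
`ht_gval_le` (`Sub/Words.lean`, `ht_div_le`). -/
theorem ht_wVal_le (d : ℤ) (w : ℕ → Bool) (s n : ℕ) :
    (ht (wVal d w s n) : ℝ) ≤ (|(d : ℝ)| + 1) * 3 ^ n := by
  have h1 := ht_div_le (-wShift d w s n) (3 ^ wOnes w s n) (by positivity)
  have h2 := ua2_abs_le d w s n
  have h3 : wOnes w s n ≤ n := ua2_ones_le w s n
  have h4 : ((-wShift d w s n).natAbs : ℤ) ≤ (|d| + 1) * 3 ^ n := by
    rw [Int.natAbs_neg, Int.natCast_natAbs]
    have : (0 : ℤ) ≤ 2 ^ n := by positivity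
    have h0 : (0 : ℤ) ≤ |d| := abs_nonneg d
    have h5 : (0 : ℤ) ≤ 3 ^ n := by positivity
    nlinarith
  have h5 : (((3 : ℤ) ^ wOnes w s n).natAbs : ℤ) ≤ (|d| + 1) * 3 ^ n := by
    rw [Int.natCast_natAbs, abs_of_pos (by positivity)]
    have h6 : (3 : ℤ) ^ wOnes w s n ≤ 3 ^ n := pow_le_pow_right₀ (by norm_num) h3
    have h0 : (0 : ℤ) ≤ |d| := abs_nonneg d
    have h7 : (0 : ℤ) ≤ 3 ^ n := by positivity
    nlinarith
  have h6 : ((ht (wVal d w s n) : ℕ) : ℤ) ≤ (|d| + 1) * 3 ^ n := by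
    refine le_trans (Int.ofNat_le.mpr h1) ?_
    rw [Nat.cast_max]
    exact max_le h4 h5
  exact_mod_cast h6

end Pool.Agent.Lib.MP_d0d59f_nt.Un

end

section

namespace Pool.Agent.Lib.MP_d0d59f_nt.Un

open Lin Auto

/-- The theorem `affine_periodic` of `Sub/Words.lean` with explicit bounds which are uniform in `d`. Its
proof contains them (`hcht` for `α = c`, `h14` for `β`, before the last estimates by `B ^ p`): copy it. -/
theorem affine_explicit {d : ℤ} (hd : Odd d) (y : ℤ) (N p : ℕ) (hp : 0 < p)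
    (h : ∀ t < N, (T d)^[t] y % 2 = (T d)^[t + p] y % 2) :
    ∃ α β : ℚ, (ht α : ℝ) ≤ 2 * (|(d : ℝ)| + 1) * 9 ^ p ∧
      (ht β : ℝ) ≤ 4 * (|(d : ℝ)| + 1) ^ 2 * 81 ^ p ∧
      (y : ℚ) = α + 2 ^ N / 3 ^ ones d y N * (β + ((T d)^[N] y : ℤ)) := by
  have hcast : |(d : ℝ)| = ((|d| : ℤ) : ℝ) := (Int.cast_abs).symm
  rw [hcast]
  have hd1 : (1 : ℝ) ≤ ((|d| : ℤ) : ℝ) + 1 := by
    have : (0 : ℝ) ≤ ((|d| : ℤ) : ℝ) := by exact_mod_cast abs_nonneg d
    linarith
  set D : ℝ := ((|d| : ℤ) : ℝ) + 1 with hD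
  -- data
  set g := gval d y p with hg
  set t : ℚ := 2 ^ p / 3 ^ ones d y p with ht1
  have htne : 1 - t ≠ 0 := affine_t_ne y hp
  set c := g * (1 - t)⁻¹ with hc
  have hcfix : g = c - t * c := by
    rw [hc]
    field_simp
  set M := N / p with hM
  set q := N % p with hq
  have hN : N = q + M * p := by
    rw [hM, hq, mul_comm]
    exact (Nat.mod_add_div N p).symm
  have hqp : q < p := Nat.mod_lt _ hp
  have hMN : M * p ≤ N := by omega
  -- the chain
  have hchain : ∀ j : ℕ, j * p ≤ N → (y : ℚ) - c = t ^ j * (((T d)^[j * p] y : ℤ) - c) := by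
    intro j
    induction j with
    | zero => intro _; simp
    | succ j ih =>
      intro hj
      have h1 : (j + 1) * p = p + j * p := by ring
      rw [h1] at hj
      have h2 := affine_block hd (y := y) (z := (T d)^[j * p] y) (L := p)
        fun k hk => (affine_par h j k hk (by omega)).symm
      rw [ih (by omega), h1, Function.iterate_add_apply, pow_succ]
      rw [← hg, ← ht1, hcfix] at h2
      rw [h2]
      ring
  have h3 := affine_block hd (y := y) (z := (T d)^[M * p] y) (L := q)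
    fun k hk => (affine_par h M k (by omega) hMN).symm
  rw [← Function.iterate_add_apply, ← hN] at h3
  set gq := gval d y q with hgq
  set tq : ℚ := 2 ^ q / 3 ^ ones d y q with htq
  have htq0 : tq ≠ 0 := by rw [htq]; positivity
  have hones : (2 : ℚ) ^ N / 3 ^ ones d y N = t ^ M * tq := by
    have h4 : ones d y N = M * ones d y p + ones d y q := by
      have h5 : N = M * p + q := by omega
      rw [h5, ones_add, affine_ones hd h M hMN]
      rw [(ones_shift_congr hd (y := (T d)^[M * p] y) (z := y) q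
        fun k hk => affine_par h M k (by omega) hMN).1]
    have h5 : (2 : ℚ) ^ N = (2 ^ p) ^ M * 2 ^ q := by
      rw [← pow_mul, ← pow_add]
      congr 1
      rw [mul_comm p M]
      omega
    rw [h4, h5, ht1, htq, pow_add, mul_comm M, pow_mul, div_pow, div_mul_div_comm]
  have hD0 : 0 < D := by linarith
  have hcht : (ht c : ℝ) ≤ 2 * D * 9 ^ p := by
    have h8 : (ht c : ℝ) ≤ ht g * ht (1 - t)⁻¹ := by exact_mod_cast ht_mul_le _ _
    have h9 : (ht (1 - t)⁻¹ : ℝ) ≤ ht (1 - t) := by exact_mod_cast ht_inv_le _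
    have h10 : (ht (1 + -t) : ℝ) ≤ 2 * (ht (1 : ℚ) * ht (-t)) := by
      exact_mod_cast ht_add_le 1 (-t)
    rw [← sub_eq_add_neg, ht_neg, ah_one] at h10
    have h11 := affine_ht_t (d := d) y p
    have h12 := ht_gval_le hd y p
    rw [← ht1] at h11
    rw [← hg, ← hD] at h12
    have h13 : (ht (1 - t)⁻¹ : ℝ) ≤ 2 * 3 ^ p := by
      push_cast at h10
      linarith
    refine h8.trans ((mul_le_mul h12 h13 (Nat.cast_nonneg _) (by positivity)).trans ?_)
    have h14 : (9 : ℝ) ^ p = 3 ^ p * 3 ^ p := by rw [← mul_pow]; norm_num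
    rw [h14]
    exact le_of_eq (by ring)
  refine ⟨c, (gq - c) * tq⁻¹, ?_, ?_, ?_⟩
  · exact hcht
  · have h8 : (ht (gq - c) : ℝ) ≤ 2 * ((D * 3 ^ p) * (2 * D * 9 ^ p)) := by
      have h9 : (ht (gq + -c) : ℝ) ≤ 2 * (ht gq * ht (-c)) := by exact_mod_cast ht_add_le gq (-c)
      rw [← sub_eq_add_neg, ht_neg] at h9
      refine h9.trans ?_
      have h10 : (ht gq : ℝ) ≤ D * 3 ^ p := by
        refine (ht_gval_le hd y q).trans ?_
        have : (3 : ℝ) ^ q ≤ 3 ^ p := pow_le_pow_right₀ (by norm_num) hqp.le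
        exact mul_le_mul_of_nonneg_left this (by linarith)
      exact mul_le_mul_of_nonneg_left
        (mul_le_mul h10 hcht (Nat.cast_nonneg _) (by positivity)) (by norm_num)
    have h11 : (ht tq⁻¹ : ℝ) ≤ 3 ^ p := by
      have h12 : (ht tq⁻¹ : ℝ) ≤ ht tq := by exact_mod_cast ht_inv_le tq
      refine h12.trans ((affine_ht_t y q).trans ?_)
      exact pow_le_pow_right₀ (by norm_num) hqp.le
    have h13 : (ht ((gq - c) * tq⁻¹) : ℝ) ≤ ht (gq - c) * ht tq⁻¹ := by
      exact_mod_cast ht_mul_le _ _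
    refine h13.trans ((mul_le_mul h8 h11 (Nat.cast_nonneg _) (by positivity)).trans ?_)
    have h14 : 2 * ((D * 3 ^ p) * (2 * D * 9 ^ p)) * 3 ^ p = (4 * D ^ 2) * 81 ^ p := by
      have : (81 : ℝ) ^ p = 3 ^ p * 9 ^ p * 3 ^ p := by
        rw [← mul_pow, ← mul_pow]; norm_num
      rw [this]; ring
    rw [h14]
  · have h6 := hchain M hMN
    rw [h3] at h6
    rw [hones]
    have h7 : (y : ℚ) = c + t ^ M * (gq + tq * ((T d)^[N] y : ℤ) - c) := by linarith
    rw [h7]
    field_simp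
    ring

end Pool.Agent.Lib.MP_d0d59f_nt.Un

end

section

namespace Pool.Agent.Lib.MP_d0d59f_nt.Un

open Lin Auto

/-- The piece of length `N` has, after its first `p` letters, the period `p`.

Proof. Let `D = |d| + 1 ≥ 2`. If `N ≤ 2 p` take `α = gval d y N`, `β = 0` (`gval_eq`, `ht_gval_le`:
`D 3 ^ N ≤ D 9 ^ p`). Otherwise let `M = N - 2 p`, `z = (T d)^[p] y`. For `t < M` the parities of
`(T d)^[t] z` and `(T d)^[t + p] z` agree (`h` for `t + p`), so by `affine_explicit`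
`z = α' + 2 ^ M / 3 ^ ones d z M * (β' + v)`, `v = (T d)^[M] z`. By `gval_eq`
`y = gval d y p + t₀ z` with `t₀ = 2 ^ p / 3 ^ ones d y p` and `v = gval d v p + t₂ (T d)^[N] y` with
`t₂ = 2 ^ p / 3 ^ ones d v p` (`N = p + M + p`). With `ones_add` twice
(`ones d y N = ones d y p + ones d z M + ones d v p`) one gets `α = gval d y p + t₀ α'`,
`β = (β' + gval d v p) * t₂⁻¹`. Heights: `ht_add_le`, `ht_mul_le`, `ht_inv_le`, `ht t₀ ≤ 3 ^ p`
(`affine_ht_t`): `ht α ≤ 2 (D 3 ^ p) (3 ^ p * 2 D 9 ^ p) = 4 D ^ 2 81 ^ p`,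
`ht β ≤ 2 (4 D ^ 2 81 ^ p) (D 3 ^ p) 3 ^ p = 8 D ^ 3 729 ^ p`; both `≤ D ^ 8 (10 ^ 5) ^ p` as
`D ≥ 2` (`d ≠ 0`). -/
theorem piece_form {d : ℤ} (hd : Odd d) (y : ℤ) (N p : ℕ) (hp : 0 < p)
    (h : ∀ t, p ≤ t → t + p < N → ((T d)^[t] y % 2 = 1 ↔ (T d)^[t + p] y % 2 = 1)) :
    ∃ α β : ℚ, (ht α : ℝ) ≤ (|(d : ℝ)| + 1) ^ 8 * (10 ^ 5) ^ p ∧
      (ht β : ℝ) ≤ (|(d : ℝ)| + 1) ^ 8 * (10 ^ 5) ^ p ∧
      (y : ℚ) = α + 2 ^ N / 3 ^ ones d y N * (β + ((T d)^[N] y : ℤ)) := by
  have hd1 : (1 : ℝ) ≤ |(d : ℝ)| := by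
    have h1 : d ≠ 0 := by
      rintro rfl
      exact absurd hd (by decide)
    have h2 : (1 : ℤ) ≤ |d| := Int.one_le_abs h1
    exact_mod_cast h2
  set D : ℝ := |(d : ℝ)| + 1 with hD
  have hD2 : 2 ≤ D := by linarith
  have hgv : ∀ (u : ℤ) (L : ℕ), (ht (gval d u L) : ℝ) ≤ D * 3 ^ L := by
    intro u L
    have := ht_gval_le hd u L
    push_cast at this
    exact this
  have hbig : ∀ (k b : ℕ) (c : ℝ), c * D ^ k ≤ D ^ 8 → b ≤ 10 ^ 5 →
      c * D ^ k * (b : ℝ) ^ p ≤ D ^ 8 * (10 ^ 5) ^ p := by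
    intro k b c h1 h2
    have h3 : (b : ℝ) ^ p ≤ (10 ^ 5) ^ p := by
      apply pow_le_pow_left₀ (Nat.cast_nonneg _)
      exact_mod_cast h2
    exact mul_le_mul h1 h3 (by positivity) (by positivity)
  have hD6 : (64 : ℝ) ≤ D ^ 6 := by
    calc (64 : ℝ) = 2 ^ 6 := by norm_num
      _ ≤ D ^ 6 := pow_le_pow_left₀ (by norm_num) hD2 6
  have hD5 : (32 : ℝ) ≤ D ^ 5 := by
    calc (32 : ℝ) = 2 ^ 5 := by norm_num
      _ ≤ D ^ 5 := pow_le_pow_left₀ (by norm_num) hD2 5
  have hD7 : (128 : ℝ) ≤ D ^ 7 := by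
    calc (128 : ℝ) = 2 ^ 7 := by norm_num
      _ ≤ D ^ 7 := pow_le_pow_left₀ (by norm_num) hD2 7
  by_cases hN : N ≤ 2 * p
  · refine ⟨gval d y N, 0, ?_, ?_, ?_⟩
    · refine (hgv y N).trans ?_
      have h1 : (3 : ℝ) ^ N ≤ ((9 : ℕ) : ℝ) ^ p := by
        calc (3 : ℝ) ^ N ≤ 3 ^ (2 * p) := pow_le_pow_right₀ (by norm_num) hN
          _ = ((9 : ℕ) : ℝ) ^ p := by rw [pow_mul]; norm_num
      have h2 := hbig 1 9 1 (by nlinarith) (by norm_num)
      refine le_trans ?_ h2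
      rw [one_mul, pow_one]
      exact mul_le_mul_of_nonneg_left h1 (by linarith)
    · have h0 : (ht (0 : ℚ) : ℝ) = 1 := by simp [ht]
      rw [h0]
      have h2 := hbig 0 1 1 (by nlinarith) (by norm_num)
      simpa using h2
    · rw [gval_eq, zero_add]
      ring
  · push Not at hN
    obtain ⟨M, rfl⟩ : ∃ M, N = p + M + p := ⟨N - 2 * p, by omega⟩
    set z := (T d)^[p] y with hz
    have hit : ∀ t, (T d)^[t] z = (T d)^[t + p] y := by
      intro t
      rw [hz, ← Function.iterate_add_apply]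
    obtain ⟨α', β', hα', hβ', hzz⟩ := affine_explicit hd z M p hp (by
      intro t ht
      rw [hit, hit]
      have h1 := h (t + p) (by omega) (by omega)
      rcases Int.emod_two_eq_zero_or_one ((T d)^[t + p] y) with h2 | h2 <;>
        rcases Int.emod_two_eq_zero_or_one ((T d)^[t + p + p] y) with h3 | h3 <;>
        simp [h2, h3] at h1 ⊢)
    set v := (T d)^[M] z with hv
    have hw : (T d)^[p + M + p] y = (T d)^[p] v := by
      rw [hv, hz, ← Function.iterate_add_apply, ← Function.iterate_add_apply]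
    have hy := gval_eq d y p
    have hvv := gval_eq d v p
    have ho : ones d y (p + M + p) = ones d y p + ones d z M + ones d v p := by
      have h1 : (T d)^[p + M] y = v := by
        rw [hv, hz, ← Function.iterate_add_apply, add_comm]
      rw [ones_add, ones_add, h1]
    rw [hw, ho]
    set w := (T d)^[p] v with hwdef
    set t0 : ℚ := 2 ^ p / 3 ^ ones d y p with ht0
    set tM : ℚ := 2 ^ M / 3 ^ ones d z M with htM
    set t2 : ℚ := 2 ^ p / 3 ^ ones d v p with ht2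
    have ht2ne : t2 ≠ 0 := by rw [ht2]; positivity
    have htt : (2 : ℚ) ^ (p + M + p) / 3 ^ (ones d y p + ones d z M + ones d v p) =
        t0 * tM * t2 := by
      rw [ht0, htM, ht2, div_mul_div_comm, div_mul_div_comm, ← pow_add, ← pow_add, ← pow_add,
        ← pow_add]
    rw [htt]
    have hh0 := affine_ht_t (d := d) y p
    have hh2 := affine_ht_t (d := d) v p
    rw [← ht0] at hh0
    rw [← ht2] at hh2
    have e81 : (81 : ℝ) ^ p = 3 ^ p * 3 ^ p * 9 ^ p := by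
      rw [← mul_pow, ← mul_pow]; norm_num
    have e729 : (729 : ℝ) ^ p = 81 ^ p * 3 ^ p * 3 ^ p := by
      rw [← mul_pow, ← mul_pow]; norm_num
    refine ⟨gval d y p + t0 * α', (β' + gval d v p) * t2⁻¹, ?_, ?_, ?_⟩
    · have h1 : (ht (gval d y p + t0 * α') : ℝ) ≤ 2 * (ht (gval d y p) * ht (t0 * α')) := by
        exact_mod_cast ht_add_le _ _
      have h2 : (ht (t0 * α') : ℝ) ≤ ht t0 * ht α' := by exact_mod_cast ht_mul_le _ _
      have h3 : (ht (t0 * α') : ℝ) ≤ 3 ^ p * (2 * D * 9 ^ p) :=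
        h2.trans (mul_le_mul hh0 hα' (Nat.cast_nonneg _) (by positivity))
      have h4 : (ht (gval d y p) * ht (t0 * α') : ℝ) ≤ D * 3 ^ p * (3 ^ p * (2 * D * 9 ^ p)) :=
        mul_le_mul (hgv y p) h3 (Nat.cast_nonneg _) (by positivity)
      refine h1.trans (le_trans ?_ (hbig 2 81 4 (by nlinarith) (by norm_num)))
      push_cast
      rw [e81]
      nlinarith
    · have h1 : (ht ((β' + gval d v p) * t2⁻¹) : ℝ) ≤ ht (β' + gval d v p) * ht t2⁻¹ := by
        exact_mod_cast ht_mul_le _ _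
      have h2 : (ht (β' + gval d v p) : ℝ) ≤ 2 * (ht β' * ht (gval d v p)) := by
        exact_mod_cast ht_add_le _ _
      have h3 : (ht t2⁻¹ : ℝ) ≤ ht t2 := by exact_mod_cast ht_inv_le _
      have h4 : (ht β' * ht (gval d v p) : ℝ) ≤ 4 * D ^ 2 * 81 ^ p * (D * 3 ^ p) :=
        mul_le_mul hβ' (hgv v p) (Nat.cast_nonneg _) (by positivity)
      have h5 : (ht (β' + gval d v p) : ℝ) ≤ 2 * (4 * D ^ 2 * 81 ^ p * (D * 3 ^ p)) := by linarith
      have h6 : (ht (β' + gval d v p) * ht t2⁻¹ : ℝ) ≤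
          2 * (4 * D ^ 2 * 81 ^ p * (D * 3 ^ p)) * 3 ^ p :=
        mul_le_mul h5 (h3.trans hh2) (Nat.cast_nonneg _) (by positivity)
      refine h1.trans (h6.trans (le_trans ?_ (hbig 3 729 8 (by nlinarith) (by norm_num))))
      push_cast
      rw [e729]
      apply le_of_eq
      ring
    · have h1 : (y : ℚ) = gval d y p + t0 * z := by rw [hy]; ring
      have h2 : (v : ℚ) = gval d v p + t2 * w := by rw [hvv]; ring
      rw [h2] at hzz
      conv_lhs => rw [h1, hzz]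
      field_simp
      ring

end Pool.Agent.Lib.MP_d0d59f_nt.Un

end

section

namespace Pool.Agent.Lib.MP_d0d59f_nt.Un

open Lin

/-- Induction on `n`. Let `S n = 2 ^ n (T d)^[n] y`, `R n = 3 ^ ones d y n * y`. If `(T d)^[n] y` is even
then `S (n + 1) = S n`, `R (n + 1) = R n`. If it is odd then `S (n + 1) = 3 S n + 2 ^ n d`,
`R (n + 1) = 3 R n` (`ones_succ`) and `|2 ^ n d| ≤ |S n| |d| / A` (`h n`), and by the induction hypothesis
`|S n| ≤ (1 + n |d| / A) |R n| ≤ 2 |R n|`, so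
`|S (n + 1) - R (n + 1)| ≤ 3 (n |d| / A) |R n| + 2 (|d| / A) |R n| ≤ ((n + 1) |d| / A) |R (n + 1)|`. -/
theorem ratio_near {d : ℤ} (hd : Odd d) (y : ℤ) (n : ℕ) {A : ℝ} (hA : 0 < A)
    (hn : (n : ℝ) * |(d : ℝ)| ≤ A) (h : ∀ j < n, A ≤ |((T d)^[j] y : ℝ)|) :
    |(2 : ℝ) ^ n * ((T d)^[n] y : ℤ) - 3 ^ ones d y n * y| ≤
      (n * |(d : ℝ)| / A) * (3 ^ ones d y n * |(y : ℝ)|) := by
  induction n with
  | zero => simp [ones_zero]
  | succ n ih =>
    have hd0 : (0 : ℝ) ≤ |(d : ℝ)| := abs_nonneg _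
    have hn' : (n : ℝ) * |(d : ℝ)| ≤ A := by
      refine le_trans ?_ hn
      push_cast
      nlinarith
    have ih' := ih hn' fun j hj => h j (by omega)
    have hz := h n (by omega)
    rw [Function.iterate_succ_apply', ones_succ]
    set z := (T d)^[n] y with hzdef
    set t : ℝ := n * |(d : ℝ)| / A with ht
    set u : ℝ := |(d : ℝ)| / A with hu
    have hu0 : 0 ≤ u := by positivity
    have ht0 : 0 ≤ t := by positivity
    have ht1 : t ≤ 1 := by rw [ht, div_le_one hA]; exact hn'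
    have hts : ((n + 1 : ℕ) : ℝ) * |(d : ℝ)| / A = t + u := by
      rw [ht, hu, ← add_div]
      push_cast
      ring
    rw [hts]
    have hR0 : (0 : ℝ) ≤ 3 ^ ones d y n * |(y : ℝ)| := by positivity
    rcases Int.emod_two_eq_zero_or_one z with he | ho
    · rw [if_neg (by omega), add_zero]
      have e1 : (2 : ℝ) ^ (n + 1) * (T d z : ℤ) = 2 ^ n * (z : ℤ) := by
        have := T_even (d := d) he
        have h2 : ((2 * T d z : ℤ) : ℝ) = (z : ℝ) := by rw [this]
        push_cast at h2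
        rw [pow_succ, mul_assoc, h2]
      rw [e1]
      refine le_trans ih' ?_
      apply mul_le_mul_of_nonneg_right _ hR0
      linarith
    · rw [if_pos ho, pow_succ (3 : ℝ)]
      have e1 : (2 : ℝ) ^ (n + 1) * (T d z : ℤ) = 3 * (2 ^ n * (z : ℤ)) + 2 ^ n * d := by
        have := T_odd hd ho
        have h2 : ((2 * T d z : ℤ) : ℝ) = ((3 * z + d : ℤ) : ℝ) := by rw [this]
        push_cast at h2
        rw [pow_succ, mul_assoc, h2]
        ring
      rw [e1]
      have h2n : |(2 : ℝ) ^ n * d| ≤ u * |(2 : ℝ) ^ n * (z : ℤ)| := by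
        rw [abs_mul, abs_mul, hu, div_mul_eq_mul_div, le_div_iff₀ hA,
          abs_of_pos (by positivity : (0 : ℝ) < 2 ^ n)]
        have h3 : (0 : ℝ) < 2 ^ n := by positivity
        nlinarith [mul_le_mul_of_nonneg_left hz (mul_nonneg h3.le hd0)]
      have hS : |(2 : ℝ) ^ n * (z : ℤ)| ≤ 2 * (3 ^ ones d y n * |(y : ℝ)|) := by
        have h3 : |(3 : ℝ) ^ ones d y n * y| = 3 ^ ones d y n * |(y : ℝ)| := by
          rw [abs_mul, abs_of_pos (by positivity : (0 : ℝ) < 3 ^ ones d y n)]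
        have h4 : |(2 : ℝ) ^ n * (z : ℤ)| ≤ |(2 : ℝ) ^ n * (z : ℤ) - 3 ^ ones d y n * y| +
            |(3 : ℝ) ^ ones d y n * y| := by
          have := abs_add_le ((2 : ℝ) ^ n * (z : ℤ) - 3 ^ ones d y n * y) ((3 : ℝ) ^ ones d y n * y)
          rwa [sub_add_cancel] at this
        rw [h3] at h4
        nlinarith [mul_le_mul_of_nonneg_right ht1 hR0]
      calc |3 * (2 ^ n * (z : ℤ)) + 2 ^ n * d - 3 ^ ones d y n * 3 * (y : ℝ)|
          = |3 * ((2 : ℝ) ^ n * (z : ℤ) - 3 ^ ones d y n * y) + 2 ^ n * d| := by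
            congr 1
            ring
        _ ≤ |3 * ((2 : ℝ) ^ n * (z : ℤ) - 3 ^ ones d y n * y)| + |(2 : ℝ) ^ n * d| := abs_add_le _ _
        _ ≤ 3 * (t * (3 ^ ones d y n * |(y : ℝ)|)) + u * (2 * (3 ^ ones d y n * |(y : ℝ)|)) := by
            rw [abs_mul, abs_of_pos (by norm_num : (0 : ℝ) < 3)]
            have := mul_le_mul_of_nonneg_left hS hu0
            linarith
        _ ≤ (t + u) * (3 ^ ones d y n * 3 * |(y : ℝ)|) := by
            nlinarith [mul_nonneg hu0 hR0]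

end Pool.Agent.Lib.MP_d0d59f_nt.Un

end
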