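import Pool.Agent.Lib.MP_d0d59f_nt.Un.Definitions
import Pool.Agent.Lib.MP_d0d59f_nt.Un.Dynamics

/-!
Families of orbits with cuttings and without coincidences.
-/

section

namespace Pool.Agent.Lib.MP_d0d59f_nt.Un

open Filter Topology Auto Lin

variable {K : ℕ} {d x : ℕ → ℤ} {L : ℕ → ℕ} {w : ℕ → ℕ → Bool} {P : ℕ → ℕ → ℕ}
  {ty : ℕ → ℕ → Option (Fin K)} {p : ℕ → ℕ → ℕ}

/-- for `m ≥ 1`: `|d m| ≤ |d m| ^ m ≤ 2 ^ L m` and `|x m| ≤ 2 ^ (K * L m)`. -/
theorem CutFam.max_le (h : CutFam K d x L w P ty p) {m : ℕ} (hm : 1 ≤ m) :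
    max |x m| |d m| ≤ 2 ^ ((K + 1) * L m) := by
  have h2 : (1 : ℤ) ≤ 2 := by norm_num
  have hd0 : d m ≠ 0 := by
    intro h0
    have := h.odd m
    rw [h0] at this
    exact absurd this (by decide)
  have hd1 : 1 ≤ |d m| := Int.one_le_abs hd0
  refine _root_.max_le ?_ ?_
  · refine (h.size m).trans (pow_le_pow_right₀ h2 (Nat.mul_le_mul_right _ (Nat.le_succ K)))
  · refine ((le_self_pow₀ hd1 (by omega)).trans (h.dpow m)).trans (pow_le_pow_right₀ h2 ?_)
    exact Nat.le_mul_of_pos_left _ (Nat.succ_pos K)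

/-- A periodic run of the word inside the window is short: `run_bound3` for `x m`, `i = u`, `p = q`
and `s = (K + 1) L`; the parities agree with the word (`agree`), `noPer`. -/
theorem CutFam.run_le (h : CutFam K d x L w P ty p) {m : ℕ} (hm : 1 ≤ m) {u q e : ℕ} (hq : 0 < q)
    (he : e ≤ m * L m) (huq : u + q ≤ e) (hper : ∀ t, u ≤ t → t + q < e → w m t = w m (t + q)) :
    e ≤ 2 * (u + q) + (K + 1) * L m + 1 := by
  have h1 := run_bound3 (h.odd m) (x := x m) (i := u) (N := e - u - q) (p := q)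
    (s := (K + 1) * L m) (h.max_le hm) (h.noPer m u q hq (huq.trans he)) (by
      intro t ht
      rw [h.agree m (u + t) (by omega), h.agree m (u + t + q) (by omega),
        hper (u + t) (by omega) (by omega)])
  omega

theorem UC1_step (h : CutFam K d x L w P ty p) (i C' : ℕ)
    (hC : ∀ᶠ m in atTop, P m (2 * i) ≤ C' * L m) : ∃ C : ℕ, ∀ᶠ m in atTop,
    P m (2 * i + 2) ≤ C * L m ∧ ty m i ≠ none := by
  refine ⟨2 * C' + K + 6 + K, ?_⟩
  filter_upwards [hC, eventually_gt_atTop (2 * (2 * C' + K + 6) + 5 * K + 2)] with m h1 h2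
  have hm : 1 ≤ m := by omega
  have hL : 1 ≤ L m := hm.trans (h.le m)
  have hcut := h.cut m
  have hpos := hcut.per_pos i
  have hpL : p m i ≤ L m := by
    have h3 := hcut.per_le i
    exact (Nat.le_mul_of_pos_left _ (by omega)).trans h3
  have hmL : (2 * (2 * C' + K + 6) + 5 * K + 3) * L m ≤ m * L m :=
    Nat.mul_le_mul_right _ (by omega)
  have e1 : (2 * (2 * C' + K + 6) + 5 * K + 3) * L m =
      4 * (C' * L m) + 7 * (K * L m) + 15 * L m := by ring
  have e2 : (K + 1) * L m = K * L m + L m := by ring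
  have e3 : (2 * C' + K + 6 + K) * L m = 2 * (C' * L m) + 2 * (K * L m) + 6 * L m := by ring
  rw [e1] at hmL
  have hkey : P m (2 * i + 1) ≤ 2 * (C' * L m) + K * L m + 6 * L m := by
    by_cases hlt : min (P m (2 * i + 1)) (m * L m) < P m (2 * i) + p m i + p m i
    · rcases min_choice (P m (2 * i + 1)) (m * L m) with hc | hc
      · rw [hc] at hlt
        omega
      · rw [hc] at hlt
        omega
    · have h3 := h.run_le hm hpos (min_le_right (P m (2 * i + 1)) (m * L m)) (not_lt.mp hlt)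
        (by
          intro t ht1 ht2
          exact hcut.per i t ht1 (lt_of_lt_of_le ht2 (min_le_left _ _)))
      rcases min_choice (P m (2 * i + 1)) (m * L m) with hc | hc
      · rw [hc] at h3
        omega
      · rw [hc] at h3
        omega
  have hlong := hcut.long_le i
  have hP2 : P m (2 * i + 2) ≤ 2 * (C' * L m) + 2 * (K * L m) + 6 * L m := by omega
  refine ⟨by rw [e3]; exact hP2, ?_⟩
  intro hnone
  obtain ⟨q, hq0, hqK, hper⟩ := hcut.stop i hnone
  have h4 := h.run_le (u := P m (2 * i + 2)) hm hq0 (le_refl (m * L m)) (by omega)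
    (fun t ht1 _ => hper t ht1)
  omega

/-- Induction on `i`, with `P m (2 * i) ≤ C' * L m` for almost all `m` from the case `i - 1` (from
`zero_le` for `i = 0`). Let `u = P m (2 i) + p m i ≤ (C' + 1) L` (`per_le`: for `m ≥ 1`
`p m i ≤ L m`). Let `e = min (P m (2 i + 1)) (m * L m)`. Either `e < u + p m i ≤ (C' + 2) L` or
`CutFam.run_le` with `q = p m i` gives `e ≤ C'' L`; for `m > C''` (and `L m ≥ 1`) this
means `e = P m (2 i + 1)`. By `long_le` `P m (2 i + 2) ≤ (C'' + K) L`. If `ty m i = none` then `stop`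
gives `q ≤ K L` and `CutFam.run_le` with `u = P m (2 i + 2)` and `e = m L` gives
`m L ≤ 2 (C'' + 2 K) L + (K + 1) L + 1`, false for large `m`. -/
theorem CutFam.typed_le (h : CutFam K d x L w P ty p) (i : ℕ) : ∃ C : ℕ, ∀ᶠ m in atTop,
    P m (2 * i + 2) ≤ C * L m ∧ ty m i ≠ none := by
  induction i with
  | zero => exact UC1_step h 0 K (Eventually.of_forall fun m => (h.cut m).zero_le)
  | succ i ih =>
    obtain ⟨C, hC⟩ := ih
    refine UC1_step h (i + 1) C (hC.mono fun m hm => ?_)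
    rw [mul_add, mul_one]
    exact hm.1

theorem CutFam.mono' (h : CutFam K d x L w P ty p) (m : ℕ) : Monotone (P m) :=
  monotone_nat_of_le_succ (h.cut m).mono

/-- `t ≤ 2 t + 2` and monotonicity. -/
theorem CutFam.P_le (h : CutFam K d x L w P ty p) (t : ℕ) : ∃ C : ℕ, ∀ᶠ m in atTop,
    P m t ≤ C * L m := by
  obtain ⟨C, hC⟩ := h.typed_le t
  exact ⟨C, hC.mono fun m hm => (h.mono' m (by omega)).trans hm.1⟩

theorem CutFam.typed (h : CutFam K d x L w P ty p) (i : ℕ) : ∀ᶠ m in atTop, ty m i ≠ none := by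
  obtain ⟨C, hC⟩ := h.typed_le i
  exact hC.mono fun m hm => hm.2

end Pool.Agent.Lib.MP_d0d59f_nt.Un

end

section

namespace Pool.Agent.Lib.MP_d0d59f_nt.Un

open Filter Topology Auto Lin

variable {K : ℕ} {d x : ℕ → ℤ} {L : ℕ → ℕ} {w : ℕ → ℕ → Bool} {P : ℕ → ℕ → ℕ}
  {ty : ℕ → ℕ → Option (Fin K)} {p : ℕ → ℕ → ℕ}

theorem CutFam.tend (h : CutFam K d x L w P ty p) : Tendsto L atTop atTop :=
  tendsto_atTop_mono h.le tendsto_id

/-- `|d| ≥ 1` (odd), so `|d| ^ k ≤ |d| ^ m ≤ 2 ^ L m` for `m ≥ k`. -/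
theorem CutFam.d_pow_le (h : CutFam K d x L w P ty p) (k : ℕ) : ∀ᶠ m in atTop,
    |d m| ^ k ≤ 2 ^ L m := by
  filter_upwards [eventually_ge_atTop k] with m hm
  refine le_trans (pow_le_pow_right₀ ?_ hm) (h.dpow m)
  have h0 : d m ≠ 0 := by
    intro h0
    have := h.odd m
    rw [h0] at this
    exact absurd this (by decide)
  exact Int.one_le_abs h0

/-- Let `k` be such that `2 ≤ (1 + ε) ^ k`; then `|d| ^ k ≤ 2 ^ L ≤ ((1 + ε) ^ L) ^ k`
(`CutFam.d_pow_le`, `pow_le_pow_left_iff` / `lt_of_pow_lt_pow_left₀`). -/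
theorem CutFam.d_small (h : CutFam K d x L w P ty p) (ε : ℝ) (hε : 0 < ε) : ∀ᶠ m in atTop,
    |(d m : ℝ)| ≤ (1 + ε) ^ L m := by
  obtain ⟨k, hk⟩ := pow_unbounded_of_one_lt (2 : ℝ) (by linarith : (1 : ℝ) < 1 + ε)
  have hk0 : k ≠ 0 := by
    rintro rfl
    rw [pow_zero] at hk
    linarith
  filter_upwards [h.d_pow_le k] with m hm
  have h1 : |(d m : ℝ)| ^ k ≤ 2 ^ L m := by exact_mod_cast hm
  have h2 : (2 : ℝ) ^ L m ≤ ((1 + ε) ^ L m) ^ k := by
    rw [← pow_mul, mul_comm (L m) k, pow_mul]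
    exact pow_le_pow_left₀ (by norm_num) hk.le _
  exact le_of_pow_le_pow_left₀ hk0 (by positivity) (h1.trans h2)

/-- `abs_iter_le`, `CutFam.max_le`, `CutFam.P_le`. -/
theorem CutFam.start (h : CutFam K d x L w P ty p) (i : ℕ) : ∃ C : ℝ, ∀ᶠ m in atTop,
    |((T (d m))^[P m i] (x m) : ℝ)| ≤ C ^ L m := by
  obtain ⟨C, hC⟩ := h.P_le i
  refine ⟨2 ^ (C + (K + 1)), ?_⟩
  filter_upwards [hC, eventually_ge_atTop 1] with m hm h1
  have e1 := abs_iter_le (h.odd m) (x m) (P m i)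
  have e2 := h.max_le h1
  have e3 : (2 : ℤ) ^ P m i ≤ 2 ^ (C * L m) := pow_le_pow_right₀ (by norm_num) hm
  have e4 : |(T (d m))^[P m i] (x m)| ≤ (2 ^ (C + (K + 1))) ^ L m := by
    calc |(T (d m))^[P m i] (x m)| ≤ 2 ^ P m i * max |x m| |d m| := e1
      _ ≤ 2 ^ (C * L m) * 2 ^ ((K + 1) * L m) :=
        mul_le_mul e3 e2 (le_max_of_le_left (abs_nonneg _)) (by positivity)
      _ = (2 ^ (C + (K + 1))) ^ L m := by
        rw [← pow_add, ← pow_mul]
        congr 1
        ring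
  have e5 : ((|(T (d m))^[P m i] (x m)| : ℤ) : ℝ) ≤ (((2 ^ (C + (K + 1))) ^ L m : ℤ) : ℝ) :=
    Int.cast_le.2 e4
  push_cast at e5
  exact e5

/-- The short periods: for every `η > 0` eventually `p m i ≤ η L m` (`per_le`: `m * p m i ≤ L m`). -/
theorem CutFam.p_small (h : CutFam K d x L w P ty p) (η : ℝ) (hη : 0 < η) : ∀ᶠ m in atTop,
    ∀ i, (p m i : ℝ) ≤ η * L m := by
  filter_upwards [eventually_ge_atTop (Nat.ceil (1 / η))] with m hm i
  have e1 : (m : ℝ) * p m i ≤ L m := by exact_mod_cast (h.cut m).per_le i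
  have e2 : 1 / η ≤ m := (Nat.le_ceil _).trans (by exact_mod_cast hm)
  have e3 : 1 ≤ η * m := by
    rw [div_le_iff₀ hη] at e2
    linarith
  have e4 : (0 : ℝ) ≤ p m i := Nat.cast_nonneg _
  calc (p m i : ℝ) = 1 * p m i := (one_mul _).symm
    _ ≤ (η * m) * p m i := mul_le_mul_of_nonneg_right e3 e4
    _ = η * (m * p m i) := by ring
    _ ≤ η * L m := mul_le_mul_of_nonneg_left e1 hη.le

/-- The heights of `piece_form` are small: `(|d| + 1) ^ 8 * (10 ^ 5) ^ p ≤ (1 + ε) ^ L`, uniformly in `i`: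
take logarithms, `CutFam.d_small` and `CutFam.p_small` (compare `LinData_pow` in `Sub/Words.lean`). -/
theorem CutFam.ht_small (h : CutFam K d x L w P ty p) (ε : ℝ) (hε : 0 < ε) : ∀ᶠ m in atTop,
    ∀ i, (|(d m : ℝ)| + 1) ^ 8 * (10 ^ 5) ^ p m i ≤ (1 + ε) ^ L m := by
  set c : ℝ := (1 + ε) ^ (1 / 32 : ℝ) with hc
  have hc1 : 1 < c := Real.one_lt_rpow (by linarith) (by norm_num)
  have hc0 : 0 < c := by linarith
  have hc32 : c ^ 32 = 1 + ε := by
    rw [hc, ← Real.rpow_natCast, ← Real.rpow_mul (by linarith)]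
    norm_num
  obtain ⟨k, hk⟩ := pow_unbounded_of_one_lt ((10 : ℝ) ^ 5)
    (one_lt_pow₀ hc1 (by norm_num : (16 : ℕ) ≠ 0))
  have hk0 : k ≠ 0 := by
    rintro rfl
    rw [pow_zero] at hk
    norm_num at hk
  obtain ⟨k', hk'⟩ := pow_unbounded_of_one_lt (2 : ℝ) hc1
  filter_upwards [h.d_small (c - 1) (by linarith), h.tend.eventually_ge_atTop k',
    eventually_ge_atTop k] with m hd hL hm i
  rw [add_sub_cancel] at hd
  have e1 : k * p m i ≤ L m := (Nat.mul_le_mul_right _ hm).trans ((h.cut m).per_le i)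
  have e2 : ((10 : ℝ) ^ 5) ^ p m i ≤ (c ^ 16) ^ L m := by
    apply le_of_pow_le_pow_left₀ hk0 (by positivity)
    calc (((10 : ℝ) ^ 5) ^ p m i) ^ k = ((10 : ℝ) ^ 5) ^ (k * p m i) := by
          rw [← pow_mul, mul_comm (p m i) k]
      _ ≤ ((10 : ℝ) ^ 5) ^ L m := pow_le_pow_right₀ (by norm_num) e1
      _ ≤ ((c ^ 16) ^ k) ^ L m := pow_le_pow_left₀ (by norm_num) hk.le _
      _ = ((c ^ 16) ^ L m) ^ k := by
          rw [← pow_mul (c ^ 16) k, mul_comm k (L m), pow_mul (c ^ 16)]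
  have e3 : (2 : ℝ) ≤ c ^ L m := hk'.le.trans (pow_le_pow_right₀ hc1.le hL)
  have h0 : d m ≠ 0 := by
    intro h0
    have := h.odd m
    rw [h0] at this
    exact absurd this (by decide)
  have e4 : (1 : ℝ) ≤ |(d m : ℝ)| := by exact_mod_cast Int.one_le_abs h0
  have e5 : |(d m : ℝ)| + 1 ≤ c ^ L m * c ^ L m := by
    calc |(d m : ℝ)| + 1 ≤ 2 * |(d m : ℝ)| := by linarith
      _ ≤ c ^ L m * c ^ L m := mul_le_mul e3 hd (abs_nonneg _) (by positivity)
  have e6 : (|(d m : ℝ)| + 1) ^ 8 ≤ (c ^ 16) ^ L m := by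
    calc (|(d m : ℝ)| + 1) ^ 8 ≤ (c ^ L m * c ^ L m) ^ 8 :=
          pow_le_pow_left₀ (by positivity) e5 _
      _ = (c ^ 16) ^ L m := by ring
  calc (|(d m : ℝ)| + 1) ^ 8 * (10 ^ 5) ^ p m i ≤ (c ^ 16) ^ L m * (c ^ 16) ^ L m :=
        mul_le_mul e6 e2 (by positivity) (by positivity)
    _ = (c ^ 32) ^ L m := by ring
    _ = (1 + ε) ^ L m := by rw [hc32]

end Pool.Agent.Lib.MP_d0d59f_nt.Un

end

section

namespace Pool.Agent.Lib.MP_d0d59f_nt.Un

open Filter Topology Auto Lin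

variable {K : ℕ} {d x : ℕ → ℤ} {L : ℕ → ℕ} {w : ℕ → ℕ → Bool} {P : ℕ → ℕ → ℕ}
  {ty : ℕ → ℕ → Option (Fin K)} {p : ℕ → ℕ → ℕ}

/-- Two long pieces `i < j` of the same type which lie in the window: the orbit points at their beginnings
are different (`noPer`; `P m (2 i + 1) < P m (2 j + 1)` by `long`, `mono'`, `L m ≥ 1`) and
follow the same word for `N = P m (2 i + 2) - P m (2 i + 1)` steps (`word_eq`, `len_eq`, `agree`), so
`agree_le`. -/
theorem CutFam.two_starts (h : CutFam K d x L w P ty p) {m i j : ℕ} (hL : 1 ≤ L m) (hij : i < j)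
    (hty : ty m i = ty m j) (hi : ty m i ≠ none) (hj : P m (2 * j + 2) ≤ m * L m) :
    2 ^ (P m (2 * i + 2) - P m (2 * i + 1)) ≤
      |(T (d m))^[P m (2 * i + 1)] (x m)| + |(T (d m))^[P m (2 * j + 1)] (x m)| := by
  have h1 : P m (2 * i + 1) + L m ≤ P m (2 * i + 2) := (h.cut m).long i hi
  have h2 : P m (2 * i + 2) ≤ P m (2 * j + 1) := h.mono' m (by omega)
  have h3 : P m (2 * j + 1) ≤ P m (2 * j + 2) := h.mono' m (by omega)
  have h4 := (h.cut m).len_eq i j hty hi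
  apply agree_le (h.odd m)
  · intro k hk
    rw [← Function.iterate_add_apply, ← Function.iterate_add_apply, add_comm k, add_comm k,
      h.agree m _ (by omega), h.agree m _ (by omega),
      (h.cut m).word_eq i j hty hi k (by omega)]
  · intro he
    have h5 := h.noPer m (P m (2 * i + 1)) (P m (2 * j + 1) - P m (2 * i + 1)) (by omega) (by omega)
    apply h5
    rw [show P m (2 * i + 1) + (P m (2 * j + 1) - P m (2 * i + 1)) = P m (2 * j + 1) by omega]
    exact he.symm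

/-- Call `i` bad for `m` if `2 |y| < 2 ^ N`, where `y` is the orbit point at `P m (2 i + 1)` and
`N = P m (2 i + 2) - P m (2 i + 1)`. If the claim fails then for every `k` there is `i ≥ k` such that not
almost all `m` are good for `i`, i.e. almost all `m` (for the ultrafilter: `Ultrafilter.eventually_not`)
are bad for `i`. So there is a strictly increasing sequence of such `i`; take `K + 1` of them. For almost
all `m` all of them are bad, typed (`CutFam.typed`) and in the window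
(`CutFam.P_le`: `P m (2 i + 2) ≤ C L m ≤ m L m`), and two of them have the same type (pigeonhole);
for these `two_starts` gives a contradiction (their lengths `N` are equal by `len_eq`). -/
theorem CutFam.exists_start (h : CutFam K d x L w P ty p) : ∃ k₀ : ℕ, ∀ i, k₀ ≤ i →
    ∀ᶠ m in (hyperfilter ℕ : Filter ℕ), 2 ^ (P m (2 * i + 2) - P m (2 * i + 1)) ≤
      2 * |(T (d m))^[P m (2 * i + 1)] (x m)| := by
  classical
  by_contra hcon
  push Not at hcon
  set B : Set ℕ := {i | ∀ᶠ m in (hyperfilter ℕ : Filter ℕ), ¬ (2 ^ (P m (2 * i + 2) - P m (2 * i + 1)) ≤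
      2 * |(T (d m))^[P m (2 * i + 1)] (x m)|)} with hB
  have hBinf : B.Infinite := by
    rw [Set.infinite_iff_exists_gt]
    intro a
    obtain ⟨i, hi, hbad⟩ := hcon (a + 1)
    refine ⟨i, ?_, by omega⟩
    exact hbad.mono fun m hm => not_le.2 hm
  obtain ⟨S, hSB, hScard⟩ := hBinf.exists_subset_card_eq (K + 1)
  have hle : (hyperfilter ℕ : Filter ℕ) ≤ atTop := by
    rw [← Nat.cofinite_eq_atTop]
    exact hyperfilter_le_cofinite
  have ev1 : ∀ᶠ m in (hyperfilter ℕ : Filter ℕ), ∀ i ∈ S,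
      ¬ (2 ^ (P m (2 * i + 2) - P m (2 * i + 1)) ≤
        2 * |(T (d m))^[P m (2 * i + 1)] (x m)|) := by
    rw [Filter.eventually_all_finset]
    intro i hi
    exact hSB hi
  have ev2 : ∀ᶠ m in (hyperfilter ℕ : Filter ℕ), ∀ i ∈ S, ty m i ≠ none := by
    rw [Filter.eventually_all_finset]
    intro i _
    exact hle (h.typed i)
  have ev3 : ∀ᶠ m in (hyperfilter ℕ : Filter ℕ), ∀ i ∈ S, P m (2 * i + 2) ≤ m * L m := by
    rw [Filter.eventually_all_finset]
    intro i _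
    obtain ⟨C, hC⟩ := h.P_le (2 * i + 2)
    apply hle
    filter_upwards [hC, eventually_ge_atTop C] with m hm1 hm2
    exact hm1.trans (Nat.mul_le_mul_right _ hm2)
  have ev4 : ∀ᶠ m in (hyperfilter ℕ : Filter ℕ), 1 ≤ L m := by
    apply hle
    filter_upwards [eventually_ge_atTop 1] with m hm
    exact hm.trans (h.le m)
  obtain ⟨m, m1, m2, m3, m4⟩ := (ev1.and (ev2.and (ev3.and ev4))).exists
  have hcard : (Finset.univ.erase (none : Option (Fin K))).card < S.card := by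
    rw [Finset.card_erase_of_mem (Finset.mem_univ _), Finset.card_univ, Fintype.card_option,
      Fintype.card_fin, hScard]
    omega
  obtain ⟨i, hi, j, hj, hij, hty⟩ := Finset.exists_ne_map_eq_of_card_lt_of_maps_to hcard
    (f := fun i => ty m i) (fun i hi => by
      rw [Finset.mem_coe] at hi ⊢
      exact Finset.mem_erase.2 ⟨m2 i hi, Finset.mem_univ _⟩)
  have key : ∀ i j, i ∈ S → j ∈ S → i < j → ty m i = ty m j → False := by
    intro i j hi hj hij hty
    have k1 := h.two_starts m4 hij hty (m2 i hi) (m3 j hj)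
    have k2 := m1 i hi
    have k3 := m1 j hj
    have k4 := (h.cut m).len_eq i j hty (m2 i hi)
    have k5 := h.mono' m (show 2 * i + 1 ≤ 2 * i + 2 by omega)
    have k6 := h.mono' m (show 2 * j + 1 ≤ 2 * j + 2 by omega)
    have k7 : P m (2 * j + 2) - P m (2 * j + 1) = P m (2 * i + 2) - P m (2 * i + 1) := by omega
    rw [k7] at k3
    push Not at k2 k3
    linarith
  rcases lt_or_gt_of_ne hij with hlt | hlt
  · exact key i j hi hj hlt hty
  · exact key j i hj hi hlt hty.symm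

end Pool.Agent.Lib.MP_d0d59f_nt.Un

end

section

namespace Pool.Agent.Lib.MP_d0d59f_nt.Un

open Filter Topology Auto Lin

variable {K : ℕ} {d x : ℕ → ℤ} {L : ℕ → ℕ} {w : ℕ → ℕ → Bool} {P : ℕ → ℕ → ℕ}
  {ty : ℕ → ℕ → Option (Fin K)} {p : ℕ → ℕ → ℕ}

/-- A small number in the first part of a piece makes the number at its end small. Let `y` be the orbit
point at `n`, `q = p m i`, `r = P m (2 i + 1) - n`. Claim `r ≤ 4 q + s + 1`. Let `v = (P m (2 i) + q) - n`
(truncated subtraction, `v ≤ q`). If `r ≤ v + q` there is nothing to prove. Otherwise the orbit points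
at `n + v` and `n + v + q` are different (`noPer`) and follow the same word for
`r - v - q` steps (`per`, `agree`), so by `agree_le` and `abs_iter_le`
`2 ^ (r - v - q) ≤ 2 ^ v 2 ^ s + 2 ^ (v + q) 2 ^ s ≤ 2 ^ (2 q + s + 1)`. The claim and `abs_iter_le`
(`r` steps) give the result. -/
theorem CutFam.small_next (h : CutFam K d x L w P ty p) {m i n s : ℕ} (h1 : P m (2 * i) ≤ n)
    (h2 : n ≤ P m (2 * i + 1)) (h3 : P m (2 * i + 1) ≤ m * L m)
    (h4 : max |(T (d m))^[n] (x m)| |d m| ≤ 2 ^ s) :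
    |(T (d m))^[P m (2 * i + 1)] (x m)| ≤ 2 ^ (4 * p m i + 2 * s + 1) := by
  obtain ⟨r, hr⟩ : ∃ r, P m (2 * i + 1) = r + n := ⟨P m (2 * i + 1) - n, by omega⟩
  set q := p m i with hq
  have hq0 : 0 < q := (h.cut m).per_pos i
  have hodd := h.odd m
  have key : r ≤ 4 * q + s + 1 := by
    obtain ⟨v, hv⟩ : ∃ v, v = (P m (2 * i) + q) - n := ⟨_, rfl⟩
    have hvq : v ≤ q := by omega
    by_cases hrv : r ≤ v + q
    · omega
    · have hne : (T (d m))^[v + q] ((T (d m))^[n] (x m)) ≠ (T (d m))^[v] ((T (d m))^[n] (x m)) := by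
        have h5 := h.noPer m (v + n) q hq0 (by omega)
        intro hc
        apply h5
        have e1 : v + n + q = (v + q) + n := by omega
        rw [e1, Function.iterate_add_apply, Function.iterate_add_apply (T (d m)) v n]
        exact hc
      have h6 := agree_le hodd (y := (T (d m))^[v + q] ((T (d m))^[n] (x m)))
        (z := (T (d m))^[v] ((T (d m))^[n] (x m))) (n := r - v - q) (by
          intro k hk
          have e1 : (T (d m))^[k] ((T (d m))^[v + q] ((T (d m))^[n] (x m))) =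
              (T (d m))^[(n + v + k) + q] (x m) := by
            rw [← Function.iterate_add_apply, ← Function.iterate_add_apply,
              show k + (v + q) + n = (n + v + k) + q by omega]
          have e2 : (T (d m))^[k] ((T (d m))^[v] ((T (d m))^[n] (x m))) =
              (T (d m))^[n + v + k] (x m) := by
            rw [← Function.iterate_add_apply, ← Function.iterate_add_apply,
              show k + v + n = n + v + k by omega]
          rw [e1, e2, h.agree m _ (by omega), h.agree m _ (by omega),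
            (h.cut m).per i (n + v + k) (by rw [← hq]; omega) (by rw [← hq]; omega)]) hne
      have h7 := abs_iter_le hodd ((T (d m))^[n] (x m)) (v + q)
      have h8 := abs_iter_le hodd ((T (d m))^[n] (x m)) v
      have h9 : (2 : ℤ) ^ (v + q) * max |(T (d m))^[n] (x m)| |d m| ≤ 2 ^ (v + q) * 2 ^ s :=
        mul_le_mul_of_nonneg_left h4 (by positivity)
      have h10 : (2 : ℤ) ^ v * max |(T (d m))^[n] (x m)| |d m| ≤ 2 ^ v * 2 ^ s :=
        mul_le_mul_of_nonneg_left h4 (by positivity)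
      have h11 : (2 : ℤ) ^ (v + q) * 2 ^ s ≤ 2 ^ (2 * q + s) := by
        rw [← pow_add]
        exact pow_le_pow_right₀ (by norm_num) (by omega)
      have h12 : (2 : ℤ) ^ v * 2 ^ s ≤ 2 ^ (2 * q + s) := by
        rw [← pow_add]
        exact pow_le_pow_right₀ (by norm_num) (by omega)
      have h13 : (2 : ℤ) ^ (r - v - q) ≤ 2 ^ (2 * q + s + 1) := by
        rw [pow_succ]
        linarith
      have h14 := (pow_le_pow_iff_right₀ (by norm_num : (1 : ℤ) < 2)).1 h13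
      omega
  have h7 := abs_iter_le hodd ((T (d m))^[n] (x m)) r
  rw [hr, Function.iterate_add_apply]
  refine h7.trans ?_
  calc (2 : ℤ) ^ r * max |(T (d m))^[n] (x m)| |d m| ≤ 2 ^ r * 2 ^ s :=
        mul_le_mul_of_nonneg_left h4 (by positivity)
    _ = 2 ^ (r + s) := by rw [pow_add]
    _ ≤ _ := pow_le_pow_right₀ (by norm_num) (by omega)

/-- One piece. Let `S = L m / 8 + 1`, `y_n` the orbit point at `n`. Assume: `|d m| ≤ 2 ^ S`, `64 p ≤ L` for
the periods `p m i`, `p m (i + 1)`, `L m ≥ 64`, the pieces `i` and `i + 1` are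
good (`hi`, `hi1`), typed, and in the window. Then `2 ^ S ≤ |y_n|` for all `n` from `P m (2 i)` to
`P m (2 i + 2)`.
Proof. (a) `P m (2 i) ≤ n ≤ P m (2 i + 1)`: otherwise `small_next` with `s = S` gives
`|y| ≤ 2 ^ (4 p + 2 S + 1)` at `P m (2 i + 1)`, but `2 |y| ≥ 2 ^ L` there (`hi`, `long`), so
`L ≤ 4 p + 2 S + 2 ≤ L / 16 + L / 4 + 4`, contradiction.
(b) `P m (2 i + 1) ≤ n`, `n + S + 1 ≤ P m (2 i + 2)`: with `N = P m (2 i + 2) - P m (2 i + 1)` and
`t = n - P m (2 i + 1)` we have `|y| ≥ 2 ^ (N - 1) = 2 ^ t * 2 ^ (N - 1 - t)` at the beginning, so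
`|y_n| ≥ 2 ^ (N - 1 - t) ≥ 2 ^ S` by `le_abs_iter` (`|d| ≤ 2 ^ S ≤ 2 ^ (N - 1 - t)`).
(c) `P m (2 i + 1) ≤ n ≤ P m (2 i + 2) < n + S + 1`: if `|y_n| < 2 ^ S` then by `abs_iter_le`
`|y| ≤ 2 ^ (2 S)` at `P m (2 i + 2)`, and `small_next` for the piece `i + 1`, `n = P m (2 i + 2)`,
`s = 2 S`: `|y| ≤ 2 ^ (4 p + 4 S + 1)` at `P m (2 i + 3)`, but `2 |y| ≥ 2 ^ L` there (`hi1`), so
`L ≤ 4 p + 4 S + 2 ≤ L / 16 + L / 2 + 6`, contradiction. -/
theorem CutFam.large_piece (h : CutFam K d x L w P ty p) {m i : ℕ} (hL : 64 ≤ L m)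
    (hd : |d m| ≤ 2 ^ (L m / 8 + 1)) (hp : 64 * p m i ≤ L m) (hp1 : 64 * p m (i + 1) ≤ L m)
    (hi : 2 ^ (P m (2 * i + 2) - P m (2 * i + 1)) ≤ 2 * |(T (d m))^[P m (2 * i + 1)] (x m)|)
    (hi1 : 2 ^ (P m (2 * (i + 1) + 2) - P m (2 * (i + 1) + 1)) ≤
      2 * |(T (d m))^[P m (2 * (i + 1) + 1)] (x m)|)
    (ht : ty m i ≠ none) (ht1 : ty m (i + 1) ≠ none) (hw : P m (2 * (i + 1) + 2) ≤ m * L m) {n : ℕ}
    (h1 : P m (2 * i) ≤ n) (h2 : n ≤ P m (2 * i + 2)) :
    2 ^ (L m / 8 + 1) ≤ |(T (d m))^[n] (x m)| := by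
  set S := L m / 8 + 1 with hS
  have hodd := h.odd m
  have hmono := h.mono' m
  have hlong := (h.cut m).long i ht
  have hlong1 := (h.cut m).long (i + 1) ht1
  have hm1 : P m (2 * i + 2) ≤ P m (2 * (i + 1) + 1) := hmono (by omega)
  have hm2 : P m (2 * (i + 1) + 1) ≤ P m (2 * (i + 1) + 2) := hmono (by omega)
  have hm3 : P m (2 * i + 1) ≤ P m (2 * i + 2) := hmono (by omega)
  by_contra hcon
  rw [not_le] at hcon
  rcases le_or_gt n (P m (2 * i + 1)) with ha | ha
  · have h5 := h.small_next h1 ha (by omega) (_root_.max_le hcon.le hd)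
    have h6 : (2 : ℤ) ^ L m ≤ 2 ^ (4 * p m i + 2 * S + 1 + 1) := by
      calc (2 : ℤ) ^ L m ≤ 2 ^ (P m (2 * i + 2) - P m (2 * i + 1)) :=
            pow_le_pow_right₀ (by norm_num) (by omega)
        _ ≤ 2 * |(T (d m))^[P m (2 * i + 1)] (x m)| := hi
        _ ≤ 2 * 2 ^ (4 * p m i + 2 * S + 1) := by linarith
        _ = _ := by rw [pow_succ (2 : ℤ) (4 * p m i + 2 * S + 1)]; ring
    have h7 := (pow_le_pow_iff_right₀ (by norm_num : (1 : ℤ) < 2)).1 h6
    omega
  · rcases le_or_gt (n + S + 1) (P m (2 * i + 2)) with hb | hb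
    · obtain ⟨t, htt⟩ : ∃ t, n = t + P m (2 * i + 1) := ⟨n - P m (2 * i + 1), by omega⟩
      obtain ⟨N, hN⟩ : ∃ N, P m (2 * i + 2) - P m (2 * i + 1) = N + 1 :=
        ⟨P m (2 * i + 2) - P m (2 * i + 1) - 1, by omega⟩
      have hSA : (2 : ℤ) ^ S ≤ 2 ^ (N - t) := pow_le_pow_right₀ (by norm_num) (by omega)
      have h5 := le_abs_iter hodd ((T (d m))^[P m (2 * i + 1)] (x m)) t (A := 2 ^ (N - t))
        (hd.trans hSA) (by
          rw [← pow_add, show t + (N - t) = N by omega]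
          rw [hN, pow_succ] at hi
          linarith)
      rw [← Function.iterate_add_apply, ← htt] at h5
      exact absurd (hSA.trans h5) (not_le.2 hcon)
    · obtain ⟨t, htt⟩ : ∃ t, P m (2 * i + 2) = t + n := ⟨P m (2 * i + 2) - n, by omega⟩
      have h5 := abs_iter_le hodd ((T (d m))^[n] (x m)) t
      rw [← Function.iterate_add_apply, ← htt] at h5
      have h6 : |(T (d m))^[P m (2 * i + 2)] (x m)| ≤ 2 ^ (2 * S) := by
        refine h5.trans ?_
        calc (2 : ℤ) ^ t * max |(T (d m))^[n] (x m)| |d m| ≤ 2 ^ t * 2 ^ S :=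
              mul_le_mul_of_nonneg_left (_root_.max_le hcon.le hd) (by positivity)
          _ = 2 ^ (t + S) := (pow_add _ _ _).symm
          _ ≤ _ := pow_le_pow_right₀ (by norm_num) (by omega)
      have h7 : |d m| ≤ 2 ^ (2 * S) := hd.trans (pow_le_pow_right₀ (by norm_num) (by omega))
      have h8 := h.small_next (m := m) (i := i + 1) (n := P m (2 * i + 2)) (s := 2 * S) le_rfl hm1
        (by omega) (_root_.max_le h6 h7)
      have h9 : (2 : ℤ) ^ L m ≤ 2 ^ (4 * p m (i + 1) + 2 * (2 * S) + 1 + 1) := by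
        calc (2 : ℤ) ^ L m ≤ 2 ^ (P m (2 * (i + 1) + 2) - P m (2 * (i + 1) + 1)) :=
              pow_le_pow_right₀ (by norm_num) (by omega)
          _ ≤ 2 * |(T (d m))^[P m (2 * (i + 1) + 1)] (x m)| := hi1
          _ ≤ 2 * 2 ^ (4 * p m (i + 1) + 2 * (2 * S) + 1) := by linarith
          _ = _ := by rw [pow_succ (2 : ℤ) (4 * p m (i + 1) + 2 * (2 * S) + 1)]; ring
      have h10 := (pow_le_pow_iff_right₀ (by norm_num : (1 : ℤ) < 2)).1 h9
      omega

end Pool.Agent.Lib.MP_d0d59f_nt.Un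

end

section

namespace Pool.Agent.Lib.MP_d0d59f_nt.Un

open Filter Topology Auto Lin

variable {K : ℕ} {d x : ℕ → ℤ} {L : ℕ → ℕ} {w : ℕ → ℕ → Bool} {P : ℕ → ℕ → ℕ}
  {ty : ℕ → ℕ → Option (Fin K)} {p : ℕ → ℕ → ℕ}

/-- The constants of the types: for every `m` and `a` take some `i` with `ty m i = some a` (if there is
one) and put `g a m = wVal (d m) (w m) (P m (2 i + 1)) (P m (2 i + 2) - P m (2 i + 1))`, else `0`; by
`len_eq`, `word_eq`, `wVal_congr` it does not depend on `i`. Height: `ht_wVal_le`, `long_le`: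
`(|d| + 1) 3 ^ (K L) ≤ (3 * 3 ^ K) ^ L` for large `m` (`|d| + 1 ≤ 2 ^ (L + 1)`; `ht 0 = 1`). -/
theorem CutFam.exists_g (h : CutFam K d x L w P ty p) : ∃ g : Fin K → ℕ → ℚ,
    (∀ m a i, ty m i = some a →
      g a m = wVal (d m) (w m) (P m (2 * i + 1)) (P m (2 * i + 2) - P m (2 * i + 1))) ∧
    ∀ a, ∃ C : ℝ, ∀ᶠ m in atTop, (ht (g a m) : ℝ) ≤ C ^ L m := by
  classical
  refine ⟨fun a m => if hi : ∃ i, ty m i = some a then
      wVal (d m) (w m) (P m (2 * hi.choose + 1)) (P m (2 * hi.choose + 2) - P m (2 * hi.choose + 1))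
      else 0, ?_, ?_⟩
  · intro m a i hia
    have hex : ∃ i, ty m i = some a := ⟨i, hia⟩
    simp only [dif_pos hex]
    set j := hex.choose with hj
    have hja : ty m j = some a := hex.choose_spec
    have hc := h.cut m
    have hji : ty m j = ty m i := by rw [hja, hia]
    have hne : ty m j ≠ none := by rw [hja]; exact Option.some_ne_none a
    have h1 := hc.len_eq j i hji hne
    have h2 : P m (2 * j + 1) ≤ P m (2 * j + 2) := hc.mono (2 * j + 1)
    have h3 : P m (2 * i + 1) ≤ P m (2 * i + 2) := hc.mono (2 * i + 1)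
    have h4 : P m (2 * j + 2) - P m (2 * j + 1) = P m (2 * i + 2) - P m (2 * i + 1) := by omega
    rw [h4]
    apply wVal_congr
    intro t ht
    exact hc.word_eq j i hji hne t (by omega)
  · intro a
    refine ⟨4 * 3 ^ K, ?_⟩
    filter_upwards [h.d_pow_le 1, eventually_ge_atTop 1] with m hd hm
    have hL : 1 ≤ L m := le_trans hm (h.le m)
    have hdR : |(d m : ℝ)| ≤ 2 ^ L m := by
      rw [pow_one] at hd
      exact_mod_cast hd
    by_cases hi : ∃ i, ty m i = some a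
    · simp only [dif_pos hi]
      set j := hi.choose with hj
      have hc := h.cut m
      have h2 := hc.long_le j
      have h3 : P m (2 * j + 2) - P m (2 * j + 1) ≤ K * L m := by omega
      refine (ht_wVal_le _ _ _ _).trans ?_
      have h4 : (3 : ℝ) ^ (P m (2 * j + 2) - P m (2 * j + 1)) ≤ 3 ^ (K * L m) :=
        pow_le_pow_right₀ (by norm_num) h3
      have h5 : |(d m : ℝ)| + 1 ≤ 4 ^ L m := by
        have h6 : (1 : ℝ) ≤ 2 ^ L m := one_le_pow₀ (by norm_num)
        have h7 : (2 : ℝ) ≤ 2 ^ L m := by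
          calc (2 : ℝ) = 2 ^ 1 := by norm_num
            _ ≤ 2 ^ L m := pow_le_pow_right₀ (by norm_num) hL
        have h8 : (4 : ℝ) ^ L m = 2 ^ L m * 2 ^ L m := by
          rw [← mul_pow]; norm_num
        rw [h8]
        nlinarith
      calc (|(d m : ℝ)| + 1) * 3 ^ (P m (2 * j + 2) - P m (2 * j + 1))
          ≤ 4 ^ L m * 3 ^ (K * L m) := mul_le_mul h5 h4 (by positivity) (by positivity)
        _ = (4 * 3 ^ K) ^ L m := by rw [mul_pow, pow_mul]
    · simp only [dif_neg hi]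
      have h1 : (ht (0 : ℚ) : ℝ) = 1 := by
        norm_num [ht]
      rw [h1]
      exact one_le_pow₀ (by
        have : (1 : ℝ) ≤ 3 ^ K := one_le_pow₀ (by norm_num)
        linarith)

/-- The coefficients: for every `m`, `i` with `P m (2 i + 1) ≤ m L m` by `piece_form` for
`y` the orbit point at `P m (2 i)`, `N = P m (2 i + 1) - P m (2 i)` and the period `p m i`
(`per`, `agree`). -/
theorem CutFam.exists_coef (h : CutFam K d x L w P ty p) : ∃ α β : ℕ → ℕ → ℚ, ∀ i m,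
    P m (2 * i + 1) ≤ m * L m →
      (ht (α i m) : ℝ) ≤ (|(d m : ℝ)| + 1) ^ 8 * (10 ^ 5) ^ p m i ∧
      (ht (β i m) : ℝ) ≤ (|(d m : ℝ)| + 1) ^ 8 * (10 ^ 5) ^ p m i ∧
      (((T (d m))^[P m (2 * i)] (x m) : ℤ) : ℚ) = α i m + 2 ^ (P m (2 * i + 1) - P m (2 * i)) /
        3 ^ ones (d m) ((T (d m))^[P m (2 * i)] (x m)) (P m (2 * i + 1) - P m (2 * i)) *
          (β i m + ((T (d m))^[P m (2 * i + 1)] (x m) : ℤ)) := by
  have key : ∀ i m, ∃ α β : ℚ, P m (2 * i + 1) ≤ m * L m →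
      (ht α : ℝ) ≤ (|(d m : ℝ)| + 1) ^ 8 * (10 ^ 5) ^ p m i ∧
      (ht β : ℝ) ≤ (|(d m : ℝ)| + 1) ^ 8 * (10 ^ 5) ^ p m i ∧
      (((T (d m))^[P m (2 * i)] (x m) : ℤ) : ℚ) = α + 2 ^ (P m (2 * i + 1) - P m (2 * i)) /
        3 ^ ones (d m) ((T (d m))^[P m (2 * i)] (x m)) (P m (2 * i + 1) - P m (2 * i)) *
          (β + ((T (d m))^[P m (2 * i + 1)] (x m) : ℤ)) := by
    intro i m
    by_cases hle : P m (2 * i + 1) ≤ m * L m
    · have hc := h.cut m
      have h2 : P m (2 * i) ≤ P m (2 * i + 1) := hc.mono (2 * i)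
      obtain ⟨α, β, hα, hβ, he⟩ := piece_form (h.odd m) ((T (d m))^[P m (2 * i)] (x m))
        (P m (2 * i + 1) - P m (2 * i)) (p m i) (hc.per_pos i) (by
          intro t ht1 ht2
          rw [← Function.iterate_add_apply, ← Function.iterate_add_apply]
          have h3 := h.agree m (t + P m (2 * i)) (by omega)
          have h4 := h.agree m (t + p m i + P m (2 * i)) (by omega)
          rw [h3, h4]
          have h5 := hc.per i (P m (2 * i) + t) (by omega) (by omega)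
          have e1 : t + P m (2 * i) = P m (2 * i) + t := by omega
          have e2 : t + p m i + P m (2 * i) = P m (2 * i) + t + p m i := by omega
          rw [e1, e2, h5])
      refine ⟨α, β, fun _ => ⟨hα, hβ, ?_⟩⟩
      have h6 : P m (2 * i + 1) - P m (2 * i) + P m (2 * i) = P m (2 * i + 1) :=
        Nat.sub_add_cancel h2
      rw [← Function.iterate_add_apply, h6] at he
      exact he
    · exact ⟨0, 0, fun h' => absurd h' hle⟩
  choose α β hαβ using key
  exact ⟨α, β, hαβ⟩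

end Pool.Agent.Lib.MP_d0d59f_nt.Un

end

section

namespace Pool.Agent.Lib.MP_d0d59f_nt.Un

open Filter Topology Auto Lin

variable {K : ℕ} {d x : ℕ → ℤ} {L : ℕ → ℕ} {w : ℕ → ℕ → Bool} {P : ℕ → ℕ → ℕ}
  {ty : ℕ → ℕ → Option (Fin K)} {p : ℕ → ℕ → ℕ}

/-- one piece -/
theorem CutFam.UC7_piece (h : CutFam K d x L w P ty p) {k₀ : ℕ}
    (hk₀ : ∀ i, k₀ ≤ i → ∀ᶠ m in (hyperfilter ℕ : Filter ℕ),
      2 ^ (P m (2 * i + 2) - P m (2 * i + 1)) ≤ 2 * |(T (d m))^[P m (2 * i + 1)] (x m)|)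
    (k : ℕ) (hk : k₀ ≤ k) : ∀ᶠ m in (hyperfilter ℕ : Filter ℕ), ∀ n, P m (2 * k) ≤ n →
      n ≤ P m (2 * k + 2) → 2 ^ (L m / 8 + 1) ≤ |(T (d m))^[n] (x m)| := by
  have hle : (hyperfilter ℕ : Filter ℕ) ≤ atTop := Nat.hyperfilter_le_atTop
  obtain ⟨C, hC⟩ := h.P_le (2 * (k + 1) + 2)
  filter_upwards [hk₀ k hk, hk₀ (k + 1) (by omega), hle (h.typed k), hle (h.typed (k + 1)),
    hle hC, hle (h.d_pow_le 16), hle (eventually_ge_atTop 64), hle (eventually_ge_atTop C)]
    with m h1 h2 h3 h4 h5 h6 h7 h8 n hn1 hn2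
  have hL : 64 ≤ L m := le_trans h7 (h.le m)
  have hp : ∀ i, 64 * p m i ≤ L m := fun i =>
    le_trans (Nat.mul_le_mul_right _ h7) ((h.cut m).per_le i)
  have hd : |d m| ≤ 2 ^ (L m / 8 + 1) := by
    by_contra hcon
    push Not at hcon
    have h9 : ((2 : ℤ) ^ (L m / 8 + 1)) ^ 16 < |d m| ^ 16 :=
      pow_lt_pow_left₀ hcon (by positivity) (by norm_num)
    have h10 : (2 : ℤ) ^ L m ≤ ((2 : ℤ) ^ (L m / 8 + 1)) ^ 16 := by
      rw [← pow_mul]
      exact pow_le_pow_right₀ (by norm_num) (by omega)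
    linarith
  exact h.large_piece hL hd (hp k) (hp (k + 1)) h1 h2 h3 h4
    (le_trans h5 (Nat.mul_le_mul_right _ h8)) hn1 hn2

/-- `k₀` from `exists_start`. For almost all `m`: `large_piece` for `k₀, ..., k₀ + i` (every `n` lies in one
of these pieces; induction on `i`). `|d m| ≤ 2 ^ (L m / 8 + 1)` by `d_pow_le 16`
(`|d| ^ 16 ≤ 2 ^ L ≤ (2 ^ (L / 8 + 1)) ^ 16`), `64 p ≤ L` by `per_le` for `m ≥ 64`; the window: `P_le`.
`2 ^ (L / 8) ≤ 2 ^ (L m / 8 + 1)` (real and natural exponents). -/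
theorem CutFam.large (h : CutFam K d x L w P ty p) : ∃ k₀ : ℕ, ∀ i,
    ∀ᶠ m in (hyperfilter ℕ : Filter ℕ), ∀ n, P m (2 * k₀) ≤ n → n ≤ P m (2 * k₀ + i) →
      (2 : ℝ) ^ ((L m : ℝ) / 8) ≤ |((T (d m))^[n] (x m) : ℝ)| := by
  obtain ⟨k₀, hk₀⟩ := h.exists_start
  refine ⟨k₀, fun i => ?_⟩
  have key : ∀ i : ℕ, ∀ᶠ m in (hyperfilter ℕ : Filter ℕ), ∀ n, P m (2 * k₀) ≤ n →
      n ≤ P m (2 * k₀ + i) → 2 ^ (L m / 8 + 1) ≤ |(T (d m))^[n] (x m)| := by
    intro i
    induction i with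
    | zero =>
      filter_upwards [h.UC7_piece hk₀ k₀ le_rfl] with m hm n hn1 hn2
      exact hm n hn1 (le_trans hn2 (h.mono' m (by omega)))
    | succ i ih =>
      filter_upwards [ih, h.UC7_piece hk₀ (k₀ + i / 2) (by omega)] with m hm1 hm2 n hn1 hn2
      rcases le_or_gt n (P m (2 * k₀ + i)) with hc | hc
      · exact hm1 n hn1 hc
      · refine hm2 n (le_trans (h.mono' m ?_) hc.le) (le_trans hn2 (h.mono' m ?_))
        · omega
        · omega
  filter_upwards [key i] with m hm n hn1 hn2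
  have h1 := hm n hn1 hn2
  have h2 : ((2 : ℝ) ^ (L m / 8 + 1)) ≤ |((T (d m))^[n] (x m) : ℝ)| := by
    exact_mod_cast h1
  refine le_trans ?_ h2
  rw [← Real.rpow_natCast]
  apply Real.rpow_le_rpow_of_exponent_le (by norm_num)
  have h3 : L m < 8 * (L m / 8 + 1) := by omega
  have h4 : (L m : ℝ) < 8 * ((L m / 8 + 1 : ℕ) : ℝ) := by exact_mod_cast h3
  linarith

end Pool.Agent.Lib.MP_d0d59f_nt.Un

end

section

namespace Pool.Agent.Lib.MP_d0d59f_nt.Un

open Filter Topology Auto Lin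

variable {K : ℕ} {d x : ℕ → ℤ} {L : ℕ → ℕ} {w : ℕ → ℕ → Bool} {P : ℕ → ℕ → ℕ}
  {ty : ℕ → ℕ → Option (Fin K)} {p : ℕ → ℕ → ℕ}

theorem UC8_window (h : CutFam K d x L w P ty p) (t : ℕ) : ∀ᶠ m in atTop, P m t ≤ m * L m := by
  obtain ⟨C, hC⟩ := h.P_le t
  filter_upwards [hC, eventually_ge_atTop C] with m h1 h2
  exact h1.trans (Nat.mul_le_mul_right _ h2)

theorem UC8_hyper {q : ℕ → Prop} (h : ∀ᶠ m in atTop, q m) :
    ∀ᶠ m in (hyperfilter ℕ : Filter ℕ), q m :=
  h.filter_mono Nat.hyperfilter_le_atTop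

/-- `k₀` from `CutFam.large`. `K ≥ 1` since `ty m 0 ≠ none` for some `m`. Take
`P' t m = P m (t + 2 k₀)`, `α' i m = α (i + k₀) m`, `β'` likewise, `ty' i m` = the type of the piece
`i + k₀` (`Option.getD`). Everything holds for almost all `m`, see UC1, UC2; `atTop` statements hold for
the ultrafilter by `Nat.hyperfilter_le_atTop`. `val_eq`: `gval_eq_wVal` (`agree`, inside the
window) and `exists_g`. -/
theorem CutFam.exists_fam (h : CutFam K d x L w P ty p) :
    ∃ (g : Fin K → ℕ → ℚ) (P' : ℕ → ℕ → ℕ) (ty' : ℕ → ℕ → Fin K) (α β : ℕ → ℕ → ℚ),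
      Fam d x L g P' ty' α β := by
  obtain ⟨k₀, hk₀⟩ := h.large
  obtain ⟨g, hg1, hg2⟩ := h.exists_g
  obtain ⟨α, β, hαβ⟩ := h.exists_coef
  -- there is a type
  obtain ⟨m₀, hm₀⟩ := (h.typed 0).exists
  obtain ⟨a₀, -⟩ := Option.ne_none_iff_exists'.mp hm₀
  have e1 : ∀ i, 2 * i + 1 + 2 * k₀ = 2 * (i + k₀) + 1 := fun i => by ring
  have e2 : ∀ i, 2 * i + 2 + 2 * k₀ = 2 * (i + k₀) + 2 := fun i => by ring
  have e0 : ∀ i, 2 * i + 2 * k₀ = 2 * (i + k₀) := fun i => by ring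
  refine ⟨g, fun t m => P m (t + 2 * k₀), fun i m => (ty m (i + k₀)).getD a₀,
    fun i m => α (i + k₀) m, fun i m => β (i + k₀) m, ?_⟩
  refine ⟨h.tend, h.odd, ?_, ?_, ?_, ?_, ?_, ?_, ?_, ?_, ?_, ?_, ?_⟩
  · intro ε hε
    exact UC8_hyper (h.d_small ε hε)
  · obtain ⟨C, hC⟩ := h.start (0 + 2 * k₀)
    exact ⟨C, UC8_hyper hC⟩
  · intro a
    obtain ⟨C, hC⟩ := hg2 a
    exact ⟨C, UC8_hyper hC⟩
  · intro i
    obtain ⟨C, hC⟩ := h.P_le (i + 2 * k₀)
    refine ⟨(C : ℝ), UC8_hyper (hC.mono fun m hm => ?_)⟩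
    exact_mod_cast hm
  · intro i
    refine Eventually.of_forall fun m => ?_
    exact h.mono' m (by omega)
  · intro i
    refine UC8_hyper ((h.typed (i + k₀)).mono fun m hm => ?_)
    simp only [e1, e2]
    exact (h.cut m).long (i + k₀) hm
  · intro i ε hε
    refine UC8_hyper ?_
    filter_upwards [h.ht_small ε hε, UC8_window h (2 * (i + k₀) + 1)] with m h1 h2
    exact (hαβ (i + k₀) m h2).1.trans (h1 (i + k₀))
  · intro i ε hε
    refine UC8_hyper ?_
    filter_upwards [h.ht_small ε hε, UC8_window h (2 * (i + k₀) + 1)] with m h1 h2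
    exact (hαβ (i + k₀) m h2).2.1.trans (h1 (i + k₀))
  · intro i
    refine UC8_hyper ?_
    filter_upwards [UC8_window h (2 * (i + k₀) + 1)] with m h2
    simp only [e1, e0]
    exact (hαβ (i + k₀) m h2).2.2
  · intro i
    refine UC8_hyper ?_
    filter_upwards [h.typed (i + k₀), UC8_window h (2 * (i + k₀) + 2)] with m h1 h2
    simp only [e1, e2]
    obtain ⟨a, ha⟩ := Option.ne_none_iff_exists'.mp h1
    rw [ha, Option.getD_some, hg1 m a (i + k₀) ha]
    symm
    apply gval_eq_wVal (h.odd m)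
    intro t ht
    have hlt : P m (2 * (i + k₀) + 1) + t < m * L m := by omega
    have h3 := h.agree m (P m (2 * (i + k₀) + 1) + t) hlt
    rw [add_comm, Function.iterate_add_apply] at h3
    rw [h3, add_comm]
  · intro i
    filter_upwards [hk₀ i] with m hm
    intro n h1 h2
    apply hm n
    · rwa [zero_add] at h1
    · rwa [add_comm] at h2

end Pool.Agent.Lib.MP_d0d59f_nt.Un

end
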