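import Pool.Agent.Lib.MP_d0d59f_nt.Un.Series
import Pool.Agent.Lib.MP_d0d59f_nt.Sub.NoFamily

/-!
There are no families of orbits with the data of `Fam`.
-/

section

namespace Pool.Agent.Lib.MP_d0d59f_nt.Un

open Filter Topology Auto Lin Sb

attribute [local instance] sqAlg

variable {K : ℕ} {d x : ℕ → ℤ} {L : ℕ → ℕ} {g : Fin K → ℕ → ℚ} {P : ℕ → ℕ → ℕ}
  {ty : ℕ → ℕ → Fin K} {α β : ℕ → ℕ → ℚ}

theorem UB4_ht_cf (h : Fam d x L g P ty α β) (t : ℕ) (a : Fin (K + 1)) (ε : ℝ) (hε : 0 < ε) :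
    ∀ᶠ m in (hyperfilter ℕ : Filter ℕ), (ht (cf ty α β t a m) : ℝ) ≤ (1 + ε) ^ L m := by
  have h1 : ∀ m, (1 : ℝ) ≤ (1 + ε) ^ L m := fun m => one_le_pow₀ (by linarith)
  unfold cf
  split_ifs with ht2
  · refine Fin.lastCases ?_ (fun b => ?_) a
    · simp only [Fin.snoc_last]
      exact h.ht_α _ ε hε
    · simp only [Fin.snoc_castSucc]
      refine Eventually.of_forall fun m => ?_
      rw [coreA_ht_zero]; simpa using h1 m
  · refine Fin.lastCases ?_ (fun b => ?_) a
    · simp only [Fin.snoc_last]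
      exact h.ht_β _ ε hε
    · simp only [Fin.snoc_castSucc]
      refine Eventually.of_forall fun m => ?_
      split_ifs
      · rw [coreA_ht_one]; simpa using h1 m
      · rw [coreA_ht_zero]; simpa using h1 m

theorem UB4_ht_gOne (h : Fam d x L g P ty α β) (a : Fin (K + 1)) :
    ∃ C : ℝ, ∀ᶠ m in (hyperfilter ℕ : Filter ℕ), (ht (gOne g a m) : ℝ) ≤ C ^ L m := by
  unfold gOne
  refine Fin.lastCases ?_ (fun b => ?_) a
  · refine ⟨1, Eventually.of_forall fun m => ?_⟩
    simp only [Fin.snoc_last]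
    rw [coreA_ht_one]; simp
  · simp only [Fin.snoc_castSucc]
    exact h.ht_g b

theorem UB4_ht_start (h : Fam d x L g P ty α β) :
    ∃ C : ℝ, ∀ᶠ m in (hyperfilter ℕ : Filter ℕ),
      (ht (((T (d m))^[P 0 m] (x m) : ℤ) : ℚ) : ℝ) ≤ C ^ L m := by
  obtain ⟨C, hC⟩ := h.start
  refine ⟨max |C| 1, ?_⟩
  filter_upwards [hC] with m hm
  have h9 : (ht (((T (d m))^[P 0 m] (x m) : ℤ) : ℚ) : ℝ) ≤
      max |((T (d m))^[P 0 m] (x m) : ℝ)| 1 := by
    unfold ht
    rw [Rat.num_intCast, Rat.den_intCast, Nat.cast_max, Nat.cast_natAbs, Int.cast_abs]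
    simp
  have h1 : (1 : ℝ) ≤ (max |C| 1) ^ L m := one_le_pow₀ (le_max_right _ _)
  have h2 : C ^ L m ≤ (max |C| 1) ^ L m := by
    refine (le_abs_self _).trans ?_
    rw [abs_pow]
    exact pow_le_pow_left₀ (abs_nonneg _) (le_max_left _ _) _
  exact h9.trans (max_le (hm.trans h2) h1)

/-- Copy the proof of `Data2.false` in `Sub/NoFamily.lean` with the following changes: `Data2.exists_lim`,
`exists_ones`, `err_eq2`, `term_le` are replaced by `Fam.exists_lim`, `Fam.exists_ones`, `Fam.sum_eq`,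
`Fam.term_le`; `expA, expB2, coef` by `exA, exB, cf`; the index `(t + 1) / 2` by `t` (here `γ t =
(q t - q 0, b t)`) and the number of terms is `2 i` with the remainder at `P (2 i)`. Heights of `cf`: `0`, `1`,
`α`, `β`. The height of `x'` (the orbit point at `P 0`): it is an integer of absolute value at most
`C ^ L` (`h.start`). Nonzero: `h.large 0`. `Θ = w 0 x' * exp (- log 2 / 16)`. -/
theorem Fam.false (h : Fam d x L g P ty α β) : False := by
  have hL := h.tend
  obtain ⟨q, hq, hqt⟩ := h.exists_lim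
  obtain ⟨b, hb⟩ := h.exists_ones
  have hL1 := ah_L L hL 1
  have hA : ∀ t, Tendsto (fun m => (((exA P t m : ℕ) : ℤ) : ℝ) / L m) (hyperfilter ℕ)
      (𝓝 (q t - q 0)) := by
    intro t
    refine ((hq t).sub (hq 0)).congr' ?_
    filter_upwards [h.zero_le t] with m hm
    rw [exA, Int.cast_natCast, Nat.cast_sub hm, sub_div]
  have hB : ∀ t, Tendsto (fun m => (((exB d x P t m : ℕ) : ℤ) : ℝ) / L m) (hyperfilter ℕ)
      (𝓝 (b t)) := by
    intro t
    refine (hb t).congr fun m => ?_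
    rw [exB, Int.cast_natCast]
  choose e he0 he using fun t => germM_eq (hL := hL) (fun m => ((exA P t m : ℕ) : ℤ))
    (fun m => ((exB d x P t m : ℕ) : ℤ)) (hA t) (hB t)
  -- the elements
  have hgm : ∀ a : Fin (K + 1), ((gOne g a : ℕ → ℚ) : QU) ∈ bigField L hL := fun a =>
    ⟨_, rfl, UB4_ht_gOne h a⟩
  have hxm : (((fun m => (((T (d m))^[P 0 m] (x m) : ℤ) : ℚ)) : ℕ → ℚ) : QU) ∈ bigField L hL :=
    ⟨_, rfl, UB4_ht_start h⟩
  have hcm : ∀ t (a : Fin (K + 1)), ((cf ty α β t a : ℕ → ℚ) : QU) ∈ smallField L hL :=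
    fun t a => ⟨_, rfl, fun ε hε => UB4_ht_cf h t a ε hε⟩
  set g' : Fin (K + 1) → bigField L hL := fun a => ⟨_, hgm a⟩ with hg'
  set x' : bigField L hL := ⟨_, hxm⟩ with hx'
  set ce : ℕ → Fin (K + 1) → smallField L hL := fun t a => ⟨_, hcm t a⟩ with hce
  have rg : ∀ a, Rep (gOne g a) (g' a) := fun a => rfl
  have rx : Rep (fun m => (((T (d m))^[P 0 m] (x m) : ℤ) : ℚ)) x' := rfl
  have rc : ∀ t a, Rep (cf ty α β t a)
      (algebraMap (smallField L hL) (bigField L hL) (ce t a)) := fun t a => rfl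
  set γ : ℕ → ℝ × ℝ := fun t => (q t - q 0, b t) with hγ
  set c' : ℕ → Fin (K + 1) → smallField L hL := fun t a => ce t a * e t with hc'
  have rt : ∀ t, Rep (fun m => (∑ a, gOne g a m * cf ty α β t a m) *
      (2 ^ exA P t m / 3 ^ exB d x P t m))
      ((∑ a, c' t a • g' a) * germM L hL (γ t)) := by
    intro t
    have e1 : (∑ a, c' t a • g' a) * germM L hL (γ t) =
        (∑ a, g' a * algebraMap (smallField L hL) (bigField L hL) (ce t a)) *
          (e t • germM L hL (γ t)) := by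
      have e2 : (∑ a, c' t a • g' a) =
          (∑ a, g' a * algebraMap (smallField L hL) (bigField L hL) (ce t a)) *
            algebraMap (smallField L hL) (bigField L hL) (e t) := by
        rw [Finset.sum_mul]
        refine Finset.sum_congr rfl fun a _ => ?_
        rw [hc', Algebra.smul_def, map_mul]
        ring
      rw [e2, Algebra.smul_def, mul_assoc]
    rw [e1]
    refine Rep.mul (Rep.sum _ fun a _ => Rep.mul (rg a) (rc t a)) ?_
    refine coreA_rep_congr (f := fun m => mon ((exA P t m : ℕ) : ℤ) ((exB d x P t m : ℕ) : ℤ))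
      (he t) fun m => ?_
    rw [mon, zpow_natCast, zpow_natCast]
  -- `x'` is not zero
  have hx0 : x' ≠ 0 := by
    intro h0
    have h2 := Rep.eventually_zero (L := L) (hL := hL) (h0 ▸ rx)
    obtain ⟨m, hm1, hm2⟩ := (h2.and (h.large 0)).exists
    have h3 := hm2 (P 0 m) le_rfl le_rfl
    have h4 : (((T (d m))^[P 0 m] (x m) : ℤ) : ℝ) = 0 := by exact_mod_cast hm1
    rw [h4, abs_zero] at h3
    have h5 : (0 : ℝ) < 2 ^ ((L m : ℝ) / 8) := by positivity
    linarith
  have hwx : 0 < wv L hL 0 x' := (wv L hL 0).pos hx0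
  have hl2 : 0 < Real.log 2 := Real.log_pos (by norm_num)
  have key := transfer (setting_germ (L := L) (hL := hL)) mono2_germ nss_germ g' x' c' γ
    (Θ := wv L hL 0 x' * Real.exp (-(Real.log 2 / 16))) ?_ (by positivity) ?_
  · have h6 : Real.exp (-(Real.log 2 / 16)) < 1 := by
      rw [Real.exp_lt_one_iff]
      linarith
    nlinarith
  · -- convergence at the place `1`
    intro ε hε
    have h0 : Tendsto (fun i : ℕ => q (2 * i)) atTop atTop :=
      hqt.comp (Filter.tendsto_atTop_mono (fun i => by omega : ∀ i : ℕ, i ≤ 2 * i) tendsto_id)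
    have h1 : Tendsto (fun i => Real.exp (-((q (2 * i) - q 0) * Real.log 2))) atTop (𝓝 0) := by
      refine Real.tendsto_exp_neg_atTop_nhds_zero.comp ?_
      exact (tendsto_atTop_add_const_right _ (-(q 0)) h0).atTop_mul_const hl2
    obtain ⟨i, hi⟩ := (h1.eventually (gt_mem_nhds hε)).exists
    refine ⟨2 * i, lt_of_le_of_lt ?_ hi⟩
    have r1 := coreA_rep_sub rx (Rep.sum (Finset.range (2 * i)) fun t _ => rt t)
    refine Rep.wv_le r1 1
      (r := fun m => -(((P (2 * i) m : ℝ) / L m - (P 0 m : ℝ) / L m) * Real.log 2))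
      (((hq (2 * i)).sub (hq 0)).mul_const _).neg ?_
    filter_upwards [h.sum_eq i, h.zero_le (2 * i), hL1] with m e1 e2 e3
    have hLm : (0 : ℝ) < L m := by exact_mod_cast e3
    have e4 : (((T (d m))^[P 0 m] (x m) : ℤ) : ℚ) -
        ∑ t ∈ Finset.range (2 * i), (∑ a, gOne g a m * cf ty α β t a m) *
          (2 ^ exA P t m / 3 ^ exB d x P t m) =
        2 ^ (P (2 * i) m - P 0 m) /
          3 ^ ones (d m) ((T (d m))^[P 0 m] (x m)) (P (2 * i) m - P 0 m) *
          ((T (d m))^[P (2 * i) m] (x m) : ℤ) := e1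
    rw [e4]
    refine (coreA_absv _ _ _).trans (le_of_eq ?_)
    congr 1
    rw [Nat.cast_sub e2]
    field_simp
  · -- the terms are small at infinity
    intro t
    have r1 := Rep.mul (rt t) (coreA_rep_inv rx)
    have h2 := Rep.wv_le r1 0 (r := fun _ => -(Real.log 2 / 16)) tendsto_const_nhds ?_
    · rw [map_mul, map_inv₀, ← div_eq_mul_inv, div_le_iff₀ hwx] at h2
      rw [mul_comm (wv L hL 0 x')]
      exact h2
    · have hy0 := Rep.eventually_ne rx hx0
      filter_upwards [h.term_le t, hy0] with m e1 e2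
      have e2' : (((T (d m))^[P 0 m] (x m) : ℤ) : ℝ) ≠ 0 := by exact_mod_cast e2
      have e3 : (0 : ℝ) < |(((T (d m))^[P 0 m] (x m) : ℤ) : ℝ)| := abs_pos.mpr e2'
      rw [absv_zero_eq, Rat.cast_mul, abs_mul, Rat.cast_inv, Rat.cast_intCast, abs_inv,
        ← div_eq_mul_inv, div_le_iff₀ e3]
      refine e1.trans (le_of_eq ?_)
      rw [mul_comm]

end Pool.Agent.Lib.MP_d0d59f_nt.Un

end
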