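import Pool.Agent.Lib.MP_d0d59f_nt.Un.CutFamilies
import Pool.Agent.Lib.MP_d0d59f_nt.Un.NoFamilies

/-!
The theorem on orbits with cuttings.
-/

section

namespace Pool.Agent.Lib.MP_d0d59f_nt.Un

open Filter Topology Auto Lin

/-- The main theorem: an orbit which follows, for `E L` steps, a word with a cutting at the scale `L` of
the quality `E` has a coincidence in this window. `E` depends only on `K`. Proof: otherwise for every
`E = m` there is a counterexample; these form a `CutFam`; `exists_fam`, `Fam.false`. -/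
theorem gt_main (K : ℕ) : ∃ E : ℕ, ∀ d : ℤ, Odd d → ∀ L : ℕ, E ≤ L → |d| ^ E ≤ 2 ^ L →
    ∀ x : ℤ, |x| ≤ 2 ^ (K * L) → ∀ (w : ℕ → Bool) (P : ℕ → ℕ) (ty : ℕ → Option (Fin K))
      (p : ℕ → ℕ), Cutting w K E L P ty p →
      (∀ t < E * L, ((T d)^[t] x % 2 = 1 ↔ w t = true)) →
      ∃ m q : ℕ, 0 < q ∧ m + q ≤ E * L ∧ (T d)^[m + q] x = (T d)^[m] x := by
  by_contra hcon
  push Not at hcon
  choose d hd L hL hdL x hx w P ty p hcut hag hno using hcon
  have hf : CutFam K d x L w P ty p :=
    { le := hL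
      odd := hd
      dpow := hdL
      size := hx
      cut := hcut
      agree := fun m t ht => hag m t ht
      noPer := fun m n q hq hn => hno m n q hq hn }
  obtain ⟨g, P', ty', α, β, hfam⟩ := hf.exists_fam
  exact hfam.false

end Pool.Agent.Lib.MP_d0d59f_nt.Un

end
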