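import Pool.Agent.Lib.MP_d0d59f_nt.Sub.Words

/-!
Cuttings of words into pieces with short periods and long pieces of finitely many types;
families; factors; substitutions.
-/

section

namespace Pool.Agent.Lib.MP_d0d59f_nt.Un

open Filter Topology Auto Lin

/-- A cutting of the word `w` at the scale `L`. The piece from `P (2 i)` to `P (2 i + 1)` has, after its
first `p i` letters, the period `p i` (so it is arbitrary if it is short), `E * p i ≤ L`. The piece from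
`P (2 i + 1)` to `P (2 i + 2)` has length between `L` and `K L` and one of `K` types if `ty i ≠ none`;
if `ty i = none` the word is periodic from `P (2 i + 2)` on, with period at most `K L`. -/
structure Cutting (w : ℕ → Bool) (K E L : ℕ) (P : ℕ → ℕ) (ty : ℕ → Option (Fin K)) (p : ℕ → ℕ) :
    Prop where
  zero_le : P 0 ≤ K * L
  mono : ∀ i, P i ≤ P (i + 1)
  per_pos : ∀ i, 0 < p i
  per_le : ∀ i, E * p i ≤ L
  per : ∀ i t, P (2 * i) + p i ≤ t → t + p i < P (2 * i + 1) → w t = w (t + p i)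
  long_le : ∀ i, P (2 * i + 2) ≤ P (2 * i + 1) + K * L
  long : ∀ i, ty i ≠ none → P (2 * i + 1) + L ≤ P (2 * i + 2)
  stop : ∀ i, ty i = none → ∃ q, 0 < q ∧ q ≤ K * L ∧ ∀ t, P (2 * i + 2) ≤ t → w t = w (t + q)
  len_eq : ∀ i j, ty i = ty j → ty i ≠ none →
    P (2 * i + 2) + P (2 * j + 1) = P (2 * j + 2) + P (2 * i + 1)
  word_eq : ∀ i j, ty i = ty j → ty i ≠ none → ∀ t, P (2 * i + 1) + t < P (2 * i + 2) →
    w (P (2 * i + 1) + t) = w (P (2 * j + 1) + t)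

/-- A family of orbits with cuttings and without coincidences. The orbit `m` is known to follow the word
`w m` for the first `m * L m` steps. -/
structure CutFam (K : ℕ) (d x : ℕ → ℤ) (L : ℕ → ℕ) (w : ℕ → ℕ → Bool) (P : ℕ → ℕ → ℕ)
    (ty : ℕ → ℕ → Option (Fin K)) (p : ℕ → ℕ → ℕ) : Prop where
  le : ∀ m, m ≤ L m
  odd : ∀ m, Odd (d m)
  dpow : ∀ m, |d m| ^ m ≤ 2 ^ L m
  size : ∀ m, |x m| ≤ 2 ^ (K * L m)
  cut : ∀ m, Cutting (w m) K m (L m) (P m) (ty m) (p m)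
  agree : ∀ m t, t < m * L m → ((T (d m))^[t] (x m) % 2 = 1 ↔ w m t = true)
  noPer : ∀ m n q, 0 < q → n + q ≤ m * L m → (T (d m))^[n + q] (x m) ≠ (T (d m))^[n] (x m)

/-- The data which the analytic part needs. `d`, `x`, `L`: the orbits and the scales. The orbit point at
`P (2 i) m` is `α i m + 2 ^ N / 3 ^ h * (β i m + ` the orbit point at `P (2 i + 1) m)`; the block from
`P (2 i + 1) m` to `P (2 i + 2) m` has the constant `g (ty i m) m`. -/
structure Fam {K : ℕ} (d x : ℕ → ℤ) (L : ℕ → ℕ) (g : Fin K → ℕ → ℚ) (P : ℕ → ℕ → ℕ)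
    (ty : ℕ → ℕ → Fin K) (α β : ℕ → ℕ → ℚ) : Prop where
  tend : Tendsto L atTop atTop
  odd : ∀ m, Odd (d m)
  d_small : ∀ ε : ℝ, 0 < ε → ∀ᶠ m in (hyperfilter ℕ : Filter ℕ), |(d m : ℝ)| ≤ (1 + ε) ^ L m
  start : ∃ C : ℝ, ∀ᶠ m in (hyperfilter ℕ : Filter ℕ),
    |((T (d m))^[P 0 m] (x m) : ℝ)| ≤ C ^ L m
  ht_g : ∀ a, ∃ C : ℝ, ∀ᶠ m in (hyperfilter ℕ : Filter ℕ), (ht (g a m) : ℝ) ≤ C ^ L m
  P_le : ∀ i, ∃ C : ℝ, ∀ᶠ m in (hyperfilter ℕ : Filter ℕ), (P i m : ℝ) ≤ C * L m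
  P_mono : ∀ i, ∀ᶠ m in (hyperfilter ℕ : Filter ℕ), P i m ≤ P (i + 1) m
  P_gap : ∀ i, ∀ᶠ m in (hyperfilter ℕ : Filter ℕ), P (2 * i + 1) m + L m ≤ P (2 * i + 2) m
  ht_α : ∀ i, ∀ ε : ℝ, 0 < ε → ∀ᶠ m in (hyperfilter ℕ : Filter ℕ),
    (ht (α i m) : ℝ) ≤ (1 + ε) ^ L m
  ht_β : ∀ i, ∀ ε : ℝ, 0 < ε → ∀ᶠ m in (hyperfilter ℕ : Filter ℕ),
    (ht (β i m) : ℝ) ≤ (1 + ε) ^ L m
  rec_eq : ∀ i, ∀ᶠ m in (hyperfilter ℕ : Filter ℕ), (((T (d m))^[P (2 * i) m] (x m) : ℤ) : ℚ) =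
    α i m + 2 ^ (P (2 * i + 1) m - P (2 * i) m) /
      3 ^ ones (d m) ((T (d m))^[P (2 * i) m] (x m)) (P (2 * i + 1) m - P (2 * i) m) *
        (β i m + ((T (d m))^[P (2 * i + 1) m] (x m) : ℤ))
  val_eq : ∀ i, ∀ᶠ m in (hyperfilter ℕ : Filter ℕ), g (ty i m) m =
    gval (d m) ((T (d m))^[P (2 * i + 1) m] (x m)) (P (2 * i + 2) m - P (2 * i + 1) m)
  large : ∀ i, ∀ᶠ m in (hyperfilter ℕ : Filter ℕ), ∀ n : ℕ, P 0 m ≤ n → n ≤ P i m →
    (2 : ℝ) ^ ((L m : ℝ) / 8) ≤ |((T (d m))^[n] (x m) : ℝ)|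

end Pool.Agent.Lib.MP_d0d59f_nt.Un

end

section

namespace Pool.Agent.Lib.MP_d0d59f_nt.Un

/-- the factor of length `n` of the word `w` at position `i` -/
def fac (w : ℕ → Bool) (n i : ℕ) : Fin n → Bool := fun k => w (i + k)

/-- the number of factors of length `n` -/
noncomputable def cpx (w : ℕ → Bool) (n : ℕ) : ℕ := (Set.range (fac w n)).ncard

/-- the factor of length `n` at position `i` has two different continuations -/
def Br (w : ℕ → Bool) (n i : ℕ) : Prop :=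
  ∃ j, fac w n j = fac w n i ∧ fac w (n + 1) j ≠ fac w (n + 1) i

/-- the set of the branching factors of length `n` -/
def brSet (w : ℕ → Bool) (n : ℕ) : Set (Fin n → Bool) := fac w n '' {i | Br w n i}

/-- `e` is the next branch position after `v` -/
def NextBr (w : ℕ → Bool) (n v e : ℕ) : Prop := v < e ∧ Br w n e ∧ ∀ t, v < t → t < e → ¬ Br w n t

end Pool.Agent.Lib.MP_d0d59f_nt.Un

end

section

namespace Pool.Agent.Lib.MP_d0d59f_nt.Un

/-- the image of the word `v` under the `n`-th power of the substitution `σ` -/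
def img {k : ℕ} (σ : Fin k → List (Fin k)) (n : ℕ) (v : List (Fin k)) : List (Fin k) :=
  (fun u : List (Fin k) => u.flatMap σ)^[n] v

/-- the length of `σ^n(b)` -/
def len {k : ℕ} (σ : Fin k → List (Fin k)) (n : ℕ) (b : Fin k) : ℕ := (img σ n [b]).length

/-- the position of the image of the letter number `i` in the `n`-th image of the word `y` -/
def pos {k : ℕ} (σ : Fin k → List (Fin k)) (y : ℕ → Fin k) (n i : ℕ) : ℕ :=
  ∑ s ∈ Finset.range i, len σ n (y s)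

/-- `y` is the infinite word which begins with all the words `σ^n(a)`; their lengths are unbounded -/
structure Limit {k : ℕ} (σ : Fin k → List (Fin k)) (a : Fin k) (y : ℕ → Fin k) : Prop where
  fix : ∃ u, σ a = a :: u
  eq : ∀ n t, (h : t < (img σ n [a]).length) → (img σ n [a])[t] = y t
  unb : ∀ N, ∃ n, N < len σ n a

end Pool.Agent.Lib.MP_d0d59f_nt.Un

end
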