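import Pool.Agent.Lib.MP_d0d59f_nt.Un.Definitions

/-!
Words of linear complexity have cuttings.
-/

section

namespace Pool.Agent.Lib.MP_d0d59f_nt.Un

/-- `linGapA_shift`/`lingapb_tail` -/
theorem fac_tail {w : ℕ → Bool} {n u v : ℕ} (h : fac w (n + 1) u = fac w (n + 1) v) :
    fac w n (u + 1) = fac w n (v + 1) := by
  funext k
  have h1 := congrFun h k.succ
  simp only [fac, Fin.val_succ] at h1 ⊢
  have e1 : u + 1 + (k : ℕ) = u + ((k : ℕ) + 1) := by omega
  have e2 : v + 1 + (k : ℕ) = v + ((k : ℕ) + 1) := by omega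
  rw [e1, e2]
  exact h1

/-- the first letters agree (`linGapA_first`) -/
theorem fac_head {w : ℕ → Bool} {n u v : ℕ} (h : fac w (n + 1) u = fac w (n + 1) v) :
    w u = w v := by
  have h1 := congrFun h 0
  simpa [fac] using h1

/-- shorter factors -/
theorem fac_init {w : ℕ → Bool} {n u v : ℕ} (h : fac w (n + 1) u = fac w (n + 1) v) :
    fac w n u = fac w n v := by
  funext k
  have h1 := congrFun h k.castSucc
  simpa [fac] using h1

/-- `branch_congr` -/
theorem br_congr {w : ℕ → Bool} {n i i' : ℕ} (h : fac w n i = fac w n i') (hb : Br w n i) :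
    Br w n i' := by
  obtain ⟨j, hj, hne⟩ := hb
  by_cases h' : fac w (n + 1) j = fac w (n + 1) i'
  · exact ⟨i, h, fun h2 => hne (h'.trans h2.symm)⟩
  · exact ⟨j, hj.trans h, h'⟩

/-- `linGapA_succ`: a factor which does not branch determines the next one. -/
theorem not_br_succ {w : ℕ → Bool} {n r j : ℕ} (hr : ¬ Br w n r) (h : fac w n j = fac w n r) :
    fac w (n + 1) j = fac w (n + 1) r := by
  by_contra hne
  exact hr ⟨j, h, hne⟩

theorem UD1_restrict (w : ℕ → Bool) (n i : ℕ) :
    (fun k : Fin n => fac w (n + 1) i k.castSucc) = fac w n i := by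
  funext k
  simp [fac]

/-- `card_branch` -/
theorem card_br (w : ℕ → Bool) (n : ℕ) : (brSet w n).ncard + cpx w n ≤ cpx w (n + 1) := by
  classical
  set r : (Fin (n + 1) → Bool) → (Fin n → Bool) := fun f k => f k.castSucc with hr
  have hrf : ∀ i, r (fac w (n + 1) i) = fac w n i := fun i => UD1_restrict w n i
  have hs : ∀ u : Fin n → Bool, ∃ i, u ∈ Set.range (fac w n) → fac w n i = u := by
    intro u
    by_cases hu : u ∈ Set.range (fac w n)
    · obtain ⟨i, hi⟩ := hu
      exact ⟨i, fun _ => hi⟩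
    · exact ⟨0, fun h => absurd h hu⟩
  choose a ha using hs
  have ht : ∀ u : Fin n → Bool, ∃ j, u ∈ brSet w n →
      fac w n j = u ∧ fac w (n + 1) j ≠ fac w (n + 1) (a u) := by
    intro u
    by_cases hu : u ∈ brSet w n
    · obtain ⟨i, hi, rfl⟩ := hu
      have h1 : fac w n (a (fac w n i)) = fac w n i := ha _ ⟨i, rfl⟩
      obtain ⟨j, hj, hne⟩ := br_congr h1.symm hi
      exact ⟨j, fun _ => ⟨hj.trans h1, hne⟩⟩
    · exact ⟨0, fun h => absurd h hu⟩
  choose b hb using ht
  have h1 : ((fun u => fac w (n + 1) (a u)) '' Set.range (fac w n)).ncard =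
      (Set.range (fac w n)).ncard := by
    apply Set.ncard_image_of_injOn
    intro u hu v hv h
    have h' := congrArg r h
    simp only [hrf] at h'
    rwa [ha u hu, ha v hv] at h'
  have h2 : ((fun u => fac w (n + 1) (b u)) '' brSet w n).ncard = (brSet w n).ncard := by
    apply Set.ncard_image_of_injOn
    intro u hu v hv h
    have h' := congrArg r h
    simp only [hrf] at h'
    rwa [(hb u hu).1, (hb v hv).1] at h'
  have h3 : Disjoint ((fun u => fac w (n + 1) (b u)) '' brSet w n)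
      ((fun u => fac w (n + 1) (a u)) '' Set.range (fac w n)) := by
    rw [Set.disjoint_left]
    rintro _ ⟨u, hu, rfl⟩ ⟨v, hv, h⟩
    have h' := congrArg r h
    simp only [hrf] at h'
    rw [ha v hv, (hb u hu).1] at h'
    subst h'
    exact (hb _ hu).2 h.symm
  have h4 : ((fun u => fac w (n + 1) (b u)) '' brSet w n) ∪
      ((fun u => fac w (n + 1) (a u)) '' Set.range (fac w n)) ⊆
      Set.range (fac w (n + 1)) := by
    rintro _ (⟨u, -, rfl⟩ | ⟨u, -, rfl⟩)
    · exact ⟨_, rfl⟩
    · exact ⟨_, rfl⟩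
  have h5 := Set.ncard_le_ncard h4 (Set.toFinite _)
  rw [Set.ncard_union_eq h3 (Set.toFinite _) (Set.toFinite _), h1, h2] at h5
  exact h5

/-- telescoping the inequality `card_br` -/
theorem UD1_sum (w : ℕ → Bool) (m : ℕ) : ∀ N, m ≤ N →
    (∑ n ∈ Finset.Ico m N, (brSet w n).ncard) + cpx w m ≤ cpx w N := by
  intro N hN
  induction N, hN using Nat.le_induction with
  | base => simp
  | succ N hN ih =>
    rw [Finset.sum_Ico_succ_top hN]
    have := card_br w N
    omega

/-- `branchB_mono` -/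
theorem cpx_mono (w : ℕ → Bool) {m N : ℕ} (h : m ≤ N) : cpx w m ≤ cpx w N := by
  have := UD1_sum w m N h
  omega

/-- `exists_types` (two letters: at most `2 R` factors of length `n + 1` extend branching factors) -/
theorem exists_types' {w : ℕ → Bool} {n R : ℕ} (hR : (brSet w n).ncard ≤ R) :
    ∃ τ : ℕ → Fin (2 * R + 1), ∀ i i', Br w n i → Br w n i' → τ i = τ i' →
      fac w (n + 1) i = fac w (n + 1) i' := by
  classical
  set S : Set (Fin (n + 1) → Bool) := fac w (n + 1) '' {i | Br w n i} with hS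
  have hcard : S.ncard ≤ 2 * R := by
    set φ : (Fin (n + 1) → Bool) → (Fin n → Bool) × Bool :=
      fun f => (fun k => f k.castSucc, f (Fin.last n)) with hφ
    have hinj : Set.InjOn φ S := by
      intro f _ g _ h
      rw [hφ] at h
      simp only [Prod.mk.injEq] at h
      funext k
      refine Fin.lastCases h.2 (fun k => ?_) k
      exact congrFun h.1 k
    have himg : φ '' S ⊆ (brSet w n) ×ˢ (Set.univ : Set Bool) := by
      rintro _ ⟨_, ⟨i, hi, rfl⟩, rfl⟩
      exact ⟨⟨i, hi, (UD1_restrict w n i).symm⟩, Set.mem_univ _⟩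
    have h1 : S.ncard = (φ '' S).ncard := (Set.ncard_image_of_injOn hinj).symm
    have h2 : (φ '' S).ncard ≤ ((brSet w n) ×ˢ (Set.univ : Set Bool)).ncard :=
      Set.ncard_le_ncard himg (Set.toFinite _)
    rw [Set.ncard_prod] at h2
    have h3 : (Set.univ : Set Bool).ncard = 2 := by
      rw [Set.ncard_univ, Nat.card_eq_fintype_card, Fintype.card_bool]
    rw [h3] at h2
    omega
  have hSfin : S.Finite := Set.toFinite _
  have : Fintype S := hSfin.fintype
  have hc : Fintype.card S ≤ Fintype.card (Fin (2 * R + 1)) := by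
    rw [Fintype.card_fin, ← Nat.card_eq_fintype_card, Nat.card_coe_set_eq]
    omega
  obtain ⟨e⟩ := Function.Embedding.nonempty_of_card_le hc
  refine ⟨fun i => if hi : Br w n i then e ⟨fac w (n + 1) i, ⟨i, hi, rfl⟩⟩ else 0, ?_⟩
  intro i j hi hj h
  simp only [hi, hj, dif_pos] at h
  have := e.injective h
  exact congrArg Subtype.val this

/-- Among any `R + 1` branch positions `u 0, ..., u R` two have the same factor
(`exists_same_branch`). -/
theorem same_factor {w : ℕ → Bool} {n R : ℕ} (hR : (brSet w n).ncard ≤ R) (u : ℕ → ℕ) (c : ℕ)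
    (hb : ∀ a, c ≤ a → a ≤ c + R → Br w n (u a)) :
    ∃ a b, c ≤ a ∧ a < b ∧ b ≤ c + R ∧ ∀ t < n, w (u a + t) = w (u b + t) := by
  classical
  have hfin : (brSet w n).Finite := Set.toFinite _
  have hmaps : Set.MapsTo (fun a => fac w n (u a)) (Finset.Icc c (c + R) : Set ℕ)
      (hfin.toFinset : Set (Fin n → Bool)) := by
    intro a ha
    rw [Finset.coe_Icc, Set.mem_Icc] at ha
    simp only [Set.Finite.coe_toFinset]
    exact ⟨u a, hb a ha.1 ha.2, rfl⟩
  have hcard : hfin.toFinset.card < (Finset.Icc c (c + R)).card := by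
    rw [Nat.card_Icc, ← Set.ncard_eq_toFinset_card _ hfin]
    omega
  obtain ⟨a, ha, b, hb', hab, he⟩ := Finset.exists_ne_map_eq_of_card_lt_of_maps_to hcard hmaps
  rw [Finset.mem_Icc] at ha hb'
  have key : ∀ a b : ℕ, fac w n (u a) = fac w n (u b) →
      ∀ t < n, w (u a + t) = w (u b + t) := by
    intro a b h t ht
    have := congrFun h ⟨t, ht⟩
    simpa only [fac] using this
  rcases lt_or_gt_of_ne hab with h' | h'
  · exact ⟨a, b, ha.1, h', hb'.2, key a b he⟩
  · exact ⟨b, a, hb'.1, h', ha.2, key b a he.symm⟩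

/-- `exists_good_length` -/
theorem good_length {w : ℕ → Bool} {C N : ℕ} (hN : 2 ≤ N) (h : cpx w N ≤ C * N) :
    ∃ n, N ≤ 3 * n ∧ n < N ∧ 1 ≤ n ∧ (brSet w n).ncard ≤ 3 * C ∧ cpx w n ≤ C * N := by
  have hm : N / 2 ≤ N := Nat.div_le_self N 2
  have hsum := UD1_sum w (N / 2) N hm
  have hex : ∃ n ∈ Finset.Ico (N / 2) N, (brSet w n).ncard ≤ 2 * C := by
    by_contra hno
    push Not at hno
    have h1 : ∑ n ∈ Finset.Ico (N / 2) N, (2 * C + 1) ≤
        ∑ n ∈ Finset.Ico (N / 2) N, (brSet w n).ncard :=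
      Finset.sum_le_sum fun n hn => hno n hn
    rw [Finset.sum_const, Nat.card_Ico, smul_eq_mul] at h1
    have h2 : N ≤ 2 * (N - N / 2) := by omega
    have h3 : 0 < N - N / 2 := by omega
    have h4 : C * N ≤ C * (2 * (N - N / 2)) := Nat.mul_le_mul_left C h2
    have h5 : (N - N / 2) * (2 * C + 1) = C * (2 * (N - N / 2)) + (N - N / 2) := by ring
    omega
  obtain ⟨n, hn, hb⟩ := hex
  rw [Finset.mem_Ico] at hn
  have h1n : 1 ≤ n := by omega
  exact ⟨n, by omega, hn.2, h1n, by omega, (cpx_mono w hn.2.le).trans h⟩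

/-- `cpx w n ≥ 1` -/
theorem cpx_pos (w : ℕ → Bool) (n : ℕ) : 0 < cpx w n := by
  unfold cpx
  rw [Set.ncard_pos]
  exact ⟨_, 0, rfl⟩

end Pool.Agent.Lib.MP_d0d59f_nt.Un

end

section

namespace Pool.Agent.Lib.MP_d0d59f_nt.Un

variable {w : ℕ → Bool} {j : ℕ}

/-- Two equal factors of length `j` at positions `u < v` such that no position from `u` to `v - 1` is a
branch position: then the word is periodic from `u` on with period `v - u`, and no position `≥ u` is a
branch position.

Proof. By induction on `t`: `fac (u + t) = fac (u + t % (v - u))` (for `t + 1`: the position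
`u + t % (v - u)` is in `[u, v)`, so `not_br_succ`, `fac_tail`; if `t % (v - u) + 1 = v - u` use
`fac u = fac v`; compare the proof of `exists_branch'` in `Sub/OrbitData.lean`). So every position `≥ u`
has the factor of a position which is not a branch position (`br_congr`), and
`fac (u + t) = fac (v + t)`, whose first letters agree by `not_br_succ` and `fac_head`. -/
theorem periodic_of_repeat {u v : ℕ} (huv : u < v) (h : fac w j u = fac w j v)
    (hb : ∀ t, u ≤ t → t < v → ¬ Br w j t) :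
    (∀ t, u ≤ t → ¬ Br w j t) ∧ ∀ t, u ≤ t → w t = w (t + (v - u)) := by
  obtain ⟨c, hc, rfl⟩ : ∃ c, 0 < c ∧ v = u + c := ⟨v - u, by omega, by omega⟩
  have hnb : ∀ r, r < c → ¬ Br w j (u + r) := fun r hr => hb (u + r) (by omega) (by omega)
  have key : ∀ t, fac w j (u + t) = fac w j (u + t % c) := by
    intro t
    induction t with
    | zero => simp
    | succ t ih =>
      have hr : t % c < c := Nat.mod_lt _ hc
      have h1 := fac_tail (not_br_succ (hnb _ hr) ih)
      rw [add_assoc, add_assoc] at h1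
      rw [h1]
      rcases Nat.lt_or_ge (t % c + 1) c with h2 | h2
      · have e : (t + 1) % c = t % c + 1 := by
          rw [Nat.add_mod, ← Nat.mod_eq_of_lt h2]
          rcases Nat.lt_or_ge 1 c with h3 | h3
          · rw [Nat.mod_eq_of_lt h3]
          · omega
        rw [e]
      · have e0 : t % c + 1 = c := by omega
        have e : (t + 1) % c = 0 := by
          have : t + 1 = c * (t / c) + c := by
            have := Nat.div_add_mod t c
            omega
          rw [this, Nat.add_mod_right, Nat.mul_mod_right]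
        rw [e, e0, add_zero, ← h]
  have hbr : ∀ t, u ≤ t → ¬ Br w j t := by
    intro t ht hB
    obtain ⟨s, rfl⟩ := Nat.exists_eq_add_of_le ht
    exact hnb _ (Nat.mod_lt _ hc) (br_congr (key s) hB)
  refine ⟨hbr, ?_⟩
  intro t ht
  obtain ⟨s, rfl⟩ := Nat.exists_eq_add_of_le ht
  have e : u + c - u = c := by omega
  rw [e]
  have h1 := not_br_succ (hnb _ (Nat.mod_lt s hc)) (key s)
  have h2 : fac w j (u + s + c) = fac w j (u + s % c) := by
    rw [add_assoc, key (s + c)]
    simp
  have h3 := not_br_succ (hnb _ (Nat.mod_lt s hc)) h2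
  exact fac_head (h1.trans h3.symm)

/-- Among the `cpx w j + 1` positions `s, ..., s + cpx w j` two have the same factor (pigeonhole, compare
`linGapA_repeat` in `Sub/Words.lean`); if there is no branch position among them use
`periodic_of_repeat` (and for the positions before `u`, which are in the window, the hypothesis). -/
theorem br_or_tail (w : ℕ → Bool) (j s : ℕ) :
    (∃ u, s ≤ u ∧ u ≤ s + cpx w j ∧ Br w j u) ∨
    ((∀ t, s ≤ t → ¬ Br w j t) ∧ ∃ e q, s ≤ e ∧ e ≤ s + cpx w j ∧ 0 < q ∧ q ≤ cpx w j ∧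
      ∀ t, e ≤ t → w t = w (t + q)) := by
  classical
  by_cases hex : ∃ u, s ≤ u ∧ u ≤ s + cpx w j ∧ Br w j u
  · exact Or.inl hex
  right
  push Not at hex
  have hfin : (Set.range (fac w j)).Finite := Set.toFinite _
  have hmaps : Set.MapsTo (fun i => fac w j (s + i))
      (Finset.range (cpx w j + 1) : Set ℕ)
      (hfin.toFinset : Set (Fin j → Bool)) := by
    intro i _
    simp
  have hcard : hfin.toFinset.card < (Finset.range (cpx w j + 1)).card := by
    rw [Finset.card_range, cpx, Set.ncard_eq_toFinset_card _ hfin]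
    omega
  obtain ⟨a, ha, b, hb, hab, he⟩ := Finset.exists_ne_map_eq_of_card_lt_of_maps_to hcard hmaps
  rw [Finset.mem_range] at ha hb
  obtain ⟨a, b, ha, hb, hab, he⟩ : ∃ a b, a ≤ cpx w j ∧ b ≤ cpx w j ∧ a < b ∧
      fac w j (s + a) = fac w j (s + b) := by
    rcases lt_or_gt_of_ne hab with h' | h'
    · exact ⟨a, b, by omega, by omega, h', he⟩
    · exact ⟨b, a, by omega, by omega, h', he.symm⟩
  obtain ⟨h1, h2⟩ := periodic_of_repeat (u := s + a) (v := s + b) (by omega) he
    (fun t h1 h2 => hex t (by omega) (by omega))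
  refine ⟨?_, s + a, s + b - (s + a), by omega, by omega, by omega, by omega, h2⟩
  intro t ht
  rcases Nat.lt_or_ge t (s + a) with h3 | h3
  · exact hex t ht (by omega)
  · exact h1 t h3

/-- `br_or_tail` for `s = v + 1`. -/
theorem NextBr.le {v e : ℕ} (h : NextBr w j v e) : e ≤ v + 1 + cpx w j := by
  obtain ⟨h1, h2, h3⟩ := h
  rcases br_or_tail w j (v + 1) with ⟨u, hu1, hu2, hu3⟩ | ⟨hno, _⟩
  · by_contra hlt
    exact h3 u (by omega) (by omega) hu3
  · exact absurd h2 (hno e (by omega))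

/-- If there is a branch position after `v` then there is a next one (`Nat.find`). -/
theorem exists_nextBr {v u : ℕ} (h : v < u) (hu : Br w j u) : ∃ e, NextBr w j v e := by
  classical
  have hex : ∃ e, v < e ∧ Br w j e := ⟨u, h, hu⟩
  refine ⟨Nat.find hex, (Nat.find_spec hex).1, (Nat.find_spec hex).2, ?_⟩
  intro t ht1 ht2 hB
  exact Nat.find_min hex ht2 ⟨ht1, hB⟩

theorem NextBr.unique {v e e' : ℕ} (h : NextBr w j v e) (h' : NextBr w j v e') : e = e' := by
  obtain ⟨h1, h2, h3⟩ := h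
  obtain ⟨h1', h2', h3'⟩ := h'
  rcases lt_trichotomy e e' with hlt | heq | hgt
  · exact absurd h2 (h3' e h1 hlt)
  · exact heq
  · exact absurd h2' (h3 e' h1' hgt)

theorem ud2_step {v v' e : ℕ} (h : fac w (j + 1) v = fac w (j + 1) v')
    (hv : NextBr w j v e) (t : ℕ) : v + t < e →
      fac w (j + 1) (v + t) = fac w (j + 1) (v' + t) := by
  induction t with
  | zero => intro _; simpa using h
  | succ t ih =>
    intro h1
    have h3 := ih (by omega)
    have h4 : fac w j (v + (t + 1)) = fac w j (v' + (t + 1)) := fac_tail h3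
    by_contra hne
    exact hv.2.2 (v + (t + 1)) (by omega) h1 ⟨v' + (t + 1), h4.symm, fun h5 => hne h5.symm⟩

theorem ud2_le {v v' e e' : ℕ} (h : fac w (j + 1) v = fac w (j + 1) v')
    (hv : NextBr w j v e) (hv' : NextBr w j v' e') : e' + v ≤ e + v' := by
  by_contra hlt
  push Not at hlt
  have hve := hv.1
  have h1 := ud2_step h hv (e - v - 1) (by omega)
  have h2 := fac_tail h1
  have e1 : v + (e - v - 1) + 1 = e := by omega
  rw [e1] at h2
  exact hv'.2.2 _ (by omega) (by omega) (br_congr h2 hv.2.1)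

/-- Blocks between consecutive branch positions which begin with the same factor of length `j + 1` are
equal (`block_eq`, `lingapb_*` in `Sub/Words.lean`). Proof: for `t` with `v + t < e` and `v' + t < e'`
by induction `fac (j + 1) (v + t) = fac (j + 1) (v' + t)` (`fac_tail`, `not_br_succ`). If, say,
`e - v < e' - v'`, then `fac j e = fac j (v' + (e - v))`, but `e` is a branch position and
`v' + (e - v)` is not. -/
theorem NextBr.block {v v' e e' : ℕ} (h : fac w (j + 1) v = fac w (j + 1) v')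
    (hv : NextBr w j v e) (hv' : NextBr w j v' e') :
    e + v' = e' + v ∧ ∀ t, v + t < e → w (v + t) = w (v' + t) := by
  have h1 := ud2_le h hv hv'
  have h2 := ud2_le h.symm hv' hv
  refine ⟨by omega, ?_⟩
  intro t ht
  exact fac_head (ud2_step h hv t ht)

end Pool.Agent.Lib.MP_d0d59f_nt.Un

end

section

namespace Pool.Agent.Lib.MP_d0d59f_nt.Un

variable {w : ℕ → Bool}

theorem ud3_mono {jt : ℕ → ℕ} {k' : ℕ} (hjt : ∀ i, i < k' → jt i < jt (i + 1)) {i : ℕ} (m : ℕ)
    (h : i + m ≤ k') : jt i + m ≤ jt (i + m) := by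
  induction m with
  | zero => simp
  | succ m ih =>
    have h1 := ih (by omega)
    have h2 := hjt (i + m) (by omega)
    have e : i + (m + 1) = i + m + 1 := by ring
    rw [e]
    omega

theorem ud3_step {jt : ℕ → ℕ} {ε k' : ℕ} (hshort : ∀ i, i < k' → jt (i + 1) ≤ jt i + ε) {i : ℕ}
    (m : ℕ) (h : i + m ≤ k') : jt (i + m) ≤ jt i + m * ε := by
  induction m with
  | zero => simp
  | succ m ih =>
    have h1 := ih (by omega)
    have h2 := hshort (i + m) (by omega)
    have e : i + (m + 1) = i + m + 1 := by ring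
    have e2 : (m + 1) * ε = m * ε + ε := by ring
    rw [e, e2]
    omega

theorem ud3_locate {jt : ℕ → ℕ} {a t : ℕ} (m : ℕ) (h1 : jt a ≤ t) (h2 : t < jt (a + m)) :
    ∃ c, a ≤ c ∧ c < a + m ∧ jt c ≤ t ∧ t < jt (c + 1) := by
  induction m with
  | zero =>
    rw [Nat.add_zero] at h2
    omega
  | succ m ih =>
    rcases Nat.lt_or_ge t (jt (a + m)) with h | h
    · obtain ⟨c, h3, h4, h5, h6⟩ := ih h
      exact ⟨c, h3, by omega, h5, h6⟩
    · exact ⟨a + m, by omega, by omega, h, h2⟩

theorem run_periodic' {w : ℕ → Bool} {jt : ℕ → ℕ} {n R ε k' : ℕ}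
    (hjt : ∀ i, i < k' → jt i < jt (i + 1))
    (hrep : ∀ c, c + R ≤ k' → ∃ a b, c ≤ a ∧ a < b ∧ b ≤ c + R ∧
      ∀ t < n, w (jt a + t) = w (jt b + t))
    (hε : (3 * R + 3) * ε ≤ n) {a b : ℕ} (hab : a < b) (hbR : b ≤ R) (hRk : R ≤ k')
    (hw : ∀ t < n, w (jt a + t) = w (jt b + t))
    (hshort : ∀ i, i < k' → jt (i + 1) ≤ jt i + ε) :
    ∀ t, jt a ≤ t → t < jt k' → w t = w (t + (jt b - jt a)) := by
  have hmono : ∀ i j, i ≤ j → j ≤ k' → jt i + (j - i) ≤ jt j := by
    intro i j h1 h2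
    have h3 := ud3_mono hjt (i := i) (j - i) (by omega)
    have e : i + (j - i) = j := by omega
    rwa [e] at h3
  have hbound : ∀ i j m, i ≤ j → j ≤ k' → j ≤ i + m → jt j ≤ jt i + m * ε := by
    intro i j m h2 h3 h4
    have h5 := ud3_step hshort (i := i) (j - i) (by omega)
    have e : i + (j - i) = j := by omega
    rw [e] at h5
    have h6 : (j - i) * ε ≤ m * ε := Nat.mul_le_mul_right _ (by omega)
    omega
  have hjab : jt a < jt b := by
    have := hmono a b hab.le (by omega)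
    omega
  have hp : jt b ≤ jt a + R * ε := hbound a b R hab.le (by omega) (by omega)
  have hexp : (3 * R + 3) * ε = 3 * (R * ε) + 3 * ε := by ring
  intro t
  induction t using Nat.strong_induction_on with
  | _ t ih =>
    intro ht1 ht2
    rcases Nat.lt_or_ge t (jt a + n) with hlt | hge
    · have h1 := hw (t - jt a) (by omega)
      have e1 : jt a + (t - jt a) = t := by omega
      have e2 : jt b + (t - jt a) = t + (jt b - jt a) := by omega
      rw [e1, e2] at h1
      exact h1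
    · have e0 : a + (k' - a) = k' := by omega
      obtain ⟨c', hc1, hc2, hc3, hc4⟩ := ud3_locate (jt := jt) (a := a) (t := t) (k' - a) ht1
        (by rw [e0]; exact ht2)
      rw [e0] at hc2
      have hcR : a + R ≤ c' := by
        by_contra hlt
        have h1 := hbound a (c' + 1) R (by omega) (by omega) (by omega)
        omega
      obtain ⟨c₁, c₂, hd1, hd2, hd3, hd4⟩ := hrep (c' - R) (by omega)
      have hle2 : c₂ ≤ c' := by omega
      have hj2 : jt c₂ ≤ jt c' := by
        have := hmono c₂ c' hle2 (by omega)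
        omega
      have hj12 : jt c₁ < jt c₂ := by
        have := hmono c₁ c₂ hd2.le (by omega)
        omega
      have hja1 : jt a ≤ jt c₁ := by
        have := hmono a c₁ (by omega) (by omega)
        omega
      have hb1 := hbound c₁ (c' + 1) (R + 1) (by omega) (by omega) (by omega)
      have hexp2 : (R + 1) * ε = R * ε + ε := by ring
      have hu1 : t - jt c₂ < n := by omega
      have hu2 : t - jt c₂ + (jt b - jt a) < n := by omega
      have h1 := hd4 _ hu1
      have h2 := hd4 _ hu2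
      have e1 : jt c₂ + (t - jt c₂) = t := by omega
      have e2 : jt c₂ + (t - jt c₂ + (jt b - jt a)) = t + (jt b - jt a) := by omega
      rw [e1] at h1
      rw [e2] at h2
      have h3 := ih (jt c₁ + (t - jt c₂)) (by omega) (by omega) (by omega)
      rw [← h1, ← h2, h3, add_assoc]

theorem run_short {j R ε : ℕ} (hε : (3 * R + 3) * ε ≤ j) (hR : (brSet w j).ncard ≤ R)
    (u : ℕ → ℕ) (hu : Br w j (u 0)) :
    ∃ p, 0 < p ∧ p ≤ 2 * R * ε + 1 ∧ ∀ k,
      (∀ i, i < k → NextBr w j (u i) (u (i + 1)) ∧ u (i + 1) ≤ u i + ε) →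
      ∀ t, u 0 + p ≤ t → t + p < u k → w t = w (t + p) := by
  have hexp : 2 * R * ε = 2 * (R * ε) := by ring
  have hbr : ∀ k, (∀ i, i < k → NextBr w j (u i) (u (i + 1)) ∧ u (i + 1) ≤ u i + ε) →
      ∀ i, i ≤ k → Br w j (u i) := by
    intro k hV i hi
    rcases Nat.eq_zero_or_pos i with h | h
    · rw [h]
      exact hu
    · have h1 := (hV (i - 1) (by omega)).1.2.1
      have e : i - 1 + 1 = i := by omega
      rwa [e] at h1
  have hbd : ∀ k, (∀ i, i < k → NextBr w j (u i) (u (i + 1)) ∧ u (i + 1) ≤ u i + ε) →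
      ∀ m, m ≤ k → u m ≤ u 0 + m * ε := by
    intro k hV m hm
    have h1 := ud3_step (jt := u) (ε := ε) (k' := k) (fun i hi => (hV i hi).2) (i := 0) m (by omega)
    rwa [Nat.zero_add] at h1
  by_cases hVR : ∀ i, i < R → NextBr w j (u i) (u (i + 1)) ∧ u (i + 1) ≤ u i + ε
  · obtain ⟨a, b, -, hab, hbR, hw⟩ := same_factor hR u 0 (fun a _ ha => hbr R hVR a (by omega))
    rw [Nat.zero_add] at hbR
    have hjtR : ∀ i, i < R → u i < u (i + 1) := fun i hi => (hVR i hi).1.1
    have hq0 : u a < u b := by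
      have h1 := ud3_mono hjtR (i := a) (b - a) (by omega)
      have e : a + (b - a) = b := by omega
      rw [e] at h1
      omega
    have hq1 : u b ≤ u a + R * ε := by
      have h1 := ud3_step (jt := u) (ε := ε) (k' := R) (fun i hi => (hVR i hi).2) (i := a) (b - a)
        (by omega)
      have e : a + (b - a) = b := by omega
      rw [e] at h1
      have h2 : (b - a) * ε ≤ R * ε := Nat.mul_le_mul_right _ (by omega)
      omega
    obtain ⟨q, hq⟩ : ∃ q, q = u b - u a := ⟨_, rfl⟩
    have hqp : 0 < q := by omega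
    have hp1 : R * ε < q * (R * ε / q + 1) := Nat.lt_mul_div_succ _ hqp
    have hp2 : q * (R * ε / q + 1) ≤ R * ε + q := by
      have h1 : q * (R * ε / q) ≤ R * ε := Nat.mul_div_le _ _
      have h2 : q * (R * ε / q + 1) = q * (R * ε / q) + q := by ring
      omega
    refine ⟨q * (R * ε / q + 1), by omega, by omega, fun k hV t ht1 ht2 => ?_⟩
    rcases Nat.lt_or_ge k R with hk | hk
    · have h1 := hbd k hV k le_rfl
      have h2 : k * ε ≤ R * ε := Nat.mul_le_mul_right _ hk.le
      omega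
    · have hper := run_periodic' (w := w) (jt := u) (n := j) (R := R) (ε := ε) (k' := k)
        (fun i hi => (hV i hi).1.1)
        (fun c hc => same_factor hR u c (fun a _ ha => hbr k hV a (by omega)))
        hε hab hbR hk hw (fun i hi => (hV i hi).2)
      rw [← hq] at hper
      have hua : u a ≤ u 0 + R * ε := by
        have h1 := hbd R hVR a (by omega)
        have h2 : a * ε ≤ R * ε := Nat.mul_le_mul_right _ (by omega)
        omega
      have hit : ∀ m, t + q * m < u k → w t = w (t + q * m) := by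
        intro m
        induction m with
        | zero => intro _; simp
        | succ m ih =>
          intro hm
          have e : q * (m + 1) = q * m + q := by ring
          rw [e] at hm ⊢
          rw [ih (by omega), ← add_assoc]
          exact hper (t + q * m) (by omega) (by omega)
      exact hit _ ht2
  · refine ⟨R * ε + 1, by omega, by omega, fun k hV t ht1 ht2 => ?_⟩
    have hkR : k < R := by
      by_contra hcon
      exact hVR fun i hi => hV i (by omega)
    have h1 := hbd k hV k le_rfl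
    have h2 : k * ε ≤ R * ε := Nat.mul_le_mul_right _ hkR.le
    omega

end Pool.Agent.Lib.MP_d0d59f_nt.Un

end

section

namespace Pool.Agent.Lib.MP_d0d59f_nt.Un

/-- Given `k` lengths (depending on `n`) there is a scale `n / D` with `D` between `D0` and `D1` such that
every length is at least `n / D` or at most `n / D / M D`.

Proof. Let `E 0 = D0`, `E (s + 1) = E s * M (E s)` and `D1 = E (k + 1)`. Let `ℓ s = n / E s`, so
`ℓ (s + 1) = ℓ s / M (E s)` (`Nat.div_div_eq_div_mul`), `ℓ` is decreasing and `ℓ (k + 1) ≥ 1` since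
`n ≥ D1`. For `s = 0, ..., k` the open intervals `(ℓ (s + 1), ℓ s)` are disjoint, so (pigeonhole, `k + 1`
intervals and `k` lengths) one of them contains no `len a`; `D = E s`. -/
theorem exists_scale (k D0 : ℕ) (hD0 : 1 ≤ D0) (M : ℕ → ℕ) (hM : ∀ D, 1 ≤ M D) :
    ∃ D1 : ℕ, 1 ≤ D1 ∧ ∀ n, D1 ≤ n → ∀ len : Fin k → ℕ, ∃ D, D0 ≤ D ∧ D ≤ D1 ∧
      1 ≤ n / D / M D ∧ ∀ a, len a ≤ n / D / M D ∨ n / D ≤ len a := by
  classical
  obtain ⟨E, hE0, hEs⟩ : ∃ E : ℕ → ℕ, E 0 = D0 ∧ ∀ s, E (s + 1) = E s * M (E s) :=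
    ⟨fun s => Nat.rec D0 (fun _ e => e * M e) s, rfl, fun _ => rfl⟩
  have hEpos : ∀ s, 1 ≤ E s := by
    intro s
    induction s with
    | zero => rw [hE0]; exact hD0
    | succ s ih =>
      rw [hEs]
      exact Nat.mul_pos ih (hM _)
  have hEmono : Monotone E := by
    refine monotone_nat_of_le_succ fun s => ?_
    rw [hEs]
    exact Nat.le_mul_of_pos_right _ (hM _)
  refine ⟨E (k + 1), hEpos (k + 1), ?_⟩
  intro n hn len
  have hdiv : ∀ s, n / E s / M (E s) = n / E (s + 1) := by
    intro s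
    rw [Nat.div_div_eq_div_mul, hEs]
  by_contra hcon
  push Not at hcon
  have hbad : ∀ s : Fin (k + 1), ∃ a, n / E s / M (E s) < len a ∧ len a < n / E s := by
    intro s
    have hs : (s : ℕ) + 1 ≤ k + 1 := s.2
    refine hcon (E s) ?_ (hEmono (show (s : ℕ) ≤ k + 1 by omega)) ?_
    · rw [← hE0]
      exact hEmono (Nat.zero_le _)
    · rw [hdiv, Nat.one_le_div_iff (hEpos _)]
      exact (hEmono hs).trans hn
  choose f hf1 hf2 using hbad
  obtain ⟨s, t, hst, hfst⟩ := Fintype.exists_ne_map_eq_of_card_lt f (by simp)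
  have key : ∀ s t : Fin (k + 1), s < t → f s = f t → False := by
    intro s t hlt hft
    have h1 := hf1 s
    have h2 := hf2 t
    rw [hdiv] at h1
    rw [← hft] at h2
    have h3 : n / E t ≤ n / E (s + 1) := Nat.div_le_div_left (hEmono hlt) (hEpos _)
    omega
  rcases lt_or_gt_of_ne hst with h | h
  · exact key s t h hfst
  · exact key t s h hfst.symm

end Pool.Agent.Lib.MP_d0d59f_nt.Un

end

section

namespace Pool.Agent.Lib.MP_d0d59f_nt.Un

variable {w : ℕ → Bool}

/-- From a branch position `u` there is a piece with a short period (after its first `p` letters) from `u`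
to `v`, followed by a long block from `v` to the next branch position `e`, or the word is periodic from
`e` on.

Proof. Define `s 0 = u` and `s (i + 1)` = the next branch position after `s i` if there is one, else
`s i + 1`. `run_short` gives `p`. Call `i` valid if `NextBr w j (s i) (s (i + 1))` and
`s (i + 1) ≤ s i + ε`. If all `i` are valid: `v = u`, `e = u + p`, `q = p`; for every `t ≥ e` there
is `k` with `t + p < s k` (`s` is strictly increasing), so `w t = w (t + p)`. Otherwise let `k` be the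
first `i` which is not valid; `v = s k` is a branch position, and `run_short` for `k` gives the
statement on the period. If there is a branch position after `v`, `e = s (k + 1)` is the next one
(`exists_nextBr`), `e ≤ v + 1 + cpx w j ≤ v + G` (`NextBr.le`) and it is not `≤ v + ε`, so `v + L ≤ e` by
`hdich`. Otherwise `br_or_tail` for `s = v + 1` gives `e`, `q`. -/
theorem cut_step {j R ε G L : ℕ} (hε : (3 * R + 3) * ε ≤ j) (hR : (brSet w j).ncard ≤ R)
    (hG : 1 + cpx w j ≤ G) (hG2 : 2 * R * ε + 1 ≤ G)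
    (hdich : ∀ v e, Br w j v → NextBr w j v e → e ≤ v + ε ∨ v + L ≤ e) {u : ℕ}
    (hu : Br w j u) :
    ∃ v e p, u ≤ v ∧ v ≤ e ∧ e ≤ v + G ∧ 0 < p ∧ p ≤ 2 * R * ε + 1 ∧
      (∀ t, u + p ≤ t → t + p < v → w t = w (t + p)) ∧
      ((Br w j v ∧ NextBr w j v e ∧ v + L ≤ e) ∨
        ∃ q, 0 < q ∧ q ≤ G ∧ ∀ t, e ≤ t → w t = w (t + q)) := by
  classical
  obtain ⟨nx, hnx1, hnx2⟩ : ∃ nx : ℕ → ℕ, (∀ v, (∃ e, NextBr w j v e) → NextBr w j v (nx v)) ∧
      ∀ v, v < nx v := by
    refine ⟨fun v => if h : ∃ e, NextBr w j v e then h.choose else v + 1, ?_, ?_⟩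
    · intro v hv
      simp only [hv, dif_pos]
      exact hv.choose_spec
    · intro v
      by_cases h : ∃ e, NextBr w j v e
      · simp only [h, dif_pos]
        exact h.choose_spec.1
      · simp only [h, dif_neg, not_false_eq_true]
        omega
  set s : ℕ → ℕ := fun i => nx^[i] u with hs
  have hs0 : s 0 = u := rfl
  have hss : ∀ i, s (i + 1) = nx (s i) := by
    intro i
    simp only [hs, Function.iterate_succ_apply']
  have hsm : StrictMono s := strictMono_nat_of_lt_succ (fun i => by rw [hss]; exact hnx2 _)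
  obtain ⟨p, hp0, hp1, hper⟩ := run_short hε hR s (by rw [hs0]; exact hu)
  rw [hs0] at hper
  by_cases hall : ∀ i, NextBr w j (s i) (s (i + 1)) ∧ s (i + 1) ≤ s i + ε
  · refine ⟨u, u + p, p, le_refl _, by omega, by omega, hp0, hp1, ?_, ?_⟩
    · intro t h1 h2
      omega
    · right
      refine ⟨p, hp0, by omega, ?_⟩
      intro t ht
      have h3' : t + p + 1 ≤ s (t + p + 1) := hsm.le_apply
      have h3 : t + p < s (t + p + 1) := by omega
      exact hper (t + p + 1) (fun i _ => hall i) t ht h3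
  · push Not at hall
    have hex : ∃ i, ¬ (NextBr w j (s i) (s (i + 1)) ∧ s (i + 1) ≤ s i + ε) := by
      obtain ⟨i, hi⟩ := hall
      exact ⟨i, fun h => absurd h.2 (not_le.2 (hi h.1))⟩
    obtain ⟨k, hk, hkmin⟩ : ∃ k, ¬ (NextBr w j (s k) (s (k + 1)) ∧ s (k + 1) ≤ s k + ε) ∧
        ∀ i, i < k → NextBr w j (s i) (s (i + 1)) ∧ s (i + 1) ≤ s i + ε := by
      refine ⟨Nat.find hex, Nat.find_spec hex, ?_⟩
      intro i hi
      by_contra hc
      exact Nat.find_min hex hi hc
    have hbr : Br w j (s k) := by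
      rcases k with _ | k'
      · rw [hs0]; exact hu
      · exact (hkmin k' (by omega)).1.2.1
    have huk : u ≤ s k := by
      rw [← hs0]; exact hsm.monotone (Nat.zero_le k)
    by_cases hnext : ∃ e, NextBr w j (s k) e
    · have h1 : NextBr w j (s k) (s (k + 1)) := by
        rw [hss]; exact hnx1 _ hnext
      have h2 : s k + ε < s (k + 1) := by
        by_contra hc
        exact hk ⟨h1, by omega⟩
      have h3 : s k + L ≤ s (k + 1) := by
        rcases hdich _ _ hbr h1 with h | h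
        · omega
        · exact h
      have h4 := h1.le
      refine ⟨s k, s (k + 1), p, huk, h1.1.le, by omega, hp0, hp1, ?_, Or.inl ⟨hbr, h1, h3⟩⟩
      intro t ht1 ht2
      exact hper k hkmin t ht1 ht2
    · rcases br_or_tail w j (s k + 1) with ⟨u', hu1, hu2, hu3⟩ | ⟨_, e, q, he1, he2, hq0, hq1, hq2⟩
      · exact absurd (exists_nextBr (by omega : s k < u') hu3) hnext
      · refine ⟨s k, e, p, huk, by omega, by omega, hp0, hp1, ?_, Or.inr ⟨q, hq0, by omega, hq2⟩⟩
        intro t ht1 ht2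
        exact hper k hkmin t ht1 ht2

end Pool.Agent.Lib.MP_d0d59f_nt.Un

end

section

namespace Pool.Agent.Lib.MP_d0d59f_nt.Un

/-- If from every good position there is a next pair of pieces which ends in a good position then there is
a cutting. `Ty a v e`: the word from `v` to `e` is a long piece of type `a`.

Proof. Put `Good' u := Good u ∨ (∃ q, 0 < q ∧ q ≤ K * L ∧ ∀ t, u ≤ t → w t = w (t + q))`. For every
`u` with `Good' u` there are `v, e, p` and `τ : Option (Fin K)` with the first properties, `Good' e`, and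
`(∃ a, τ = some a ∧ Ty a v e ∧ v + L ≤ e)` or (`τ = none` and the word is periodic from `e`
on): in the second case take `v = e = u`, `p = 1`, `τ = none`. Choose functions `v, e, p, τ` of `u`
(classical choice, arbitrary values for the other `u`), let `U 0 = u₀`,
`U (i + 1) = e (U i)`; `P (2 i) = U i`, `P (2 i + 1) = v (U i)` (define `P` by cases on parity),
`ty i = τ (U i)`, `p i = p (U i)`. -/
theorem cutting_of_steps {w : ℕ → Bool} {K E L : ℕ} (Good : ℕ → Prop)
    (Ty : Fin K → ℕ → ℕ → Prop)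
    (hTy : ∀ a v e v' e', Ty a v e → Ty a v' e' →
      e + v' = e' + v ∧ ∀ t, v + t < e → w (v + t) = w (v' + t))
    (hEL : E ≤ L)
    (hstep : ∀ u, Good u → ∃ v e p, u ≤ v ∧ v ≤ e ∧ e ≤ v + K * L ∧ 0 < p ∧ E * p ≤ L ∧
      (∀ t, u + p ≤ t → t + p < v → w t = w (t + p)) ∧
      ((Good e ∧ ∃ a, Ty a v e ∧ v + L ≤ e) ∨
        ∃ q, 0 < q ∧ q ≤ K * L ∧ ∀ t, e ≤ t → w t = w (t + q)))
    {u₀ : ℕ} (hu₀ : u₀ ≤ K * L)
    (hgood : Good u₀ ∨ ∃ q, 0 < q ∧ q ≤ K * L ∧ ∀ t, u₀ ≤ t → w t = w (t + q)) :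
    ∃ (P : ℕ → ℕ) (ty : ℕ → Option (Fin K)) (p : ℕ → ℕ), Cutting w K E L P ty p := by
  classical
  have hstep' : ∀ u, (Good u ∨ ∃ q, 0 < q ∧ q ≤ K * L ∧ ∀ t, u ≤ t → w t = w (t + q)) →
      ∃ r : ℕ × ℕ × ℕ × Option (Fin K), u ≤ r.1 ∧ r.1 ≤ r.2.1 ∧ r.2.1 ≤ r.1 + K * L ∧
        0 < r.2.2.1 ∧ E * r.2.2.1 ≤ L ∧
        (∀ t, u + r.2.2.1 ≤ t → t + r.2.2.1 < r.1 → w t = w (t + r.2.2.1)) ∧
        (Good r.2.1 ∨ ∃ q, 0 < q ∧ q ≤ K * L ∧ ∀ t, r.2.1 ≤ t → w t = w (t + q)) ∧
        (∀ a, r.2.2.2 = some a → Ty a r.1 r.2.1 ∧ r.1 + L ≤ r.2.1) ∧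
        (r.2.2.2 = none → ∃ q, 0 < q ∧ q ≤ K * L ∧ ∀ t, r.2.1 ≤ t → w t = w (t + q)) := by
    rintro u (hu | hu)
    · obtain ⟨v, e, p, h1, h2, h3, h4, h5, h6, ⟨h7, a, h8, h9⟩ | h7⟩ := hstep u hu
      · refine ⟨(v, e, p, some a), h1, h2, h3, h4, h5, h6, Or.inl h7, ?_, ?_⟩
        · intro b hb
          have hab : a = b := Option.some.inj hb
          subst hab
          exact ⟨h8, h9⟩
        · intro h
          exact absurd h (by simp)
      · refine ⟨(v, e, p, none), h1, h2, h3, h4, h5, h6, Or.inr h7, ?_, fun _ => h7⟩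
        intro b hb
        exact absurd hb (by simp)
    · refine ⟨(u, u, 1, none), le_rfl, le_rfl, Nat.le_add_right _ _, one_pos, ?_, ?_, Or.inr hu, ?_,
        fun _ => hu⟩
      · simpa using hEL
      · intro t h1 h2
        simp only at h1 h2
        omega
      · intro b hb
        exact absurd hb (by simp)
  choose! f hf using hstep'
  let U : ℕ → ℕ := fun n => Nat.rec u₀ (fun _ u => (f u).2.1) n
  have hU0 : U 0 = u₀ := rfl
  have hUs : ∀ i, U (i + 1) = (f (U i)).2.1 := fun i => rfl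
  have hG : ∀ i, (Good (U i) ∨ ∃ q, 0 < q ∧ q ≤ K * L ∧ ∀ t, U i ≤ t → w t = w (t + q)) := by
    intro i
    induction i with
    | zero => exact hgood
    | succ i ih =>
      rw [hUs]
      exact (hf (U i) ih).2.2.2.2.2.2.1
  have hF := fun i => hf (U i) (hG i)
  let P : ℕ → ℕ := fun n => if n % 2 = 0 then U (n / 2) else (f (U (n / 2))).1
  have hP0 : ∀ i, P (2 * i) = U i := by
    intro i
    have h1 : (2 * i) % 2 = 0 := by omega
    have h2 : (2 * i) / 2 = i := by omega
    simp only [P, h1, h2, if_true]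
  have hP1 : ∀ i, P (2 * i + 1) = (f (U i)).1 := by
    intro i
    have h1 : ¬ ((2 * i + 1) % 2 = 0) := by omega
    have h2 : (2 * i + 1) / 2 = i := by omega
    simp only [P, h1, h2, if_false]
  have hP2 : ∀ i, P (2 * i + 2) = (f (U i)).2.1 := by
    intro i
    have h1 : 2 * i + 2 = 2 * (i + 1) := by ring
    rw [h1, hP0, hUs]
  refine ⟨P, fun i => (f (U i)).2.2.2, fun i => (f (U i)).2.2.1, ?_⟩
  constructor
  · have h1 := hP0 0
    rw [mul_zero, hU0] at h1
    rw [h1]
    exact hu₀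
  · intro n
    rcases Nat.even_or_odd' n with ⟨i, h | h⟩
    · rw [h, hP0, hP1]
      exact (hF i).1
    · rw [h, hP1, show 2 * i + 1 + 1 = 2 * i + 2 by ring, hP2]
      exact (hF i).2.1
  · intro i
    exact (hF i).2.2.2.1
  · intro i
    exact (hF i).2.2.2.2.1
  · intro i t
    rw [hP0, hP1]
    exact (hF i).2.2.2.2.2.1 t
  · intro i
    rw [hP2, hP1]
    exact (hF i).2.2.1
  · intro i hi
    rw [hP2, hP1]
    obtain ⟨a, ha⟩ := Option.ne_none_iff_exists'.1 hi
    exact ((hF i).2.2.2.2.2.2.2.1 a ha).2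
  · intro i hi
    rw [hP2]
    exact (hF i).2.2.2.2.2.2.2.2 hi
  · intro i j hij hi
    rw [hP2, hP1, hP2, hP1]
    obtain ⟨a, ha⟩ := Option.ne_none_iff_exists'.1 hi
    have hj : (f (U j)).2.2.2 = some a := by
      rw [← ha]
      exact hij.symm
    exact (hTy a _ _ _ _ ((hF i).2.2.2.2.2.2.2.1 a ha).1
      ((hF j).2.2.2.2.2.2.2.1 a hj).1).1
  · intro i j hij hi t
    rw [hP2, hP1, hP1]
    obtain ⟨a, ha⟩ := Option.ne_none_iff_exists'.1 hi
    have hj : (f (U j)).2.2.2 = some a := by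
      rw [← ha]
      exact hij.symm
    exact (hTy a _ _ _ _ ((hF i).2.2.2.2.2.2.2.1 a ha).1
      ((hF j).2.2.2.2.2.2.2.1 a hj).1).2 t

end Pool.Agent.Lib.MP_d0d59f_nt.Un

end

section

namespace Pool.Agent.Lib.MP_d0d59f_nt.Un

/-- the lengths of the blocks of the types -/
theorem ud7_len {w : ℕ → Bool} {j R : ℕ} {τ : ℕ → Fin (2 * R + 1)}
    (hτ : ∀ i i', Br w j i → Br w j i' → τ i = τ i' → fac w (j + 1) i = fac w (j + 1) i') :
    ∃ len : Fin (2 * R + 1) → ℕ, ∀ v e, Br w j v → NextBr w j v e → v + len (τ v) = e := by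
  classical
  refine ⟨fun a => if h : ∃ l v e, Br w j v ∧ NextBr w j v e ∧ τ v = a ∧ e = v + l then
    h.choose else 0, ?_⟩
  intro v e hv he
  have h : ∃ l v' e', Br w j v' ∧ NextBr w j v' e' ∧ τ v' = τ v ∧ e' = v' + l :=
    ⟨e - v, v, e, hv, he, rfl, by have := he.1; omega⟩
  simp only [h, dif_pos]
  obtain ⟨v', e', h1, h2, h3, h4⟩ := h.choose_spec
  have h5 := NextBr.block (hτ v' v h1 hv h3) h2 he
  omega

/-- `F K` is the quality which is needed for `K` types.

Let `R = 3 * C`, `K' D = 2 * (C + 2) * D + 2 * R + 1` and `M D = F (K' D) * (2 * R + 1) + 9 * R + 9`.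
`exists_scale` for the lengths of the blocks between consecutive branch positions (one for each type)
gives `D`; then `K = K' D`, `L = n / D` and `ε = L / M D`: the blocks have length at most `ε` or at
least `L`. The cutting is assembled from the steps of `cut_step`. -/
theorem exists_cutting (C : ℕ) (F : ℕ → ℕ) : ∃ K₀ : ℕ, ∀ n, K₀ ≤ n → ∀ w : ℕ → Bool,
    cpx w n ≤ C * n → ∃ K L : ℕ, K ≤ K₀ ∧ F K ≤ L ∧ L ≤ n ∧ (C + 1) * n ≤ K * L ∧
      ∃ (P : ℕ → ℕ) (ty : ℕ → Option (Fin K)) (p : ℕ → ℕ), Cutting w K (F K) L P ty p := by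
  classical
  obtain ⟨R, hR⟩ : ∃ R, R = 3 * C := ⟨_, rfl⟩
  obtain ⟨K', hK'⟩ : ∃ K' : ℕ → ℕ, ∀ D, K' D = 2 * (C + 2) * D + 2 * R + 1 := ⟨_, fun _ => rfl⟩
  obtain ⟨M, hM⟩ : ∃ M : ℕ → ℕ, ∀ D, M D = F (K' D) * (2 * R + 1) + 9 * R + 9 :=
    ⟨_, fun _ => rfl⟩
  obtain ⟨D1, hD1, hsc⟩ := exists_scale (2 * R + 1) 1 le_rfl M (fun D => by rw [hM]; omega)
  refine ⟨D1 + 2 + K' D1, ?_⟩
  intro n hn w hc
  obtain ⟨j, hj1, hj2, hj3, hj4, hj5⟩ := good_length (by omega : 2 ≤ n) hc
  rw [← hR] at hj4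
  obtain ⟨τ, hτ⟩ := exists_types' hj4
  obtain ⟨len, hlen⟩ := ud7_len hτ
  obtain ⟨D, hD, hDD, hone, hdich⟩ := hsc n (by omega) len
  obtain ⟨L, hL⟩ : ∃ L, L = n / D := ⟨_, rfl⟩
  rw [← hL] at hone hdich
  obtain ⟨ε, hε⟩ : ∃ ε, ε = L / M D := ⟨_, rfl⟩
  rw [← hε] at hone hdich
  obtain ⟨K, hK⟩ : ∃ K, K = K' D := ⟨_, rfl⟩
  have hML : M D * ε ≤ L := by rw [hε]; exact Nat.mul_div_le L (M D)
  have hMD : M D = F K * (2 * R + 1) + 9 * R + 9 := by rw [hM, hK]
  have hKD : K = 2 * (C + 2) * D + 2 * R + 1 := by rw [hK, hK']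
  have hL1 : 1 ≤ L := by
    have : 1 ≤ M D := by omega
    nlinarith
  have hnL : n ≤ 2 * D * L := by
    have h1 : n < D * (L + 1) := by
      rw [hL]; exact Nat.lt_mul_div_succ n (by omega)
    nlinarith
  have hLn : L ≤ n := by rw [hL]; exact Nat.div_le_self _ _
  have hnKL : (C + 1) * n ≤ K * L := by
    calc (C + 1) * n ≤ (C + 1) * (2 * D * L) := Nat.mul_le_mul_left _ hnL
      _ = (2 * (C + 1) * D) * L := by ring
      _ ≤ K * L := Nat.mul_le_mul_right L (by
          rw [hKD]
          have h1 : 2 * (C + 1) * D ≤ 2 * (C + 2) * D := Nat.mul_le_mul_right D (by omega)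
          omega)
  have hεL : (2 * R + 1) * (F K * ε) + 9 * (R + 1) * ε ≤ L := by
    rw [hMD] at hML
    calc (2 * R + 1) * (F K * ε) + 9 * (R + 1) * ε = (F K * (2 * R + 1) + 9 * R + 9) * ε := by ring
      _ ≤ L := hML
  have hFL : F K ≤ L := by
    have h1 : F K ≤ F K * ε := Nat.le_mul_of_pos_right _ hone
    nlinarith
  have hε1 : (3 * R + 3) * ε ≤ j := by
    have h1 : 3 * ((3 * R + 3) * ε) ≤ 3 * j := by
      calc 3 * ((3 * R + 3) * ε) = 9 * (R + 1) * ε := by ring
        _ ≤ L := by omega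
        _ ≤ 3 * j := hLn.trans hj1
    omega
  have hFp : F K * (2 * R * ε + 1) ≤ L := by
    have h1 : F K ≤ F K * ε := Nat.le_mul_of_pos_right _ hone
    have h2 : F K * (2 * R * ε + 1) ≤ (2 * R + 1) * (F K * ε) := by
      calc F K * (2 * R * ε + 1) = 2 * R * (F K * ε) + F K := by ring
        _ ≤ 2 * R * (F K * ε) + F K * ε := by omega
        _ = (2 * R + 1) * (F K * ε) := by ring
    omega
  have hn1 : 1 ≤ n := by omega
  have hG : 1 + cpx w j ≤ K * L := by
    calc 1 + cpx w j ≤ 1 + C * n := by omega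
      _ ≤ (C + 1) * n := by rw [Nat.add_mul, one_mul]; omega
      _ ≤ K * L := hnKL
  have hG2 : 2 * R * ε + 1 ≤ K * L := by
    have h1 : ε ≤ L := by rw [hε]; exact Nat.div_le_self _ _
    calc 2 * R * ε + 1 ≤ 2 * R * L + L := by nlinarith
      _ = (2 * R + 1) * L := by ring
      _ ≤ K * L := Nat.mul_le_mul_right L (by rw [hKD]; omega)
  have hRK : 2 * R + 1 ≤ K := by rw [hKD]; omega
  refine ⟨K, L, ?_, hFL, hLn, hnKL, ?_⟩
  · have h1 : K ≤ K' D1 := by
      rw [hKD, hK']
      have := Nat.mul_le_mul_left (2 * (C + 2)) hDD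
      omega
    omega
  have hdich' : ∀ v e, Br w j v → NextBr w j v e → e ≤ v + ε ∨ v + L ≤ e := by
    intro v e hv he
    have h1 := hlen v e hv he
    rcases hdich (τ v) with h2 | h2
    · left; omega
    · right; omega
  have hTy : ∀ (a : Fin K) (v e v' e' : ℕ),
      (Br w j v ∧ NextBr w j v e ∧ Fin.castLE hRK (τ v) = a) →
      (Br w j v' ∧ NextBr w j v' e' ∧ Fin.castLE hRK (τ v') = a) →
      e + v' = e' + v ∧ ∀ t, v + t < e → w (v + t) = w (v' + t) := by
    rintro a v e v' e' ⟨h1, h2, h3⟩ ⟨h1', h2', h3'⟩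
    have h4 : τ v = τ v' := Fin.castLE_injective hRK (h3.trans h3'.symm)
    exact NextBr.block (hτ v v' h1 h1' h4) h2 h2'
  have hstep : ∀ u, Br w j u → ∃ v e p, u ≤ v ∧ v ≤ e ∧ e ≤ v + K * L ∧ 0 < p ∧
      F K * p ≤ L ∧ (∀ t, u + p ≤ t → t + p < v → w t = w (t + p)) ∧
      ((Br w j e ∧ ∃ a : Fin K, (Br w j v ∧ NextBr w j v e ∧ Fin.castLE hRK (τ v) = a) ∧
          v + L ≤ e) ∨
        ∃ q, 0 < q ∧ q ≤ K * L ∧ ∀ t, e ≤ t → w t = w (t + q)) := by
    intro u hu
    obtain ⟨v, e, p, h1, h2, h3, h4, h5, h6, h7⟩ := cut_step hε1 hj4 hG hG2 hdich' hu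
    refine ⟨v, e, p, h1, h2, h3, h4, ?_, h6, ?_⟩
    · exact (Nat.mul_le_mul_left _ h5).trans hFp
    · rcases h7 with ⟨h8, h9, h10⟩ | h7
      · exact Or.inl ⟨h9.2.1, _, ⟨h8, h9, rfl⟩, h10⟩
      · exact Or.inr h7
  rcases br_or_tail w j 0 with ⟨u, -, hu1, hu2⟩ | ⟨-, e, q, -, he, hq, hq1, hq2⟩
  · exact cutting_of_steps (Br w j) (fun a v e => Br w j v ∧ NextBr w j v e ∧
      Fin.castLE hRK (τ v) = a) hTy hFL hstep (u₀ := u) (by omega) (Or.inl hu2)
  · exact cutting_of_steps (Br w j) (fun a v e => Br w j v ∧ NextBr w j v e ∧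
      Fin.castLE hRK (τ v) = a) hTy hFL hstep (u₀ := e) (by omega)
      (Or.inr ⟨q, hq, by omega, hq2⟩)

end Pool.Agent.Lib.MP_d0d59f_nt.Un

end
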