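import Pool.Agent.Lib.MP_d0d59f_nt.Un.CutTheorem
import Pool.Agent.Lib.MP_d0d59f_nt.Un.WordCuttings
import Pool.Agent.Lib.MP_d0d59f_nt.Sub.MainTheorems

/-!
Orbits of linear complexity, local and uniform in `d`.
-/

section

namespace Pool.Agent.Lib.MP_d0d59f_nt.Un

open Lin

/-- Continue the word by `false` from `W + n` on: the new factors begin at `W, ..., W + n - 1` or are
constant. (`Set.ncard_union_le`, `Set.ncard_image_le`.) -/
theorem cpx_truncate (w : ℕ → Bool) (n W : ℕ) :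
    cpx (fun t => if t < W + n then w t else false) n ≤ (fac w n '' Set.Iio W).ncard + n + 1 := by
  classical
  set w' : ℕ → Bool := fun t => if t < W + n then w t else false with hw'
  have hsub : Set.range (fac w' n) ⊆
      (fac w n '' Set.Iio W ∪ fac w' n '' Set.Ico W (W + n)) ∪ {fun _ => false} := by
    rintro _ ⟨i, rfl⟩
    rcases Nat.lt_or_ge i W with h1 | h1
    · left; left
      refine ⟨i, h1, ?_⟩
      funext k
      have hk := k.2
      simp only [fac, hw']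
      rw [if_pos (by omega)]
    · rcases Nat.lt_or_ge i (W + n) with h2 | h2
      · left; right
        exact ⟨i, ⟨h1, h2⟩, rfl⟩
      · right
        rw [Set.mem_singleton_iff]
        funext k
        simp only [fac, hw']
        rw [if_neg (by omega)]
  have h1 : (Set.range (fac w' n)).ncard ≤
      ((fac w n '' Set.Iio W ∪ fac w' n '' Set.Ico W (W + n)) ∪ {fun _ => false}).ncard :=
    Set.ncard_le_ncard hsub (Set.toFinite _)
  have h2 := Set.ncard_union_le (fac w n '' Set.Iio W ∪ fac w' n '' Set.Ico W (W + n))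
    ({fun _ => false} : Set (Fin n → Bool))
  have h3 := Set.ncard_union_le (fac w n '' Set.Iio W) (fac w' n '' Set.Ico W (W + n))
  have h4 : (fac w' n '' Set.Ico W (W + n)).ncard ≤ n := by
    refine (Set.ncard_image_le (Set.finite_Ico _ _)).trans ?_
    rw [← Finset.coe_Ico, Set.ncard_coe_finset, Nat.card_Ico]
    omega
  rw [Set.ncard_singleton] at h2
  unfold cpx
  omega

/-- `fac` of the parity word is the image of `factor` under `f ↦ (k ↦ decide (f k = 1))`. -/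
theorem ncard_fac_le (d x : ℤ) (n W : ℕ) :
    (fac (fun t => decide ((T d)^[t] x % 2 = 1)) n '' Set.Iio W).ncard ≤
      (factor d x n '' Set.Iio W).ncard := by
  have he : fac (fun t => decide ((T d)^[t] x % 2 = 1)) n '' Set.Iio W =
      (fun f : Fin n → ℤ => fun k => decide (f k = 1)) '' (factor d x n '' Set.Iio W) := by
    rw [Set.image_image]
    rfl
  rw [he]
  exact Set.ncard_image_le ((Set.finite_Iio W).image _)

/-- Orbits with few factors in the first `K n` steps have a coincidence in these steps.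

Proof. Choose `F K = E` from `gt_main K`, `K₀` from `exists_cutting (C + 2) F`; let `K` be the maximum
of `K₀`, `1` and all `(K' + 1) * (F K' + 1)`, `K' ≤ K₀`. Let `w` be the parity word of `x` and `w'` its
truncation from `K n + n` on; by `cpx_truncate` and `ncard_fac_le` (`n ≥ 1`)
`cpx w' n ≤ C n + n + 1 ≤ (C + 2) n`. `exists_cutting` gives `K' ≤ K₀` and `L`, `F K' ≤ L ≤ n`,
`(C + 3) n ≤ K' L` (so `K' ≥ 1`), and a cutting. `|x| ≤ 2 ^ (C n) ≤ 2 ^ (K' L)`.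
`(|d| ^ F K') ^ K' ≤ |d| ^ K ≤ 2 ^ n ≤ (2 ^ L) ^ K'` (`|d| ≥ 1`), so `|d| ^ F K' ≤ 2 ^ L`.
`F K' * L ≤ F K' * n ≤ K n`, so `w'` is the parity word in the window. `gt_main`. -/
theorem local_linear (C : ℕ) : ∃ K : ℕ, ∀ d : ℤ, Odd d → ∀ n : ℕ, K ≤ n → |d| ^ K ≤ 2 ^ n →
    ∀ x : ℤ, |x| ≤ 2 ^ (C * n) → (factor d x n '' Set.Iio (K * n)).ncard ≤ C * n →
      ∃ m q : ℕ, 0 < q ∧ m + q ≤ K * n ∧ (T d)^[m + q] x = (T d)^[m] x := by
  classical
  choose F hF using gt_main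
  obtain ⟨K₀, hK₀⟩ := exists_cutting (C + 2) F
  set S : ℕ := ∑ K' ∈ Finset.range (K₀ + 1), (K' + 1) * (F K' + 1) with hS
  have hSle : ∀ K' ≤ K₀, (K' + 1) * (F K' + 1) ≤ S := by
    intro K' hK'
    exact Finset.single_le_sum (f := fun K' => (K' + 1) * (F K' + 1)) (fun _ _ => Nat.zero_le _)
      (Finset.mem_range.mpr (by omega))
  refine ⟨K₀ + 1 + S, ?_⟩
  set K : ℕ := K₀ + 1 + S with hKdef
  intro d hd n hn hdn x hx hfac
  have hn1 : 1 ≤ n := by omega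
  set w : ℕ → Bool := fun t => decide ((T d)^[t] x % 2 = 1) with hw
  set w' : ℕ → Bool := fun t => if t < K * n + n then w t else false with hw'
  have hc1 : cpx w' n ≤ (fac w n '' Set.Iio (K * n)).ncard + n + 1 := cpx_truncate w n (K * n)
  have hc2 : (fac w n '' Set.Iio (K * n)).ncard ≤ (factor d x n '' Set.Iio (K * n)).ncard :=
    ncard_fac_le d x n (K * n)
  have hc3 : cpx w' n ≤ (C + 2) * n := by
    have : (C + 2) * n = C * n + n + n := by ring
    omega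
  obtain ⟨K', L, hK', hFL, hLn, hnKL, P, ty, p, hcut⟩ := hK₀ n (by omega) w' hc3
  have hK'1 : K' ≠ 0 := by
    rintro rfl
    rw [zero_mul] at hnKL
    nlinarith
  have hnKL2 : C * n ≤ K' * L := by nlinarith
  have hnKL1 : n ≤ K' * L := by nlinarith
  have hle : (K' + 1) * (F K' + 1) ≤ K := by
    have := hSle K' hK'
    omega
  have hFK : F K' ≤ K := by nlinarith
  have hd1 : (1 : ℤ) ≤ |d| := by
    have : d ≠ 0 := by
      rintro rfl
      exact absurd hd (by decide)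
    exact Int.one_le_abs this
  have hdL : |d| ^ F K' ≤ 2 ^ L := by
    have h1 : (|d| ^ F K') ^ K' ≤ ((2 : ℤ) ^ L) ^ K' := by
      calc (|d| ^ F K') ^ K' = |d| ^ (F K' * K') := by rw [pow_mul]
        _ ≤ |d| ^ K := pow_le_pow_right₀ hd1 (by nlinarith)
        _ ≤ 2 ^ n := hdn
        _ ≤ 2 ^ (K' * L) := pow_le_pow_right₀ (by norm_num) hnKL1
        _ = ((2 : ℤ) ^ L) ^ K' := by rw [← pow_mul, mul_comm]
    exact (pow_le_pow_iff_left₀ (by positivity) (by positivity) hK'1).mp h1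
  have hxL : |x| ≤ 2 ^ (K' * L) := hx.trans (pow_le_pow_right₀ (by norm_num) hnKL2)
  have hEL : F K' * L ≤ K * n := Nat.mul_le_mul hFK hLn
  obtain ⟨m, q, hq, hmq, heq⟩ := hF K' d hd L hFL hdL x hxL w' P ty p hcut (by
    intro t ht
    have h1 : w' t = w t := by
      simp only [hw']
      rw [if_pos (by omega)]
    rw [h1, hw]
    simp)
  exact ⟨m, q, hq, hmq.trans hEL, heq⟩

end Pool.Agent.Lib.MP_d0d59f_nt.Un

end

section

namespace Pool.Agent.Lib.MP_d0d59f_nt.Un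

open Lin Sb

/-- The proof of `cycle_min` (`Sub/MainTheorems.lean`) with
`|d| / c + 2 |d| + 1 ≤ (1 / c + 3) |d|` (`|d| ≥ 1`). The constants `c, K` of
`LogMeasure.log_two_three` do not depend on `d`. -/
theorem cycle_min_uniform : ∃ A : ℝ, ∃ B : ℕ, 0 < A ∧ ∀ d : ℤ, Odd d → ∀ (y : ℤ) (l : ℕ), 1 ≤ l →
    (T d)^[l] y = y → ∃ i, |((T d)^[i] y : ℝ)| ≤ A * |(d : ℝ)| * (l : ℝ) ^ B := by
  obtain ⟨c, K, hc, hK, hlog⟩ := LogMeasure.log_two_three
  refine ⟨1 / c + 3, ⌈K⌉₊ + 1, by positivity, ?_⟩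
  intro d hd y l hl hcyc
  have hd0 : d ≠ 0 := by
    rintro rfl
    exact absurd hd (by decide)
  have hdn : 1 ≤ |(d : ℝ)| := by
    have h := Int.one_le_abs hd0
    exact_mod_cast h
  have hd1 : 0 < |(d : ℝ)| := lt_of_lt_of_le one_pos hdn
  by_contra hcon
  push Not at hcon
  set A : ℝ := (1 / c + 3) * |(d : ℝ)| with hA
  have hA0 : 0 < A := by rw [hA]; positivity
  have hl1 : (1 : ℝ) ≤ (l : ℝ) := by exact_mod_cast hl
  have hlB : (1 : ℝ) ≤ (l : ℝ) ^ (⌈K⌉₊ + 1) := one_le_pow₀ hl1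
  set Y : ℝ := A * (l : ℝ) ^ (⌈K⌉₊ + 1) with hYdef
  have hYA : A ≤ Y := by rw [hYdef]; nlinarith
  have hY0 : 0 < Y := hA0.trans_le hYA
  have hAe : A = |(d : ℝ)| / c + 3 * |(d : ℝ)| := by rw [hA]; ring
  have hY2 : 2 * |(d : ℝ)| ≤ Y := by
    have : 0 ≤ |(d : ℝ)| / c := by positivity
    linarith
  have h1 := FinalB_tele hd y hY2 hY0 hcon l
  rw [hcyc, sub_self, zero_add] at h1
  have h2 := hlog l (ones d y l) hl (ones_le d y l)
  have h3 : c * (l : ℝ) ^ (-K) ≤ l * (|(d : ℝ)| / Y) := h2.trans h1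
  have hl0 : (0 : ℝ) < l := by linarith
  have h4 : (l : ℝ) ≤ (l : ℝ) ^ (-K) * (l : ℝ) ^ (⌈K⌉₊ + 1) := by
    rw [← Real.rpow_natCast (l : ℝ) (⌈K⌉₊ + 1), ← Real.rpow_add hl0]
    have h5 : (1 : ℝ) ≤ -K + ((⌈K⌉₊ + 1 : ℕ) : ℝ) := by
      push_cast
      have := Nat.le_ceil K
      linarith
    calc (l : ℝ) = (l : ℝ) ^ (1 : ℝ) := (Real.rpow_one _).symm
      _ ≤ _ := Real.rpow_le_rpow_of_exponent_le hl1 h5
  have h6 : c * (l : ℝ) ^ (-K) * Y ≤ l * |(d : ℝ)| := by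
    have h7 := mul_le_mul_of_nonneg_right h3 hY0.le
    rwa [mul_assoc (l : ℝ), div_mul_cancel₀ _ hY0.ne'] at h7
  have h8 : c * A * l ≤ l * |(d : ℝ)| := by
    calc c * A * l ≤ c * A * ((l : ℝ) ^ (-K) * (l : ℝ) ^ (⌈K⌉₊ + 1)) := by gcongr
      _ = c * (l : ℝ) ^ (-K) * Y := by rw [hYdef]; ring
      _ ≤ _ := h6
  have h9 : c * A ≤ |(d : ℝ)| := by
    have h10 : (c * A) * l ≤ |(d : ℝ)| * l := by linarith
    exact le_of_mul_le_mul_right h10 hl0
  have h11 : c * A = |(d : ℝ)| + 3 * |(d : ℝ)| * c := by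
    rw [hAe]; field_simp
  have : 0 < 3 * |(d : ℝ)| * c := by positivity
  linarith

end Pool.Agent.Lib.MP_d0d59f_nt.Un

end

section

namespace Pool.Agent.Lib.MP_d0d59f_nt.Un

open Lin

/-- a polynomial bound against a power of two (as `Final_growth` in `Sub/MainTheorems.lean`, with half
the exponent: `2 ^ (n / 2)`, natural division) -/
theorem growth_half (A : ℝ) (B K : ℕ) : ∃ M : ℕ, ∀ n ≥ M,
    A * (((K : ℝ) + 1) * ((n : ℝ) + 1)) ^ B ≤ 2 ^ (n / 2) := by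
  obtain ⟨M, hM⟩ := Sb.Final_growth |A| B (2 * K + 1)
  refine ⟨2 * M, fun n hn => ?_⟩
  have h1 : M ≤ n / 2 := by omega
  have h2 := hM (n / 2) h1
  have h3 : n ≤ 2 * (n / 2) + 1 := by omega
  have h4 : (n : ℝ) ≤ 2 * ((n / 2 : ℕ) : ℝ) + 1 := by exact_mod_cast h3
  have hK : (0 : ℝ) ≤ K := Nat.cast_nonneg K
  have hn0 : (0 : ℝ) ≤ n := Nat.cast_nonneg n
  have h5 : ((K : ℝ) + 1) * ((n : ℝ) + 1) ≤
      (((2 * K + 1 : ℕ) : ℝ) + 1) * (((n / 2 : ℕ) : ℝ) + 1) := by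
    push_cast
    nlinarith
  have h6 : (((K : ℝ) + 1) * ((n : ℝ) + 1)) ^ B ≤
      ((((2 * K + 1 : ℕ) : ℝ) + 1) * (((n / 2 : ℕ) : ℝ) + 1)) ^ B :=
    pow_le_pow_left₀ (by positivity) h5 B
  calc A * (((K : ℝ) + 1) * ((n : ℝ) + 1)) ^ B
      ≤ |A| * (((K : ℝ) + 1) * ((n : ℝ) + 1)) ^ B :=
        mul_le_mul_of_nonneg_right (le_abs_self A) (by positivity)
    _ ≤ |A| * ((((2 * K + 1 : ℕ) : ℝ) + 1) * (((n / 2 : ℕ) : ℝ) + 1)) ^ B :=
        mul_le_mul_of_nonneg_left h6 (abs_nonneg A)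
    _ ≤ 2 ^ (n / 2) := h2

theorem ue3_abs_le (d : ℤ) : |d| ≤ 2 ^ (Nat.log 2 d.natAbs + 1) := by
  have h1 : d.natAbs < 2 ^ (Nat.log 2 d.natAbs + 1) :=
    Nat.lt_pow_succ_log_self (by norm_num) _
  rw [Int.abs_eq_natAbs]
  exact_mod_cast h1.le

theorem ue3_ncard_le (d x : ℤ) (n : ℕ) (S : Set ℕ) :
    (factor d x n '' S).ncard ≤ complexity d x n :=
  Set.ncard_le_ncard (Set.image_subset_range _ _) (range_factor_finite d x n)

/-- The orbit reaches a cycle. Let `s = Nat.log 2 d.natAbs + 1`, so `|d| ≤ 2 ^ s`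
(`Nat.lt_pow_succ_log_self`).

Proof (compare `Final_period` in `Sub/MainTheorems.lean`). `K` from `local_linear (C + 1)`, `A, B` from
`cycle_min_uniform`, `M'` from `growth_half A B K`. The number of factors in the window is at most
`complexity d x n` (`Set.ncard_le_ncard`, `range_factor_finite`). `local_linear` for
`n = log |x| + 1 + s K + K + M s` gives a periodic point `y = (T d)^[m] x`, `m ≤ K n`; let `l` be its
minimal period. Claim: `l ≤ (K + 1) * (K + M + M' + 3) * s`. Otherwise let `n = l / (K + 1)`, so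
`n ≥ (K + M + M' + 3) s`, in particular `n ≥ K, M s, M', 2 s` (`s ≥ 1`) and
`|d| ^ K ≤ 2 ^ (s K) ≤ 2 ^ n`; `(K + 1) n ≤ l < (K + 1) (n + 1)`. By `cycle_min_uniform`
there is `z` in the cycle with `|z| ≤ A |d| l ^ B ≤ 2 ^ s * 2 ^ (n / 2) ≤ 2 ^ n`. Its complexities are at
most those of `x` (`complexity_shift`), so `local_linear` gives a coincidence of the orbit of `z` at a
distance at most `K n < l`, which contradicts the minimality of `l`. -/
theorem reach_cycle (C M : ℕ) : ∃ K₂ : ℕ, ∀ d : ℤ, Odd d → ∀ x : ℤ,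
    (∀ n : ℕ, M * (Nat.log 2 d.natAbs + 1) ≤ n → complexity d x n ≤ C * n) →
    ∃ k l : ℕ, k ≤ K₂ * (Nat.log 2 x.natAbs + Nat.log 2 d.natAbs + 1) ∧ 1 ≤ l ∧
      l ≤ K₂ * (Nat.log 2 d.natAbs + 1) ∧ (T d)^[l] ((T d)^[k] x) = (T d)^[k] x := by
  obtain ⟨K, hK⟩ := local_linear (C + 1)
  obtain ⟨A, B, hA, hAB⟩ := cycle_min_uniform
  obtain ⟨M', hM'⟩ := growth_half A B K
  refine ⟨(K + 1) * (K + M + M' + 3) + K * (2 * K + M + 1), fun d hd x hx => ?_⟩
  set s : ℕ := Nat.log 2 d.natAbs + 1 with hs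
  set r : ℕ := Nat.log 2 x.natAbs with hr
  have hds : |d| ≤ 2 ^ s := ue3_abs_le d
  have hxr : |x| ≤ 2 ^ (r + 1) := ue3_abs_le x
  have hs1 : 1 ≤ s := by omega
  have hC : ∀ n, C * n ≤ (C + 1) * n := fun n => Nat.mul_le_mul_right n (by omega)
  -- a periodic point
  obtain ⟨n₁, hn₁⟩ : ∃ n₁ : ℕ, n₁ = (r + 1) + s * K + K + M * s := ⟨_, rfl⟩
  have hxn : |x| ≤ 2 ^ ((C + 1) * n₁) := by
    refine hxr.trans (pow_le_pow_right₀ (by norm_num) ?_)
    have h1 : r + 1 ≤ n₁ := by omega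
    have h2 : n₁ ≤ (C + 1) * n₁ := Nat.le_mul_of_pos_left n₁ (by omega)
    exact h1.trans h2
  have hdn : |d| ^ K ≤ 2 ^ n₁ := by
    calc |d| ^ K ≤ (2 ^ s) ^ K := pow_le_pow_left₀ (abs_nonneg d) hds K
      _ = 2 ^ (s * K) := (pow_mul _ _ _).symm
      _ ≤ _ := pow_le_pow_right₀ (by norm_num) (by omega)
  have hKn : K ≤ n₁ := by omega
  have hMn : M * s ≤ n₁ := by omega
  obtain ⟨m, p, hp, hmK, hmp⟩ := hK d hd n₁ hKn hdn x hxn
    (((ue3_ncard_le d x n₁ _).trans (hx n₁ hMn)).trans (hC n₁))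
  have hmle : m ≤ K * (2 * K + M + 1) * (r + s) := by
    have h1 : n₁ ≤ (2 * K + M + 1) * (r + s) := by
      have e1 : (2 * K + M + 1) * (r + s) =
          (r + s) + (K * r + s * K) + K * (r + s) + (M * r + M * s) := by ring
      have e2 : K ≤ K * (r + s) := Nat.le_mul_of_pos_right K (by omega)
      omega
    calc m ≤ K * n₁ := by omega
      _ ≤ K * ((2 * K + M + 1) * (r + s)) := Nat.mul_le_mul_left K h1
      _ = K * (2 * K + M + 1) * (r + s) := by ring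
  set y := (T d)^[m] x with hy
  have hyp : Function.IsPeriodicPt (T d) p y := by
    show (T d)^[p] y = y
    rw [hy, ← Function.iterate_add_apply, add_comm p m]
    exact hmp
  have hymem : y ∈ Function.periodicPts (T d) := Function.mk_mem_periodicPts hp hyp
  have hl0 : 0 < Function.minimalPeriod (T d) y :=
    Function.minimalPeriod_pos_of_mem_periodicPts hymem
  have hly : (T d)^[Function.minimalPeriod (T d) y] y = y :=
    Function.isPeriodicPt_minimalPeriod (T d) y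
  set l := Function.minimalPeriod (T d) y with hl
  refine ⟨m, l, ?_, hl0, ?_, hly⟩
  · have e1 : r + Nat.log 2 d.natAbs + 1 = r + s := by omega
    rw [e1, add_mul]
    exact hmle.trans (Nat.le_add_left _ _)
  suffices hlN' : l ≤ (K + 1) * (K + M + M' + 3) * s by
    rw [add_mul]
    exact hlN'.trans (Nat.le_add_right _ _)
  by_contra hlN
  push Not at hlN
  obtain ⟨i, hi⟩ := hAB d hd y l hl0 hly
  set n : ℕ := l / (K + 1) with hn
  have hnN : (K + M + M' + 3) * s ≤ n := by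
    rw [hn, Nat.le_div_iff_mul_le (Nat.succ_pos K)]
    calc (K + M + M' + 3) * s * (K + 1) = (K + 1) * (K + M + M' + 3) * s := by ring
      _ ≤ l := hlN.le
  have hexp : (K + M + M' + 3) * s = K * s + M * s + M' * s + 3 * s := by ring
  have hKs : K ≤ K * s := Nat.le_mul_of_pos_right K hs1
  have hMs : M' ≤ M' * s := Nat.le_mul_of_pos_right M' hs1
  have hn1 : M' ≤ n := by omega
  have hn2 : K ≤ n := by omega
  have hn3 : M * s ≤ n := by omega
  have hn7 : s * K ≤ n := by rw [mul_comm]; omega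
  have hn8 : s ≤ n / 2 := by omega
  have hn4 : (K + 1) * n ≤ l := by
    rw [hn, mul_comm]; exact Nat.div_mul_le_self l (K + 1)
  have hn5 : l < (K + 1) * (n + 1) := by
    rw [hn]; exact Nat.lt_mul_div_succ l (Nat.succ_pos K)
  have hn6 : K * n < l := by
    have : (K + 1) * n = K * n + n := by ring
    omega
  have hdK : |d| ^ K ≤ 2 ^ n := by
    calc |d| ^ K ≤ (2 ^ s) ^ K := pow_le_pow_left₀ (abs_nonneg d) hds K
      _ = 2 ^ (s * K) := (pow_mul _ _ _).symm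
      _ ≤ 2 ^ n := pow_le_pow_right₀ (by norm_num) hn7
  -- the small element of the cycle
  set z := (T d)^[i] y with hz
  have hzn : |z| ≤ 2 ^ n := by
    have h1 := hM' n hn1
    have h2 : (l : ℝ) ≤ ((K : ℝ) + 1) * ((n : ℝ) + 1) := by exact_mod_cast hn5.le
    have hdr : |(d : ℝ)| ≤ 2 ^ (n / 2) := by
      have h3 : |d| ≤ 2 ^ (n / 2) := hds.trans (pow_le_pow_right₀ (by norm_num) hn8)
      exact_mod_cast h3
    have h3 : |((z : ℤ) : ℝ)| ≤ 2 ^ n := by
      calc |((z : ℤ) : ℝ)| ≤ A * |(d : ℝ)| * (l : ℝ) ^ B := hi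
        _ = |(d : ℝ)| * (A * (l : ℝ) ^ B) := by ring
        _ ≤ 2 ^ (n / 2) * (A * (((K : ℝ) + 1) * ((n : ℝ) + 1)) ^ B) := by gcongr
        _ ≤ 2 ^ (n / 2) * 2 ^ (n / 2) := mul_le_mul_of_nonneg_left h1 (by positivity)
        _ = 2 ^ (n / 2 + n / 2) := (pow_add _ _ _).symm
        _ ≤ 2 ^ n := pow_le_pow_right₀ (by norm_num) (by omega)
    exact_mod_cast h3
  have hzn' : |z| ≤ 2 ^ ((C + 1) * n) :=
    hzn.trans (pow_le_pow_right₀ (by norm_num) (Nat.le_mul_of_pos_left n (by omega)))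
  have hzc : (factor d z n '' Set.Iio (K * n)).ncard ≤ (C + 1) * n := by
    have h1 : complexity d z n ≤ complexity d y n := complexity_shift d y i n
    have h2 : complexity d y n ≤ complexity d x n := complexity_shift d x m n
    exact ((ue3_ncard_le d z n _).trans ((h1.trans h2).trans (hx n hn3))).trans (hC n)
  obtain ⟨m', p', hp', hpK, hcoin⟩ := hK d hd n hn2 hdK z hzn' hzc
  have hper : Function.IsPeriodicPt (T d) p' ((T d)^[m' + i] y) := by
    show (T d)^[p'] ((T d)^[m' + i] y) = (T d)^[m' + i] y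
    have e1 : (T d)^[m' + i] y = (T d)^[m'] z := Function.iterate_add_apply (T d) m' i y
    rw [e1, ← Function.iterate_add_apply, add_comm p' m']
    exact hcoin
  have hmin : Function.minimalPeriod (T d) ((T d)^[m' + i] y) = l := by
    rw [hl]
    exact Function.minimalPeriod_apply_iterate hymem _
  have hle : l ≤ p' := by
    rw [← hmin]
    exact hper.minimalPeriod_le hp'
  omega

/-- Shift the number `i` of an element of a cycle into the first `l` steps. -/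
theorem cycle_mod {d y : ℤ} {l : ℕ} (h : (T d)^[l] y = y) (i : ℕ) :
    (T d)^[i % l] y = (T d)^[i] y := by
  have h1 : Function.IsPeriodicPt (T d) l y := h
  exact (h1.iterate_mod_apply i)

/-- `reach_cycle` and `cycle_min_uniform`: `|z| ≤ A |d| (K₂ s) ^ B ≤ K |d| s ^ K` for
`K ≥ max (⌈A⌉ * K₂ ^ B) B`. -/
theorem uniform_hitting (C M : ℕ) : ∃ K : ℕ, ∀ d : ℤ, Odd d → ∀ x : ℤ,
    (∀ n : ℕ, M * (Nat.log 2 d.natAbs + 1) ≤ n → complexity d x n ≤ C * n) →
    ∃ k l : ℕ, k ≤ K * (Nat.log 2 x.natAbs + Nat.log 2 d.natAbs + 1) ∧ 1 ≤ l ∧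
      l ≤ K * (Nat.log 2 d.natAbs + 1) ∧ (T d)^[k + l] x = (T d)^[k] x ∧
      |(T d)^[k] x| ≤ K * |d| * (Nat.log 2 d.natAbs + 1) ^ K := by
  obtain ⟨K₂, hK₂⟩ := reach_cycle C M
  obtain ⟨A, B, hA, hAB⟩ := cycle_min_uniform
  refine ⟨max (⌈A⌉₊ * K₂ ^ B) B + 2 * K₂, fun d hd x hx => ?_⟩
  obtain ⟨k, l, hk, hl1, hl2, hl3⟩ := hK₂ d hd x hx
  obtain ⟨i, hi⟩ := hAB d hd _ l hl1 hl3
  rw [← cycle_mod hl3 i] at hi
  set s : ℕ := Nat.log 2 d.natAbs + 1 with hs
  have hs1 : 1 ≤ s := by omega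
  set K : ℕ := max (⌈A⌉₊ * K₂ ^ B) B + 2 * K₂ with hKdef
  have hK2 : 2 * K₂ ≤ K := by omega
  refine ⟨i % l + k, l, ?_, hl1, hl2.trans (Nat.mul_le_mul_right s (by omega)), ?_, ?_⟩
  · have h1 : i % l < l := Nat.mod_lt _ hl1
    have h2 : K₂ * s ≤ K₂ * (Nat.log 2 x.natAbs + Nat.log 2 d.natAbs + 1) :=
      Nat.mul_le_mul_left K₂ (by omega)
    calc i % l + k ≤ 2 * K₂ * (Nat.log 2 x.natAbs + Nat.log 2 d.natAbs + 1) := by
          rw [mul_assoc]; omega
      _ ≤ K * (Nat.log 2 x.natAbs + Nat.log 2 d.natAbs + 1) := Nat.mul_le_mul_right _ hK2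
  · have e1 : i % l + k + l = i % l + (l + k) := by ring
    rw [e1, Function.iterate_add_apply, Function.iterate_add_apply, hl3,
      ← Function.iterate_add_apply]
  · rw [← Function.iterate_add_apply] at hi
    have h1 : (l : ℝ) ≤ (K₂ : ℝ) * s := by exact_mod_cast hl2
    have h2 : A ≤ (⌈A⌉₊ : ℝ) := Nat.le_ceil A
    have hsr : (1 : ℝ) ≤ s := by exact_mod_cast hs1
    have h3 : ((⌈A⌉₊ : ℝ) * (K₂ : ℝ) ^ B) ≤ (K : ℝ) := by
      have h31 : ⌈A⌉₊ * K₂ ^ B ≤ K := (le_max_left (⌈A⌉₊ * K₂ ^ B) B).trans (Nat.le_add_right _ _)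
      exact_mod_cast h31
    have h4 : (s : ℝ) ^ B ≤ (s : ℝ) ^ K :=
      pow_le_pow_right₀ hsr ((le_max_right (⌈A⌉₊ * K₂ ^ B) B).trans (Nat.le_add_right _ _))
    have h5 : |(((T d)^[i % l + k] x : ℤ) : ℝ)| ≤ (K : ℝ) * |(d : ℝ)| * (s : ℝ) ^ K := by
      calc |(((T d)^[i % l + k] x : ℤ) : ℝ)| ≤ A * |(d : ℝ)| * (l : ℝ) ^ B := hi
        _ ≤ (⌈A⌉₊ : ℝ) * |(d : ℝ)| * ((K₂ : ℝ) * s) ^ B := by gcongr
        _ = ((⌈A⌉₊ : ℝ) * (K₂ : ℝ) ^ B) * |(d : ℝ)| * (s : ℝ) ^ B := by rw [mul_pow]; ring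
        _ ≤ (K : ℝ) * |(d : ℝ)| * (s : ℝ) ^ K := by gcongr
    have h6 : |(T d)^[i % l + k] x| ≤ (K : ℤ) * |d| * ((s : ℕ) : ℤ) ^ K := by exact_mod_cast h5
    rw [hs] at h6
    push_cast at h6
    exact h6

end Pool.Agent.Lib.MP_d0d59f_nt.Un

end
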