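import Pool.Agent.Lib.MP_d0d59f_nt.Un.Definitions
import Pool.Agent.Lib.MP_d0d59f_nt.Un.WordCuttings
import Pool.Agent.Lib.MP_d0d59f_nt.Un.CutTheorem

/-!
Morphic words have cuttings.
-/

section

namespace Pool.Agent.Lib.MP_d0d59f_nt.Un

variable {k : ℕ} {σ : Fin k → List (Fin k)}

theorem img_zero (v : List (Fin k)) : img σ 0 v = v := rfl

/-- `Function.iterate_add_apply` -/
theorem img_add (m n : ℕ) (v : List (Fin k)) : img σ (m + n) v = img σ m (img σ n v) := by
  unfold img
  exact Function.iterate_add_apply _ m n v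

/-- Induction on `n`, `List.flatMap_append`. -/
theorem img_append (n : ℕ) (v v' : List (Fin k)) : img σ n (v ++ v') = img σ n v ++ img σ n v' := by
  induction n generalizing v v' with
  | zero => rfl
  | succ n ih =>
    have e : ∀ w : List (Fin k), img σ (n + 1) w = img σ n (w.flatMap σ) := fun w => by
      rw [img_add n 1 w]
      rfl
    rw [e, e, e, List.flatMap_append, ih]

theorem img_nil (n : ℕ) : img σ n [] = [] := by
  have h := img_append (σ := σ) n [] []
  rw [List.append_nil] at h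
  have h2 := congrArg List.length h
  rw [List.length_append] at h2
  exact List.eq_nil_of_length_eq_zero (by omega)

/-- Induction on `v` with `img_append`. -/
theorem img_eq_flatMap (n : ℕ) (v : List (Fin k)) : img σ n v = v.flatMap fun b => img σ n [b] := by
  induction v with
  | nil => rw [img_nil]; rfl
  | cons b v ih =>
    have e : b :: v = [b] ++ v := rfl
    rw [e, img_append, ih, List.flatMap_append]
    simp

theorem img_length (n : ℕ) (v : List (Fin k)) : (img σ n v).length = (v.map (len σ n)).sum := by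
  rw [img_eq_flatMap, List.length_flatMap]
  rfl

/-- `len σ (m + n) b` is the sum of the lengths of the images of the letters of `σ^n(b)`. -/
theorem len_add (m n : ℕ) (b : Fin k) : len σ (m + n) b = ((img σ n [b]).map (len σ m)).sum := by
  unfold len
  rw [img_add]
  exact img_length m _

/-- If `σ a = a :: u` then `σ^(n+1)(a) = σ^n(a) σ^n(u)`. -/
theorem img_succ {a : Fin k} {u : List (Fin k)} (h : σ a = a :: u) (n : ℕ) :
    img σ (n + 1) [a] = img σ n [a] ++ img σ n u := by
  rw [img_add n 1]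
  have e : img σ 1 [a] = [a] ++ u := by
    have : img σ 1 [a] = [a].flatMap σ := rfl
    rw [this]
    simp [h]
  rw [e, img_append]

/-- `σ^n(a)` is an initial segment of `σ^m(a)` for `n ≤ m`. -/
theorem img_initial {a : Fin k} {u : List (Fin k)} (h : σ a = a :: u) {n m : ℕ} (hnm : n ≤ m) :
    ∃ v, img σ m [a] = img σ n [a] ++ v := by
  induction m, hnm using Nat.le_induction with
  | base => exact ⟨[], (List.append_nil _).symm⟩
  | succ m _ ih =>
    obtain ⟨v, hv⟩ := ih
    exact ⟨v ++ img σ m u, by rw [img_succ h, hv, List.append_assoc]⟩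

theorem len_mono {a : Fin k} {u : List (Fin k)} (h : σ a = a :: u) : Monotone fun n => len σ n a := by
  intro n m hnm
  obtain ⟨v, hv⟩ := img_initial h hnm
  have e1 : len σ n a = (img σ n [a]).length := rfl
  have e2 : len σ m a = (img σ m [a]).length := rfl
  simp only [e1, e2, hv, List.length_append]
  omega

theorem um1_get {a : Fin k} {u : List (Fin k)} (h : σ a = a :: u) {n m : ℕ} (hnm : n ≤ m) {t : ℕ}
    (h1 : t < (img σ n [a]).length) (h2 : t < (img σ m [a]).length) :
    (img σ m [a])[t] = (img σ n [a])[t] := by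
  obtain ⟨v, hv⟩ := img_initial h hnm
  simp only [hv]
  exact List.getElem_append_left h1

/-- Unbounded lengths give the infinite word: `y t` = the letter number `t` of `σ^n(a)` for any `n` with
`t < len σ n a` (`img_initial`, `List.getElem_append_left`). -/
theorem exists_limit {a : Fin k} {u : List (Fin k)} (h : σ a = a :: u)
    (hu : ∀ N, ∃ n, N < len σ n a) : ∃ y, Limit σ a y := by
  choose N hN using hu
  refine ⟨fun t => (img σ (N t) [a])[t]'(hN t), ⟨u, h⟩, fun n t ht => ?_, fun M => ⟨N M, hN M⟩⟩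
  have hNt : t < (img σ (N t) [a]).length := hN t
  rcases le_total n (N t) with hle | hle
  · exact (um1_get h hle ht hNt).symm
  · exact um1_get h hle hNt ht

end Pool.Agent.Lib.MP_d0d59f_nt.Un

end

section

namespace Pool.Agent.Lib.MP_d0d59f_nt.Un

variable {k : ℕ} {σ : Fin k → List (Fin k)} {a : Fin k} {y : ℕ → Fin k}

/-- The first `i` letters of `y` form an initial segment of some `σ^m(a)`. -/
theorem Limit.exists_initial (h : Limit σ a y) (i : ℕ) : ∃ m v,
    img σ m [a] = (List.range i).map y ++ v := by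
  obtain ⟨m, hm⟩ := h.unb i
  refine ⟨m, (img σ m [a]).drop i, ?_⟩
  have hl : i < (img σ m [a]).length := hm
  have h1 : (img σ m [a]).take i = (List.range i).map y := by
    apply List.ext_getElem
    · simp only [List.length_take, List.length_map, List.length_range]
      omega
    · intro t h1 h2
      rw [List.getElem_take, List.getElem_map, List.getElem_range]
      exact h.eq m t _
  rw [← h1, List.take_append_drop]

theorem UM2_sum (n i : ℕ) :
    (((List.range i).map y).map (len σ n)).sum = pos σ y n i := by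
  unfold pos
  induction i with
  | zero => simp
  | succ i ih =>
    rw [List.range_succ, List.map_append, List.map_append, List.sum_append, ih,
      Finset.sum_range_succ]
    simp

/-- Let `V = [y 0, ..., y (i - 1)]` and `σ^m(a) = V ++ [y i] ++ v` (`exists_initial` for `i + 1`). Then
`σ^(n+m)(a) = σ^n(V) ++ σ^n(y i) ++ σ^n(v)` (`img_add`, `img_append`) and the length of `σ^n(V)` is
`pos σ y n i` (`img_length`). So the letter number `pos σ y n i + t` of `y` is the letter number `t` of
`σ^n(y i)`. -/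
theorem Limit.image (h : Limit σ a y) (n i t : ℕ) (ht : t < (img σ n [y i]).length) :
    y (pos σ y n i + t) = (img σ n [y i])[t] := by
  obtain ⟨m, v, hm⟩ := h.exists_initial (i + 1)
  have h1 : img σ (n + m) [a] = img σ n ((List.range i).map y) ++ (img σ n [y i] ++ img σ n v) := by
    rw [img_add, hm, List.range_succ, List.map_append, img_append, img_append, List.append_assoc]
    rfl
  have h2 : (img σ n ((List.range i).map y)).length = pos σ y n i := by
    rw [img_length, UM2_sum]
  have hlt : pos σ y n i + t < (img σ (n + m) [a]).length := by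
    rw [h1, List.length_append, List.length_append, h2]
    omega
  have h3 := h.eq (n + m) (pos σ y n i + t) hlt
  have h4 : (img σ (n + m) [a])[pos σ y n i + t]? = some (y (pos σ y n i + t)) := by
    rw [List.getElem?_eq_getElem hlt, h3]
  rw [h1, List.getElem?_append_right (by rw [h2]; omega), h2, Nat.add_sub_cancel_left,
    List.getElem?_append_left ht, List.getElem?_eq_getElem ht] at h4
  exact (Option.some.inj h4).symm

theorem pos_succ (n i : ℕ) : pos σ y n (i + 1) = pos σ y n i + len σ n (y i) := by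
  unfold pos
  rw [Finset.sum_range_succ]

theorem pos_mono (n : ℕ) : Monotone (pos σ y n) := by
  apply monotone_nat_of_le_succ
  intro i
  rw [pos_succ]
  omega

theorem UM2_flatMap_le {W : ℕ} (hW : ∀ b, (σ b).length ≤ W) (l : List (Fin k)) :
    (l.flatMap σ).length ≤ W * l.length := by
  induction l with
  | nil => simp
  | cons b l ih =>
    rw [List.flatMap_cons, List.length_append, List.length_cons, Nat.mul_add, Nat.mul_one]
    have := hW b
    omega

theorem UM2_len_succ {W : ℕ} (hW : ∀ b, (σ b).length ≤ W) (n : ℕ) (a : Fin k) :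
    len σ (n + 1) a ≤ W * len σ n a := by
  unfold len img
  rw [Function.iterate_succ_apply']
  exact UM2_flatMap_le hW _

theorem UM2_len_pow {W : ℕ} (hW : ∀ b, (σ b).length ≤ W) (n m : ℕ) (a : Fin k) :
    len σ (n + m) a ≤ W ^ m * len σ n a := by
  induction m with
  | zero => simp
  | succ m ih =>
    have h1 := UM2_len_succ hW (n + m) a
    calc len σ (n + (m + 1)) a ≤ W * len σ (n + m) a := h1
      _ ≤ W * (W ^ m * len σ n a) := Nat.mul_le_mul_left _ ih
      _ = W ^ (m + 1) * len σ n a := by ring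

/-- Every letter of `y` occurs in some `σ^s(a)`, so `len σ n (y i) ≤ len σ (n + s) a` (`len_add`), and
`len σ (n + 1) a ≤ W * len σ n a` where `W ≥ 1` bounds the lengths of all the `σ b`
(`img σ (n + 1) [a] = (img σ n [a]).flatMap σ`, `Function.iterate_succ_apply'`); there are only finitely many
letters (take for every letter `b` which occurs an `s b`). -/
theorem Limit.len_le (h : Limit σ a y) : ∃ D₁ : ℕ, ∀ n i, len σ n (y i) ≤ D₁ * len σ n a := by
  obtain ⟨W, hWdef⟩ : ∃ W : ℕ, W = ∑ b : Fin k, (σ b).length := ⟨_, rfl⟩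
  have hW : ∀ b, (σ b).length ≤ W := by
    intro b
    rw [hWdef]
    exact Finset.single_le_sum (f := fun b => (σ b).length) (fun _ _ => Nat.zero_le _)
      (Finset.mem_univ b)
  have key : ∀ b : Fin k, ∃ D : ℕ, ∀ i, y i = b → ∀ n, len σ n b ≤ D * len σ n a := by
    intro b
    by_cases hb : ∃ i, y i = b
    · obtain ⟨i, hi⟩ := hb
      obtain ⟨m, v, hm⟩ := h.exists_initial (i + 1)
      refine ⟨W ^ m, fun _ _ n => ?_⟩
      refine le_trans ?_ (UM2_len_pow hW n m a)
      rw [len_add]
      apply List.single_le_sum (fun _ _ => Nat.zero_le _)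
      apply List.mem_map_of_mem
      rw [hm, List.range_succ, List.map_append, ← hi]
      simp
    · exact ⟨0, fun i hi => absurd ⟨i, hi⟩ hb⟩
  choose D hD using key
  refine ⟨∑ b, D b, fun n i => ?_⟩
  refine (hD (y i) i rfl n).trans ?_
  apply Nat.mul_le_mul_right
  exact Finset.single_le_sum (f := D) (fun _ _ => Nat.zero_le _) (Finset.mem_univ (y i))

end Pool.Agent.Lib.MP_d0d59f_nt.Un

end

section

namespace Pool.Agent.Lib.MP_d0d59f_nt.Un

open Filter

variable {k : ℕ} {σ : Fin k → List (Fin k)} {a : Fin k} {y : ℕ → Fin k}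

/-- If `f (n + 1) < c' f n` for all large `n`, `1 < c' < c`, then `c ^ n ≤ f n` fails for all large `n`. -/
theorem frequently_ratio {f : ℕ → ℕ} {c c' : ℝ} (h1 : 1 < c') (h2 : c' < c)
    (h : ∃ᶠ n in atTop, c ^ n ≤ (f n : ℝ)) : ∃ᶠ n in atTop, c' * f n ≤ (f (n + 1) : ℝ) := by
  rw [Filter.frequently_atTop]
  intro N
  by_contra hcon
  push Not at hcon
  have hc'0 : 0 < c' := by linarith
  have hstep : ∀ j : ℕ, (f (N + j) : ℝ) ≤ c' ^ j * f N := by
    intro j
    induction j with
    | zero => simp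
    | succ j ih =>
      have h3 := hcon (N + j) (Nat.le_add_right N j)
      have h4 : c' * (f (N + j) : ℝ) ≤ c' * (c' ^ j * f N) :=
        mul_le_mul_of_nonneg_left ih hc'0.le
      have h5 : (f (N + (j + 1)) : ℝ) = (f (N + j + 1) : ℝ) := by rw [← add_assoc]
      rw [h5, pow_succ]
      nlinarith
  have hratio : 1 < c / c' := by rwa [one_lt_div hc'0]
  obtain ⟨M, hM⟩ := ((tendsto_pow_atTop_atTop_of_one_lt hratio).eventually_gt_atTop
    (f N : ℝ)).exists_forall_of_atTop
  rw [Filter.frequently_atTop] at h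
  obtain ⟨n, hn, hfn⟩ := h (max N M)
  have hnN : N ≤ n := (le_max_left _ _).trans hn
  have hnM : M ≤ n := (le_max_right _ _).trans hn
  have h6 := hstep (n - N)
  rw [Nat.add_sub_cancel' hnN] at h6
  have h7 : c' ^ (n - N) ≤ c' ^ n := pow_le_pow_right₀ h1.le (Nat.sub_le n N)
  have h8 : (f n : ℝ) ≤ c' ^ n * f N :=
    h6.trans (mul_le_mul_of_nonneg_right h7 (Nat.cast_nonneg _))
  have h9 := hM n hnM
  rw [div_pow, lt_div_iff₀ (by positivity)] at h9
  nlinarith

/-- a letter of the list with the largest value -/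
theorem um3_exists_letter (f : Fin k → ℕ) (v : List (Fin k)) (hv : v ≠ []) :
    ∃ b ∈ v, (v.map f).sum ≤ v.length * f b := by
  have hne : v.toFinset.Nonempty := by
    rwa [List.toFinset_nonempty_iff]
  obtain ⟨b, hb, hmax⟩ := v.toFinset.exists_max_image f hne
  rw [List.mem_toFinset] at hb
  refine ⟨b, hb, ?_⟩
  have h := List.sum_le_card_nsmul (v.map f) (f b) (by
    intro x hx
    obtain ⟨z, hz, rfl⟩ := List.mem_map.1 hx
    exact hmax z (List.mem_toFinset.2 hz))
  simpa using h

/-- Let `c' = (1 + c) / 2`, `σ a = a :: u`. By `frequently_ratio` for infinitely many `n`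
`|σ^n(u)| = len σ (n + 1) a - len σ n a ≥ (c' - 1) len σ n a` (`img_succ`). A letter which is not recurrent occurs
only finitely often in `y`; let `q` be a bound for all these positions and `s` with `len σ s a ≥ q`
(`Limit.unb`). The word `v = σ^s(u)` occupies the positions `len σ s a, ...` of `y` (`img_succ`, `Limit.eq`
for `s + 1`), so all its letters are recurrent. For `n ≥ s`, `|σ^n(u)|` is the sum of
`len σ (n - s) b` over the letters `b` of `v` (`img_add`, `img_length`), so for one of them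
`len σ (n - s) b ≥ (c' - 1) len σ n a / |v| ≥ (c' - 1) len σ (n - s) a / |v|` (`len_mono`). -/
theorem Limit.growth (h : Limit σ a y) {c : ℝ} (hc : 1 < c)
    (hg : ∃ᶠ n in atTop, c ^ n ≤ (len σ n a : ℝ)) : ∃ D₀ : ℕ, 1 ≤ D₀ ∧ ∃ᶠ n in atTop,
      ∃ b, (∀ N, ∃ i, N ≤ i ∧ y i = b) ∧ len σ n a ≤ D₀ * len σ n b := by
  obtain ⟨u, hu⟩ := h.fix
  set c' : ℝ := (1 + c) / 2 with hc'
  have hc1 : 1 < c' := by rw [hc']; linarith
  have hc2 : c' < c := by rw [hc']; linarith
  have hfr := frequently_ratio (f := fun n => len σ n a) hc1 hc2 hg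
  -- a bound for the positions of the letters which are not recurrent
  have hrec : ∀ b : Fin k, ∃ N : ℕ, (∀ M, ∃ i, M ≤ i ∧ y i = b) ∨ ∀ i, N ≤ i → y i ≠ b := by
    intro b
    by_cases hb : ∀ M, ∃ i, M ≤ i ∧ y i = b
    · exact ⟨0, Or.inl hb⟩
    · push Not at hb
      obtain ⟨N, hN⟩ := hb
      exact ⟨N, Or.inr hN⟩
  choose Nb hNb using hrec
  set q : ℕ := Finset.univ.sup Nb with hq
  have hqrec : ∀ i, q ≤ i → ∀ M, ∃ j, M ≤ j ∧ y j = y i := by
    intro i hi
    rcases hNb (y i) with h1 | h1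
    · exact h1
    · exact absurd rfl (h1 i ((Finset.le_sup (Finset.mem_univ (y i))).trans hi))
  obtain ⟨s, hs⟩ := h.unb q
  set v : List (Fin k) := img σ s u with hv
  have hvrec : ∀ b ∈ v, ∀ M, ∃ j, M ≤ j ∧ y j = b := by
    intro b hb
    obtain ⟨t, ht, rfl⟩ := List.mem_iff_getElem.1 hb
    have h1 := img_succ hu s
    have hlen : (img σ s [a]).length + t < (img σ (s + 1) [a]).length := by
      rw [h1, List.length_append]
      exact Nat.add_lt_add_left ht _
    have h2 := h.eq (s + 1) ((img σ s [a]).length + t) hlen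
    have h3 : (img σ (s + 1) [a])[(img σ s [a]).length + t] = v[t] := by
      simp only [h1]
      rw [List.getElem_append_right (Nat.le_add_right _ _)]
      congr 1
      exact Nat.add_sub_cancel_left _ _
    rw [← h3, h2]
    apply hqrec
    unfold len at hs
    omega
  have hlpos : ∀ n, 1 ≤ len σ n a := by
    intro n
    have h1 := len_mono hu (Nat.zero_le n)
    simp only at h1
    have h2 : len σ 0 a = 1 := by
      unfold len
      rw [img_zero]
      rfl
    omega
  have hlen : ∀ n, len σ (n + 1) a = len σ n a + (img σ n u).length := by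
    intro n
    unfold len
    rw [img_succ hu n, List.length_append]
  -- the key estimate
  have hkey : ∀ n, s ≤ n → c' * (len σ n a : ℝ) ≤ (len σ (n + 1) a : ℝ) →
      v ≠ [] ∧ (c' - 1) * (len σ (n - s) a : ℝ) ≤ ((v.map (len σ (n - s))).sum : ℝ) := by
    intro n hn h1
    have h2 : img σ n u = img σ (n - s) v := by
      rw [hv, ← img_add, Nat.sub_add_cancel hn]
    have h3 : (img σ n u).length = (v.map (len σ (n - s))).sum := by
      rw [h2, img_length]
    have h4 : (c' - 1) * (len σ n a : ℝ) ≤ ((v.map (len σ (n - s))).sum : ℝ) := by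
      rw [hlen n, h3] at h1
      push_cast at h1
      push_cast
      linarith
    have h5 : (len σ (n - s) a : ℝ) ≤ (len σ n a : ℝ) := by
      have := len_mono hu (Nat.sub_le n s)
      exact_mod_cast this
    refine ⟨?_, ?_⟩
    · intro hv0
      rw [hv0, List.map_nil, List.sum_nil, Nat.cast_zero] at h4
      have h6 : (1 : ℝ) ≤ (len σ n a : ℝ) := by exact_mod_cast hlpos n
      nlinarith
    · refine le_trans ?_ h4
      exact mul_le_mul_of_nonneg_left h5 (by linarith)
  obtain ⟨D, hD⟩ := exists_nat_gt ((v.length : ℝ) / (c' - 1))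
  refine ⟨D + 1, by omega, ?_⟩
  rw [Filter.frequently_atTop] at hfr ⊢
  intro M
  obtain ⟨n, hn, hn2⟩ := hfr (M + s)
  have hsn : s ≤ n := by omega
  obtain ⟨hv0, hsum⟩ := hkey n hsn hn2
  obtain ⟨b, hb, hb2⟩ := um3_exists_letter (len σ (n - s)) v hv0
  refine ⟨n - s, by omega, b, hvrec b hb, ?_⟩
  have hc0 : 0 < c' - 1 := by linarith
  have h1 : (c' - 1) * (len σ (n - s) a : ℝ) ≤ (v.length : ℝ) * (len σ (n - s) b : ℝ) := by
    refine hsum.trans ?_
    exact_mod_cast hb2
  have h2 : (v.length : ℝ) ≤ D * (c' - 1) := by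
    rw [div_lt_iff₀ hc0] at hD
    exact hD.le
  have h3 : (len σ (n - s) a : ℝ) ≤ (D : ℝ) * (len σ (n - s) b : ℝ) := by
    have h4 : (c' - 1) * (len σ (n - s) a : ℝ) ≤ (c' - 1) * ((D : ℝ) * (len σ (n - s) b : ℝ)) := by
      refine h1.trans ?_
      have := mul_le_mul_of_nonneg_right h2 (Nat.cast_nonneg (α := ℝ) (len σ (n - s) b))
      linarith
    exact le_of_mul_le_mul_left h4 hc0
  have h4 : len σ (n - s) a ≤ D * len σ (n - s) b := by exact_mod_cast h3
  calc len σ (n - s) a ≤ D * len σ (n - s) b := h4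
    _ ≤ (D + 1) * len σ (n - s) b := Nat.mul_le_mul_right _ (Nat.le_succ D)

end Pool.Agent.Lib.MP_d0d59f_nt.Un

end

section

namespace Pool.Agent.Lib.MP_d0d59f_nt.Un

open Filter

variable {k : ℕ} {σ : Fin k → List (Fin k)} {a : Fin k} {y : ℕ → Fin k}

/-- For every `I` there is `Y` such that every recurrent letter occurs at least `I` times among the first
`Y` letters. -/
theorem exists_occurrences (y : ℕ → Fin k) (I : ℕ) : ∃ Y : ℕ, ∀ b, (∀ N, ∃ i, N ≤ i ∧ y i = b) →
    I ≤ ((Finset.range Y).filter fun i => y i = b).card := by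
  classical
  have h1 : ∀ b : Fin k, ∃ Y : ℕ, (∀ N, ∃ i, N ≤ i ∧ y i = b) →
      I ≤ ((Finset.range Y).filter fun i => y i = b).card := by
    intro b
    by_cases hb : ∀ N, ∃ i, N ≤ i ∧ y i = b
    · have hinf : {i | y i = b}.Infinite :=
        Nat.frequently_atTop_iff_infinite.1 (frequently_atTop.2 hb)
      refine ⟨Nat.nth (fun i => y i = b) I, fun _ => ?_⟩
      rw [← Nat.count_eq_card_filter_range, Nat.count_nth_of_infinite hinf]
    · exact ⟨0, fun h => absurd h hb⟩
  choose Yb hYb using h1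
  refine ⟨Finset.univ.sup Yb, fun b hb => (hYb b hb).trans (Finset.card_le_card ?_)⟩
  refine Finset.filter_subset_filter _ ?_
  intro i hi
  rw [Finset.mem_range] at hi ⊢
  exact hi.trans_le (Finset.le_sup (f := Yb) (Finset.mem_univ b))

theorem UM4_pos_short {n ε i : ℕ} (d : ℕ)
    (hs : ∀ s, i ≤ s → s < i + d → len σ n (y s) ≤ ε) :
    pos σ y n (i + d) ≤ pos σ y n i + d * ε := by
  induction d with
  | zero => simp
  | succ d ih =>
    have h1 := ih fun s h1 h2 => hs s h1 (by omega)
    have h2 := hs (i + d) (by omega) (by omega)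
    rw [← add_assoc, pos_succ, add_mul, one_mul]
    omega

theorem UM4_getElem_congr {n : ℕ} {b b' : Fin k} (hb : b = b') (t : ℕ)
    (h : t < (img σ n [b]).length) (h' : t < (img σ n [b']).length) :
    (img σ n [b])[t] = (img σ n [b'])[t] := by
  subst hb
  rfl

/-- `D₀` from `Limit.growth`, `D₁` from `Limit.len_le`, `Y I` from `exists_occurrences`. Put
`K' D = 2 * D * (D₁ + 1) + k + 1`, `I D = F (K' D) + 1`, `M D = (F (K' D) + 1) * (Y (I D) + 2)`. `exists_scale`
for these `M`, the `k` letters and `D₀` gives `D2`; `K₀ = K' D2`. Given `N` let `n` be such that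
`len σ n a ≥ N * D2 + D2` (`tendsto`: `len_mono`, `Limit.unb`) and a recurrent `b₀` with
`len σ n a ≤ D₀ * len σ n b₀` exists. `exists_scale` for the number `len σ n a` and the lengths
`len σ n b` if `b` occurs in `y`, `0` otherwise, gives `D`; `K = K' D`, `L = len σ n a / D ≥ N`,
`ε = L / M D ≥ 1`, `F K ≤ M D ≤ L`, `len σ n a ≤ 2 D L`. `b₀` is long: `len σ n b₀ ≥ len σ n a / D₀ ≥ L`.
Let `Z = Y (I D)`, `W = pos σ y n Z`; `W ≥ I D * L ≥ F K * L`. The word is
`w' t = φ (y t)` for `t < W`, `false` for `t ≥ W`. `cutting_of_steps` with `Good u := ∃ i ≤ Z, u = pos σ y n i`,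
`Ty b v e := ∃ i < Z`, `y i` is the letter with number `b` (`(y i : ℕ) = b`), `v = pos σ y n i`,
`e = pos σ y n (i + 1)`, `u₀ = 0`.
Step from `pos σ y n i`: let `i' ≥ i` be the least index `< Z` for which `y i'` is long, if there is one:
`v = pos σ y n i'`, `e = pos σ y n (i' + 1)`, `p = Z * ε + 1`; all the letters from `i` to `i' - 1` are short, so
`v < pos σ y n i + p` and the condition on the period is empty; `F K * p ≤ F K * (Z + 1) * ε ≤ L`;
`e ≤ v + D₁ * len σ n a ≤ v + K * L`. If there is no such `i'`: `v = e = W`, `q = 1`.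
`hTy`: `Limit.image`. -/
theorem Limit.exists_cutting (h : Limit σ a y) {c : ℝ} (hc : 1 < c)
    (hg : ∃ᶠ n in atTop, c ^ n ≤ (len σ n a : ℝ)) (φ : Fin k → Bool) (F : ℕ → ℕ) :
    ∃ K₀ : ℕ, ∀ N : ℕ, ∃ K L : ℕ, 1 ≤ K ∧ K ≤ K₀ ∧ F K ≤ L ∧ N ≤ L ∧
      ∃ (w : ℕ → Bool) (P : ℕ → ℕ) (ty : ℕ → Option (Fin K)) (p : ℕ → ℕ),
        Cutting w K (F K) L P ty p ∧ ∀ t < F K * L, w t = φ (y t) := by
  classical
  obtain ⟨D₀, hD₀, hfreq⟩ := h.growth hc hg
  obtain ⟨D₁, hD₁⟩ := h.len_le
  obtain ⟨u, hu⟩ := h.fix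
  choose Yf hYf using exists_occurrences y
  let K' : ℕ → ℕ := fun D => 2 * D * (D₁ + 1) + k + 1
  let M : ℕ → ℕ := fun D => (F (K' D) + 1) * (Yf (F (K' D) + 1) + 2)
  have hM : ∀ D, 1 ≤ M D := fun D => Nat.one_le_iff_ne_zero.2 (by positivity)
  obtain ⟨D2, hD2, hscale⟩ := exists_scale k D₀ hD₀ M hM
  refine ⟨K' D2, fun N => ?_⟩
  -- the level
  obtain ⟨n0, hn0⟩ := h.unb (N * D2 + D2)
  obtain ⟨n, ⟨b₀, hb₀, hb₀len⟩, hn⟩ := (hfreq.and_eventually (eventually_ge_atTop n0)).exists
  have hA : N * D2 + D2 < len σ n a := hn0.trans_le (len_mono hu hn)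
  set A := len σ n a with hAdef
  obtain ⟨D, hDD₀, hDD2, hε, hdich⟩ := hscale A (by nlinarith) (fun b => len σ n b)
  have hD : 0 < D := by omega
  set L := A / D with hL
  set ε := L / M D with hεdef
  set K := K' D with hK
  set Z := Yf (F K + 1) with hZ
  have hMD : M D = (F K + 1) * (Z + 2) := rfl
  have hMε : M D * ε ≤ L := Nat.mul_div_le _ _
  have hFL : F K + 1 ≤ L := by
    have h1 : F K + 1 ≤ M D := by rw [hMD]; nlinarith
    have h2 : M D ≤ M D * ε := Nat.le_mul_of_pos_right _ hε
    omega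
  have hL1 : 1 ≤ L := by omega
  have hK1 : 1 ≤ K := by simp only [hK, K']; omega
  have hKD : 2 * D * (D₁ + 1) ≤ K := by simp only [hK, K']; omega
  have hKk : k < K := by simp only [hK, K']; omega
  have hNL : N ≤ L := by
    rw [hL, Nat.le_div_iff_mul_le hD]
    nlinarith
  have hA2 : A ≤ 2 * D * L := by
    have h1 : A < D * (L + 1) := by
      rw [hL]
      exact Nat.lt_mul_div_succ A hD
    nlinarith
  have hb₀L : L ≤ len σ n b₀ := by
    rw [hL]
    refine Nat.div_le_of_le_mul (hb₀len.trans ?_)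
    exact Nat.mul_le_mul_right _ hDD₀
  have hlen : ∀ i, len σ n (y i) ≤ K * L := by
    intro i
    calc len σ n (y i) ≤ D₁ * A := hD₁ n i
      _ ≤ D₁ * (2 * D * L) := Nat.mul_le_mul_left _ hA2
      _ = (2 * D * D₁) * L := by ring
      _ ≤ K * L := Nat.mul_le_mul_right _ (by nlinarith)
  set W := pos σ y n Z with hW
  have hWge : F K * L ≤ W := by
    have h1 : F K + 1 ≤ ((Finset.range Z).filter fun i => y i = b₀).card := hYf _ b₀ hb₀
    calc F K * L ≤ ((Finset.range Z).filter fun i => y i = b₀).card * L :=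
          Nat.mul_le_mul_right _ (by omega)
      _ = ∑ i ∈ (Finset.range Z).filter (fun i => y i = b₀), L := by
          rw [Finset.sum_const, smul_eq_mul]
      _ ≤ ∑ i ∈ (Finset.range Z).filter (fun i => y i = b₀), len σ n (y i) := by
          refine Finset.sum_le_sum fun i hi => ?_
          rw [(Finset.mem_filter.1 hi).2]
          exact hb₀L
      _ ≤ ∑ i ∈ Finset.range Z, len σ n (y i) :=
          Finset.sum_le_sum_of_subset (Finset.filter_subset _ _)
  have hFp : F K * (Z * ε + 1) ≤ L := by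
    refine le_trans ?_ hMε
    rw [hMD, mul_assoc]
    refine Nat.mul_le_mul (Nat.le_succ _) ?_
    rw [add_mul]
    omega
  -- the word
  let w : ℕ → Bool := fun t => if t < W then φ (y t) else false
  have hwlt : ∀ t, t < W → w t = φ (y t) := fun t ht => if_pos ht
  have hwge : ∀ t, W ≤ t → w t = false := fun t ht => if_neg (by omega)
  have hmono : Monotone (pos σ y n) := pos_mono n
  obtain ⟨P, ty, p, hcut⟩ := cutting_of_steps (w := w) (K := K) (E := F K) (L := L)
    (fun u => ∃ i, i ≤ Z ∧ u = pos σ y n i)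
    (fun b v e => ∃ i, i < Z ∧ (y i : ℕ) = (b : ℕ) ∧ v = pos σ y n i ∧ e = pos σ y n (i + 1))
    (by
      rintro b v e v' e' ⟨i, hi, hib, rfl, rfl⟩ ⟨i', hi', hib', rfl, rfl⟩
      have hy : y i = y i' := Fin.ext (hib.trans hib'.symm)
      refine ⟨?_, ?_⟩
      · rw [pos_succ, pos_succ, hy]
        ring
      · intro t ht
        have h1 : pos σ y n (i + 1) ≤ W := hmono hi
        have h2 : pos σ y n (i' + 1) ≤ W := hmono hi'
        have ht1 : t < len σ n (y i) := by
          rw [pos_succ] at ht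
          omega
        have ht2 : t < len σ n (y i') := hy ▸ ht1
        have h3 : pos σ y n i' + t < W := by
          rw [pos_succ] at h2
          omega
        rw [hwlt _ (ht.trans_le h1), hwlt _ h3, h.image n i t ht1, h.image n i' t ht2]
        exact congrArg φ (UM4_getElem_congr hy t ht1 ht2))
    (by omega)
    (by
      rintro u ⟨i, hi, rfl⟩
      by_cases hex : ∃ j, i ≤ j ∧ j < Z ∧ L ≤ len σ n (y j)
      · obtain ⟨hj1, hj2, hj3⟩ := Nat.find_spec hex
        have hmin : ∀ s, i ≤ s → s < Nat.find hex → len σ n (y s) ≤ ε := by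
          intro s hs1 hs2
          have h1 := Nat.find_min hex hs2
          rcases hdich (y s) with h2 | h2
          · exact h2
          · exact absurd ⟨hs1, hs2.trans hj2, h2⟩ h1
        obtain ⟨d, hd⟩ := Nat.exists_eq_add_of_le hj1
        have hv : pos σ y n (Nat.find hex) ≤ pos σ y n i + Z * ε := by
          have h1 := UM4_pos_short (σ := σ) (y := y) (n := n) (ε := ε) (i := i) d
            (fun s h1 h2 => hmin s h1 (by omega))
          rw [← hd] at h1
          refine h1.trans (Nat.add_le_add_left (Nat.mul_le_mul_right _ ?_) _)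
          omega
        refine ⟨pos σ y n (Nat.find hex), pos σ y n (Nat.find hex + 1), Z * ε + 1,
          hmono hj1, hmono (Nat.le_succ _), ?_, Nat.succ_pos _, hFp, ?_, Or.inl ⟨⟨_, hj2, rfl⟩,
          ⟨(y (Nat.find hex) : ℕ), (y (Nat.find hex)).2.trans hKk⟩, ⟨_, hj2, rfl, rfl, rfl⟩, ?_⟩⟩
        · rw [pos_succ]
          exact Nat.add_le_add_left (hlen _) _
        · intro t h1 h2
          omega
        · rw [pos_succ]
          exact Nat.add_le_add_left hj3 _
      · push Not at hex
        obtain ⟨d, hd⟩ := Nat.exists_eq_add_of_le hi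
        have hv : W ≤ pos σ y n i + Z * ε := by
          have h1 := UM4_pos_short (σ := σ) (y := y) (n := n) (ε := ε) (i := i) d
            (fun s h1 h2 => by
              rcases hdich (y s) with h3 | h3
              · exact h3
              · exact absurd h3 (not_le.2 (hex s h1 (by omega))))
          rw [← hd] at h1
          refine h1.trans (Nat.add_le_add_left (Nat.mul_le_mul_right _ ?_) _)
          omega
        refine ⟨W, W, Z * ε + 1, hmono hi, le_rfl, Nat.le_add_right _ _, Nat.succ_pos _, hFp, ?_,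
          Or.inr ⟨1, one_pos, ?_, ?_⟩⟩
        · intro t h1 h2
          omega
        · exact Nat.one_le_iff_ne_zero.2 (by positivity)
        · intro t ht
          rw [hwge t ht, hwge (t + 1) (by omega)])
    (u₀ := 0) (Nat.zero_le _) (Or.inl ⟨0, Nat.zero_le _, by simp [pos]⟩)
  refine ⟨K, L, hK1, ?_, by omega, hNL, w, P, ty, p, hcut, fun t ht => hwlt t (ht.trans_le hWge)⟩
  simp only [hK, K']
  have h1 : 2 * D * (D₁ + 1) ≤ 2 * D2 * (D₁ + 1) :=
    Nat.mul_le_mul_right _ (Nat.mul_le_mul_left _ hDD2)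
  omega

end Pool.Agent.Lib.MP_d0d59f_nt.Un

end

section

namespace Pool.Agent.Lib.MP_d0d59f_nt.Un

open Filter

/-- No orbit which is not eventually periodic has a parity word which is morphic of exponential growth.
Proof. The lengths are unbounded (`c ^ n → ∞`), `exists_limit` gives `y`. Choose `F K = E` from `gt_main K`
and `K₀` from `Limit.exists_cutting`. Let `N` be so large that `|x| ≤ 2 ^ N` and `|d| ^ (F K) ≤ 2 ^ N` for all
`K ≤ K₀`. `gt_main` for the cutting. -/
theorem morphic_periodic {k : ℕ} (σ : Fin k → List (Fin k)) (a : Fin k) (u : List (Fin k))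
    (hσ : σ a = a :: u) (φ : Fin k → Bool) (c : ℝ) (hc : 1 < c)
    (hg : ∃ᶠ n in atTop, c ^ n ≤ (((img σ n [a]).length : ℕ) : ℝ)) (d : ℤ) (hd : Odd d) (x : ℤ)
    (hx : ∀ n t, (h : t < (img σ n [a]).length) →
      ((T d)^[t] x % 2 = 1 ↔ φ ((img σ n [a])[t]) = true)) :
    ∃ m q : ℕ, 0 < q ∧ (T d)^[m + q] x = (T d)^[m] x := by
  have hunb : ∀ N, ∃ n, N < len σ n a := by
    intro N
    obtain ⟨n0, hn0⟩ := Filter.eventually_atTop.1
      ((tendsto_pow_atTop_atTop_of_one_lt hc).eventually_gt_atTop (N : ℝ))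
    obtain ⟨n, hn, hcn⟩ := (Filter.frequently_atTop.1 hg) n0
    refine ⟨n, ?_⟩
    have h2 : (N : ℝ) < (((img σ n [a]).length : ℕ) : ℝ) := lt_of_lt_of_le (hn0 n hn) hcn
    exact_mod_cast h2
  obtain ⟨y, hy⟩ := exists_limit hσ hunb
  choose F hF using gt_main
  obtain ⟨K₀, hK₀⟩ := hy.exists_cutting hc hg φ F
  obtain ⟨K, L, h1, hK, hFL, hNL, w, P, ty, p, hcut, hw⟩ :=
    hK₀ (x.natAbs + ∑ K ∈ Finset.range (K₀ + 1), d.natAbs ^ (F K))
  have hpow : ∀ n M : ℕ, n ≤ M → ((n : ℕ) : ℤ) ≤ 2 ^ M := by
    intro n M hnM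
    have h3 : n ≤ 2 ^ M := le_trans hnM (Nat.lt_two_pow_self).le
    exact_mod_cast h3
  have hx1 : |x| ≤ 2 ^ (K * L) := by
    rw [Int.abs_eq_natAbs]
    apply hpow
    have h4 : x.natAbs ≤ L := by omega
    nlinarith
  have hd1 : |d| ^ (F K) ≤ 2 ^ L := by
    rw [Int.abs_eq_natAbs]
    have h5 : d.natAbs ^ (F K) ≤ L := by
      have h6 : d.natAbs ^ (F K) ≤ ∑ K ∈ Finset.range (K₀ + 1), d.natAbs ^ (F K) :=
        Finset.single_le_sum (f := fun K => d.natAbs ^ (F K)) (fun _ _ => Nat.zero_le _)
          (Finset.mem_range.2 (by omega))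
      omega
    have h7 := hpow _ _ h5
    push_cast at h7 ⊢
    exact h7
  obtain ⟨m, q, hq, _, he⟩ := hF K d hd L hFL hd1 x hx1 w P ty p hcut (by
    intro t ht
    obtain ⟨n, hn⟩ := hunb t
    have h8 : t < (img σ n [a]).length := hn
    rw [hx n t h8, hw t ht, hy.eq n t h8])
  exact ⟨m, q, hq, he⟩

end Pool.Agent.Lib.MP_d0d59f_nt.Un

end
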