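import Pool.Agent.Lib.MP_d0d59f_nt.Un.Definitions
import Pool.Agent.Lib.MP_d0d59f_nt.Un.Dynamics
import Pool.Agent.Lib.MP_d0d59f_nt.Sub.OrbitSize

/-!
The series of the blocks and the size of its terms.
-/

section

namespace Pool.Agent.Lib.MP_d0d59f_nt.Un

open Filter Topology Auto Lin

/-- exponents of `2` -/
def exA (P : ℕ → ℕ → ℕ) (t m : ℕ) : ℕ := P t m - P 0 m

/-- exponents of `3` -/
def exB (d x : ℕ → ℤ) (P : ℕ → ℕ → ℕ) (t m : ℕ) : ℕ :=
  ones (d m) ((T (d m))^[P 0 m] (x m)) (P t m - P 0 m)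

/-- the coefficients: `(0, α i)` for `t = 2 i`, (the unit vector of the type, `β i`) for `t = 2 i + 1` -/
def cf {K : ℕ} (ty : ℕ → ℕ → Fin K) (α β : ℕ → ℕ → ℚ) (t : ℕ) (a : Fin (K + 1)) (m : ℕ) : ℚ :=
  if t % 2 = 0 then (Fin.snoc (fun _ => 0) (α (t / 2) m) : Fin (K + 1) → ℚ) a
  else (Fin.snoc (fun b => if ty (t / 2) m = b then 1 else 0) (β (t / 2) m) : Fin (K + 1) → ℚ) a

end Pool.Agent.Lib.MP_d0d59f_nt.Un

end

section

namespace Pool.Agent.Lib.MP_d0d59f_nt.Un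

open Filter Topology Auto Lin

variable {K : ℕ} {d x : ℕ → ℤ} {L : ℕ → ℕ} {g : Fin K → ℕ → ℚ} {P : ℕ → ℕ → ℕ}
  {ty : ℕ → ℕ → Fin K} {α β : ℕ → ℕ → ℚ}

/-- Induction on `t` with `P_mono` (copy `Data2.zero_le` of `Sub/OrbitData.lean`). -/
theorem Fam.zero_le (h : Fam d x L g P ty α β) (t : ℕ) :
    ∀ᶠ m in (hyperfilter ℕ : Filter ℕ), P 0 m ≤ P t m := by
  induction t with
  | zero => exact Eventually.of_forall fun m => le_refl _
  | succ i ih =>
    filter_upwards [ih, h.P_mono i] with m h1 h2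
    exact h1.trans h2

theorem UB1_Lpos (h : Fam d x L g P ty α β) : ∀ᶠ m in (hyperfilter ℕ : Filter ℕ), 1 ≤ L m :=
  (h.tend.eventually_ge_atTop 1).filter_mono (by
    rw [← Nat.cofinite_eq_atTop]; exact hyperfilter_le_cofinite)

/-- Copy `Data2.exists_lim` of `Sub/OrbitData.lean`: compactness; the gaps: `q (2 i + 1) + 1 ≤ q (2 i + 2)`
by `P_gap`, and `q` is monotone. -/
theorem Fam.exists_lim (h : Fam d x L g P ty α β) : ∃ q : ℕ → ℝ,
    (∀ t, Tendsto (fun m => (P t m : ℝ) / L m) (hyperfilter ℕ) (𝓝 (q t))) ∧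
    Tendsto q atTop atTop := by
  have hLpos : ∀ᶠ m in (hyperfilter ℕ : Filter ℕ), 1 ≤ L m := UB1_Lpos h
  have hex : ∀ i, ∃ y : ℝ, Tendsto (fun m => (P i m : ℝ) / L m) (hyperfilter ℕ) (𝓝 y) := by
    intro i
    obtain ⟨C, hC⟩ := h.P_le i
    have hmem : Set.Icc 0 C ∈ Ultrafilter.map (fun m => (P i m : ℝ) / L m)
        (hyperfilter ℕ) := by
      rw [Ultrafilter.mem_map]
      filter_upwards [hC, hLpos] with m hm hm1
      have hm0 : (0 : ℝ) < L m := by exact_mod_cast hm1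
      exact ⟨by positivity, (div_le_iff₀ hm0).2 hm⟩
    obtain ⟨y, _, hlim⟩ := isCompact_Icc.ultrafilter_le_nhds' _ hmem
    exact ⟨y, hlim⟩
  choose q hq using hex
  refine ⟨q, hq, ?_⟩
  have hmono : Monotone q := by
    refine monotone_nat_of_le_succ fun i => ?_
    refine le_of_tendsto_of_tendsto (hq i) (hq (i + 1)) ?_
    filter_upwards [h.P_mono i] with m hm
    exact div_le_div_of_nonneg_right (by exact_mod_cast hm) (Nat.cast_nonneg _)
  have hgap : ∀ i, q (2 * i + 1) + 1 ≤ q (2 * i + 2) := by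
    intro i
    refine le_of_tendsto_of_tendsto ((hq (2 * i + 1)).add_const 1) (hq (2 * i + 2)) ?_
    filter_upwards [h.P_gap i, hLpos] with m hm hm1
    have hm0 : (0 : ℝ) < L m := by exact_mod_cast hm1
    have h1 : ((P (2 * i + 1) m : ℝ) / L m + 1) = (P (2 * i + 1) m + L m) / L m := by
      field_simp
    rw [h1]
    exact div_le_div_of_nonneg_right (by exact_mod_cast hm) hm0.le
  have heven : ∀ k : ℕ, q 0 + k ≤ q (2 * k) := by
    intro k
    induction k with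
    | zero => simp
    | succ k ih =>
      have h1 := hgap k
      have h3 : q (2 * k) ≤ q (2 * k + 1) := hmono (Nat.le_succ _)
      have h2 : 2 * (k + 1) = 2 * k + 2 := by ring
      rw [h2]
      push_cast
      linarith
  refine tendsto_atTop_atTop.2 fun b => ?_
  obtain ⟨k, hk⟩ := exists_nat_gt (b - q 0)
  refine ⟨2 * k, fun n hn => ?_⟩
  have h1 := heven k
  have h2 := hmono hn
  linarith

/-- Copy `Data2.exists_ones` of `Sub/OrbitData.lean`. -/
theorem Fam.exists_ones (h : Fam d x L g P ty α β) : ∃ b : ℕ → ℝ, ∀ t, Tendsto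
    (fun m => (ones (d m) ((T (d m))^[P 0 m] (x m)) (P t m - P 0 m) : ℝ) / L m) (hyperfilter ℕ)
      (𝓝 (b t)) := by
  have hLpos : ∀ᶠ m in (hyperfilter ℕ : Filter ℕ), 1 ≤ L m := UB1_Lpos h
  have hex : ∀ i, ∃ y : ℝ, Tendsto
      (fun m => (ones (d m) ((T (d m))^[P 0 m] (x m)) (P i m - P 0 m) : ℝ) / L m) (hyperfilter ℕ)
        (𝓝 y) := by
    intro i
    obtain ⟨C, hC⟩ := h.P_le i
    have hmem : Set.Icc 0 C ∈ Ultrafilter.map
        (fun m => (ones (d m) ((T (d m))^[P 0 m] (x m)) (P i m - P 0 m) : ℝ) / L m)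
        (hyperfilter ℕ) := by
      rw [Ultrafilter.mem_map]
      filter_upwards [hC, hLpos] with m hm hm1
      have hm0 : (0 : ℝ) < L m := by exact_mod_cast hm1
      refine ⟨by positivity, (div_le_iff₀ hm0).2 ?_⟩
      have h1 : ones (d m) ((T (d m))^[P 0 m] (x m)) (P i m - P 0 m) ≤ P i m :=
        (ones_le _ _ _).trans (Nat.sub_le _ _)
      have h2 : (ones (d m) ((T (d m))^[P 0 m] (x m)) (P i m - P 0 m) : ℝ) ≤ P i m := by
        exact_mod_cast h1
      exact h2.trans hm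
    obtain ⟨y, _, hlim⟩ := isCompact_Icc.ultrafilter_le_nhds' _ hmem
    exact ⟨y, hlim⟩
  choose b hb using hex
  exact ⟨b, hb⟩

end Pool.Agent.Lib.MP_d0d59f_nt.Un

end

section

namespace Pool.Agent.Lib.MP_d0d59f_nt.Un

open Filter Topology Auto Lin

variable {K : ℕ} {d x : ℕ → ℤ} {L : ℕ → ℕ} {g : Fin K → ℕ → ℚ} {P : ℕ → ℕ → ℕ}
  {ty : ℕ → ℕ → Fin K} {α β : ℕ → ℕ → ℚ}

/-- `ident_sum_snoc` (`Sub/Words.lean`). -/
theorem cf_even (i m : ℕ) : ∑ a, gOne g a m * cf ty α β (2 * i) a m = α i m := by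
  have h1 : ∀ a : Fin (K + 1), cf ty α β (2 * i) a m =
      (Fin.snoc (fun _ => 0) (α i m) : Fin (K + 1) → ℚ) a := by
    intro a
    unfold cf
    rw [if_pos (by omega), show 2 * i / 2 = i by omega]
  simp_rw [h1]
  rw [ident_sum_snoc g (fun _ => 0) (α i m) m]
  simp

/-- `ident_sum_snoc`; the sum over `b` of `g b m * if ty i m = b then 1 else 0` is `g (ty i m) m`. -/
theorem cf_odd (i m : ℕ) :
    ∑ a, gOne g a m * cf ty α β (2 * i + 1) a m = g (ty i m) m + β i m := by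
  have h1 : ∀ a : Fin (K + 1), cf ty α β (2 * i + 1) a m =
      (Fin.snoc (fun b => if ty i m = b then 1 else 0) (β i m) : Fin (K + 1) → ℚ) a := by
    intro a
    unfold cf
    rw [if_neg (by omega), show (2 * i + 1) / 2 = i by omega]
  simp_rw [h1]
  rw [ident_sum_snoc g (fun b => if ty i m = b then 1 else 0) (β i m) m]
  simp

/-- Induction on `i` as in `err_eq2` (`Sub/OrbitData.lean`). The two new terms are
`α i * 2 ^ exA (2 i) / 3 ^ exB (2 i)` and `(g (ty i) + β i) * 2 ^ exA (2 i + 1) / 3 ^ exB (2 i + 1)`.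
With `y₀, y₁, y₂` the orbit points at `P (2 i), P (2 i + 1), P (2 i + 2)`:
`y₀ = α + 2 ^ N / 3 ^ k (β + y₁)` (`rec_eq`), `y₁ = g + 2 ^ N' / 3 ^ k' y₂` (`val_eq` and `gval_eq`,
`Sub/Words.lean`), and the exponents add up (`ones_add`, `P_mono`, `Fam.zero_le`). -/
theorem Fam.sum_eq (h : Fam d x L g P ty α β) (i : ℕ) :
    ∀ᶠ m in (hyperfilter ℕ : Filter ℕ),
      (((T (d m))^[P 0 m] (x m) : ℤ) : ℚ) - ∑ t ∈ Finset.range (2 * i),
        (∑ a, gOne g a m * cf ty α β t a m) * (2 ^ exA P t m / 3 ^ exB d x P t m) =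
      2 ^ (P (2 * i) m - P 0 m) /
        3 ^ ones (d m) ((T (d m))^[P 0 m] (x m)) (P (2 * i) m - P 0 m) *
          ((T (d m))^[P (2 * i) m] (x m) : ℤ) := by
  induction i with
  | zero =>
    refine Eventually.of_forall fun m => ?_
    simp [ones_zero]
  | succ i ih =>
    filter_upwards [ih, h.rec_eq i, h.val_eq i, h.zero_le (2 * i), h.zero_le (2 * i + 1),
      h.P_mono (2 * i), h.P_mono (2 * i + 1)] with m h1 h2 h3 h4 h5 h6 h7
    rw [show 2 * (i + 1) = 2 * i + 1 + 1 by ring, Finset.sum_range_succ, Finset.sum_range_succ,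
      ← sub_sub, ← sub_sub, h1, cf_even, cf_odd]
    simp only [exA, exB]
    set y := (T (d m))^[P 0 m] (x m) with hy
    have e1 : P (2 * i + 1) m - P 0 m = (P (2 * i) m - P 0 m) + (P (2 * i + 1) m - P (2 * i) m) := by
      omega
    have e1' : P (2 * i + 1 + 1) m - P 0 m =
        (P (2 * i + 1) m - P 0 m) + (P (2 * i + 1 + 1) m - P (2 * i + 1) m) := by
      omega
    have e2 : (T (d m))^[P (2 * i) m - P 0 m] y = (T (d m))^[P (2 * i) m] (x m) := by
      rw [hy, ← Function.iterate_add_apply]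
      congr 1
      omega
    have e2' : (T (d m))^[P (2 * i + 1) m - P 0 m] y = (T (d m))^[P (2 * i + 1) m] (x m) := by
      rw [hy, ← Function.iterate_add_apply]
      congr 1
      omega
    have e3 : ones (d m) y (P (2 * i + 1) m - P 0 m) =
        ones (d m) y (P (2 * i) m - P 0 m) +
          ones (d m) ((T (d m))^[P (2 * i) m] (x m)) (P (2 * i + 1) m - P (2 * i) m) := by
      rw [e1, ones_add, e2]
    have e3' : ones (d m) y (P (2 * i + 1 + 1) m - P 0 m) =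
        ones (d m) y (P (2 * i + 1) m - P 0 m) +
          ones (d m) ((T (d m))^[P (2 * i + 1) m] (x m))
            (P (2 * i + 1 + 1) m - P (2 * i + 1) m) := by
      rw [e1', ones_add, e2']
    have e4 : (T (d m))^[P (2 * i + 1 + 1) m - P (2 * i + 1) m]
        ((T (d m))^[P (2 * i + 1) m] (x m)) = (T (d m))^[P (2 * i + 1 + 1) m] (x m) := by
      rw [← Function.iterate_add_apply]
      congr 1
      omega
    rw [gval_eq, show 2 * i + 2 = 2 * i + 1 + 1 by ring, e4] at h3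
    rw [h2, h3, e3', e3, e1', e1]
    simp only [pow_add]
    have n1 : (3 : ℚ) ^ ones (d m) y (P (2 * i) m - P 0 m) ≠ 0 := by positivity
    have n2 : (3 : ℚ) ^ ones (d m) ((T (d m))^[P (2 * i) m] (x m))
      (P (2 * i + 1) m - P (2 * i) m) ≠ 0 := by positivity
    have n3 : (3 : ℚ) ^ ones (d m) ((T (d m))^[P (2 * i + 1) m] (x m))
      (P (2 * i + 1 + 1) m - P (2 * i + 1) m) ≠ 0 := by positivity
    field_simp
    ring

end Pool.Agent.Lib.MP_d0d59f_nt.Un

end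

section

namespace Pool.Agent.Lib.MP_d0d59f_nt.Un

open Filter Topology Auto Lin

variable {K : ℕ} {d x : ℕ → ℤ} {L : ℕ → ℕ} {g : Fin K → ℕ → ℚ} {P : ℕ → ℕ → ℕ}
  {ty : ℕ → ℕ → Fin K} {α β : ℕ → ℕ → ℚ}

/-- the orbit between `P 0` and `P t` is nearly linear -/
theorem UB3_near (h : Fam d x L g P ty α β) (t : ℕ) {ε : ℝ} (hε : 0 < ε)
    (hε2 : ε ≤ Real.log 2 / 8) :
    ∀ᶠ m in (hyperfilter ℕ : Filter ℕ),
      |(2 : ℝ) ^ exA P t m / 3 ^ exB d x P t m * ((T (d m))^[P t m] (x m) : ℝ) -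
        ((T (d m))^[P 0 m] (x m) : ℝ)| ≤
      Real.exp ((ε - Real.log 2 / 8) * L m) * |((T (d m))^[P 0 m] (x m) : ℝ)| := by
  obtain ⟨C, hC⟩ := h.P_le t
  have hL : Tendsto (fun m => (L m : ℝ)) (hyperfilter ℕ) atTop :=
    (tendsto_natCast_atTop_atTop.comp h.tend).mono_left Nat.hyperfilter_le_atTop
  have hexp : ∀ᶠ l : ℝ in atTop, |C| * l ≤ Real.exp (ε / 2 * l) := by
    have h1 : Tendsto (fun l : ℝ => Real.exp (ε / 2 * l) / l) atTop atTop := by
      have h2 := (Real.tendsto_exp_div_pow_atTop 1).comp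
        (tendsto_id.const_mul_atTop (half_pos hε) : Tendsto (fun l : ℝ => ε / 2 * l) atTop atTop)
      have h3 := h2.const_mul_atTop (half_pos hε)
      refine h3.congr' ?_
      filter_upwards [eventually_gt_atTop 0] with l hl
      simp only [Function.comp, pow_one]
      field_simp
    filter_upwards [h1.eventually (eventually_ge_atTop |C|), eventually_gt_atTop 0] with l h2 h3
    rwa [le_div_iff₀ h3] at h2
  filter_upwards [hC, hL.eventually hexp, h.d_small (ε / 2) (half_pos hε), h.large t,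
    h.zero_le t] with m h1 h2 h3 h4 h5
  set y : ℤ := (T (d m))^[P 0 m] (x m) with hy
  set n := P t m - P 0 m with hn
  have e2 : (T (d m))^[n] y = (T (d m))^[P t m] (x m) := by
    rw [hy, ← Function.iterate_add_apply]
    congr 1
    omega
  have hnR : (n : ℝ) ≤ |C| * L m := by
    have h6 : (n : ℝ) ≤ P t m := by exact_mod_cast Nat.sub_le _ _
    exact h6.trans (h1.trans (mul_le_mul_of_nonneg_right (le_abs_self _) (by positivity)))
  have hd1 : |(d m : ℝ)| ≤ Real.exp (ε / 2 * L m) := by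
    refine h3.trans ?_
    calc (1 + ε / 2) ^ L m ≤ (Real.exp (ε / 2)) ^ L m :=
          pow_le_pow_left₀ (by positivity) (by linarith [Real.add_one_le_exp (ε / 2)]) _
      _ = Real.exp (ε / 2 * L m) := by rw [← Real.exp_nat_mul]; congr 1; ring
  have hnd : (n : ℝ) * |(d m : ℝ)| ≤ Real.exp (ε * L m) := by
    calc (n : ℝ) * |(d m : ℝ)| ≤ Real.exp (ε / 2 * L m) * Real.exp (ε / 2 * L m) :=
          mul_le_mul (hnR.trans h2) hd1 (abs_nonneg _) (Real.exp_pos _).le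
      _ = Real.exp (ε * L m) := by rw [← Real.exp_add]; congr 1; ring
  have hA : (2 : ℝ) ^ ((L m : ℝ) / 8) = Real.exp (Real.log 2 / 8 * L m) := by
    rw [Real.rpow_def_of_pos (by norm_num)]
    congr 1
    ring
  have hA0 : (0 : ℝ) < (2 : ℝ) ^ ((L m : ℝ) / 8) := by positivity
  have hnA : (n : ℝ) * |(d m : ℝ)| ≤ (2 : ℝ) ^ ((L m : ℝ) / 8) := by
    refine hnd.trans ?_
    rw [hA]
    exact Real.exp_le_exp.2 (mul_le_mul_of_nonneg_right hε2 (Nat.cast_nonneg _))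
  have hr := ratio_near (h.odd m) y n hA0 hnA (by
    intro j hj
    have h9 := h4 (j + P 0 m) (by omega) (by omega)
    rw [Function.iterate_add_apply] at h9
    exact h9)
  rw [e2] at hr
  have h3pos : (0 : ℝ) < 3 ^ ones (d m) y n := by positivity
  have hE : (2 : ℝ) ^ exA P t m / 3 ^ exB d x P t m * ((T (d m))^[P t m] (x m) : ℝ) - (y : ℝ) =
      ((2 : ℝ) ^ n * ((T (d m))^[P t m] (x m) : ℤ) - 3 ^ ones (d m) y n * y) /
        3 ^ ones (d m) y n := by
    simp only [exA, exB, ← hy, ← hn]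
    field_simp
  rw [hE, abs_div, abs_of_pos h3pos, div_le_iff₀ h3pos]
  refine hr.trans ?_
  have hq : (n : ℝ) * |(d m : ℝ)| / (2 : ℝ) ^ ((L m : ℝ) / 8) ≤
      Real.exp ((ε - Real.log 2 / 8) * L m) := by
    rw [div_le_iff₀ hA0, hA, ← Real.exp_add]
    refine hnd.trans (le_of_eq ?_)
    congr 1; ring
  calc (n : ℝ) * |(d m : ℝ)| / (2 : ℝ) ^ ((L m : ℝ) / 8) * (3 ^ ones (d m) y n * |(y : ℝ)|)
      ≤ Real.exp ((ε - Real.log 2 / 8) * L m) * (3 ^ ones (d m) y n * |(y : ℝ)|) :=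
        mul_le_mul_of_nonneg_right hq (by positivity)
    _ = Real.exp ((ε - Real.log 2 / 8) * L m) * |(y : ℝ)| * 3 ^ ones (d m) y n := by ring

/-- a coefficient of small height -/
theorem UB3_small (h : Fam d x L g P ty α β) (t : ℕ) {ε : ℝ} (hε : 0 < ε)
    (hε2 : ε ≤ Real.log 2 / 8) (q : ℕ → ℚ)
    (hq : ∀ ε : ℝ, 0 < ε → ∀ᶠ m in (hyperfilter ℕ : Filter ℕ), (ht (q m) : ℝ) ≤ (1 + ε) ^ L m) :
    ∀ᶠ m in (hyperfilter ℕ : Filter ℕ),
      |((q m : ℚ) : ℝ)| * ((2 : ℝ) ^ exA P t m / 3 ^ exB d x P t m) ≤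
      2 * Real.exp ((ε - Real.log 2 / 8) * L m) * |((T (d m))^[P 0 m] (x m) : ℝ)| := by
  filter_upwards [UB3_near h t hε hε2, hq ε hε, h.large t, h.zero_le t] with m h1 h2 h3 h4
  have hz := h3 (P t m) h4 le_rfl
  have hA : (2 : ℝ) ^ ((L m : ℝ) / 8) = Real.exp (Real.log 2 / 8 * L m) := by
    rw [Real.rpow_def_of_pos (by norm_num)]
    congr 1
    ring
  rw [hA] at hz
  set W : ℝ := (2 : ℝ) ^ exA P t m / 3 ^ exB d x P t m with hW
  have hW0 : 0 ≤ W := by positivity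
  set Y : ℝ := ((T (d m))^[P 0 m] (x m) : ℝ) with hY
  set Z : ℝ := ((T (d m))^[P t m] (x m) : ℝ) with hZ
  have hE1 : Real.exp ((ε - Real.log 2 / 8) * L m) ≤ 1 := by
    rw [Real.exp_le_one_iff]
    exact mul_nonpos_of_nonpos_of_nonneg (by linarith) (Nat.cast_nonneg _)
  have h5 : W * |Z| ≤ 2 * |Y| := by
    have h6 : |W * Z| ≤ |W * Z - Y| + |Y| := by
      have := abs_add_le (W * Z - Y) Y
      rwa [sub_add_cancel] at this
    rw [abs_mul, abs_of_nonneg hW0] at h6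
    have h7 := mul_le_mul_of_nonneg_right hE1 (abs_nonneg Y)
    linarith
  have h6 : W * Real.exp (Real.log 2 / 8 * L m) ≤ 2 * |Y| :=
    (mul_le_mul_of_nonneg_left hz hW0).trans h5
  have hq1 : |((q m : ℚ) : ℝ)| ≤ Real.exp (ε * L m) := by
    refine (Sb.Terms_abs_le_ht (q m)).trans (h2.trans ?_)
    calc (1 + ε) ^ L m ≤ (Real.exp ε) ^ L m :=
          pow_le_pow_left₀ (by positivity) (by linarith [Real.add_one_le_exp ε]) _
      _ = Real.exp (ε * L m) := by rw [← Real.exp_nat_mul]; congr 1; ring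
  have h7 : W ≤ 2 * |Y| / Real.exp (Real.log 2 / 8 * L m) := by
    rw [le_div_iff₀ (Real.exp_pos _)]
    exact h6
  calc |((q m : ℚ) : ℝ)| * W ≤
        Real.exp (ε * L m) * (2 * |Y| / Real.exp (Real.log 2 / 8 * L m)) :=
        mul_le_mul hq1 h7 hW0 (Real.exp_pos _).le
    _ = 2 * (Real.exp (ε * L m) / Real.exp (Real.log 2 / 8 * L m)) * |Y| := by ring
    _ = 2 * Real.exp ((ε - Real.log 2 / 8) * L m) * |Y| := by
        rw [← Real.exp_sub]; congr 3; ring

/-- the block constants -/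
theorem UB3_gval (h : Fam d x L g P ty α β) (i : ℕ) {ε : ℝ} (hε : 0 < ε)
    (hε2 : ε ≤ Real.log 2 / 8) :
    ∀ᶠ m in (hyperfilter ℕ : Filter ℕ),
      |((g (ty i m) m : ℚ) : ℝ)| *
        ((2 : ℝ) ^ exA P (2 * i + 1) m / 3 ^ exB d x P (2 * i + 1) m) ≤
      2 * Real.exp ((ε - Real.log 2 / 8) * L m) * |((T (d m))^[P 0 m] (x m) : ℝ)| := by
  filter_upwards [UB3_near h (2 * i + 1) hε hε2, UB3_near h (2 * i + 2) hε hε2, h.val_eq i,
    h.zero_le (2 * i + 1), h.P_mono (2 * i + 1)] with m h1 h2 h3 h4 h5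
  have h5' : P (2 * i + 1) m ≤ P (2 * i + 2) m := h5
  set W : ℝ := (2 : ℝ) ^ exA P (2 * i + 1) m / 3 ^ exB d x P (2 * i + 1) m with hW
  set W' : ℝ := (2 : ℝ) ^ exA P (2 * i + 2) m / 3 ^ exB d x P (2 * i + 2) m with hW'
  set Y : ℝ := ((T (d m))^[P 0 m] (x m) : ℝ) with hY
  set Z : ℝ := ((T (d m))^[P (2 * i + 1) m] (x m) : ℝ) with hZ
  set Z' : ℝ := ((T (d m))^[P (2 * i + 2) m] (x m) : ℝ) with hZ'
  have hW0 : 0 ≤ W := by positivity
  set n := P (2 * i + 2) m - P (2 * i + 1) m with hn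
  have hval : ((g (ty i m) m : ℚ) : ℝ) = Z - 2 ^ n /
      3 ^ ones (d m) ((T (d m))^[P (2 * i + 1) m] (x m)) n * Z' := by
    rw [h3, gval_eq]
    have e1 : (T (d m))^[n] ((T (d m))^[P (2 * i + 1) m] (x m)) =
        (T (d m))^[P (2 * i + 2) m] (x m) := by
      rw [← Function.iterate_add_apply]
      congr 1
      omega
    rw [e1]
    push_cast
    rfl
  have hWW : W * (2 ^ n / 3 ^ ones (d m) ((T (d m))^[P (2 * i + 1) m] (x m)) n) = W' := by
    have e2 : (T (d m))^[P (2 * i + 1) m - P 0 m] ((T (d m))^[P 0 m] (x m)) =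
        (T (d m))^[P (2 * i + 1) m] (x m) := by
      rw [← Function.iterate_add_apply]
      congr 1
      omega
    have e3 : P (2 * i + 2) m - P 0 m = (P (2 * i + 1) m - P 0 m) + n := by omega
    have e4 : ones (d m) ((T (d m))^[P 0 m] (x m)) (P (2 * i + 2) m - P 0 m) =
        ones (d m) ((T (d m))^[P 0 m] (x m)) (P (2 * i + 1) m - P 0 m) +
          ones (d m) ((T (d m))^[P (2 * i + 1) m] (x m)) n := by
      rw [e3, ones_add, e2]
    simp only [hW, hW', exA, exB]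
    rw [e4, e3, pow_add, pow_add]
    field_simp
  have h6 : |((g (ty i m) m : ℚ) : ℝ)| * W = |(W * Z - Y) - (W' * Z' - Y)| := by
    rw [← abs_of_nonneg hW0, ← abs_mul, abs_of_nonneg hW0, hval, ← hWW]
    congr 1
    ring
  rw [h6]
  refine (abs_sub _ _).trans ?_
  linarith

/-- Let `y₀` be the orbit point at `P 0`, `y_t` the one at `P t`, `A = 2 ^ (L / 8)` and
`ρ_t = 2 ^ exA t y_t / (3 ^ exB t y₀)`. Fix `η > 0` small. For almost all `m`: `P t ≤ C L`,
`|d| ≤ (1 + η) ^ L`, so `n |d| / A ≤ C L (1 + η) ^ L 2 ^ (- L / 8) ≤ 1` for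
`n = P t - P 0`, and by `ratio_near` for `y = y₀` (hypothesis: `large t`)
`|ρ_t - 1| ≤ C L (1 + η) ^ L 2 ^ (- L / 8)`; in particular `|ρ_t| ≤ 2`.
* `t = 2 i` (`cf_even`): the term is `α_i * 2 ^ exA / 3 ^ exB = (α_i / y_t) ρ_t y₀` and
  `|α_i| ≤ ht α_i ≤ (1 + η) ^ L` (`Sb.Terms_abs_le_ht`), `|y_t| ≥ A`: at most
  `2 (1 + η) ^ L 2 ^ (- L / 8) |y₀|`.
* `t = 2 i + 1` (`cf_odd`): the term with `β_i` in the same way; the term with `g`: by `val_eq` and
  `gval_eq` it is `(ρ_t - ρ_{t + 1}) y₀` (`ones_add`), at most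
  `2 C L (1 + η) ^ L 2 ^ (- L / 8) |y₀|`.
All together at most `(4 + 2 C L) (1 + η) ^ L 2 ^ (- L / 8) |y₀|`, which is
`≤ exp (- (log 2 / 16) L) |y₀|` for almost all `m` if `log (1 + η) < log 2 / 16`
(see `Terms_log_small` in `Sub/OrbitSize.lean` for the type of argument). Compare `term_le` and the
lemmas `Terms_*` of `Sub/OrbitSize.lean`. -/
theorem Fam.term_le (h : Fam d x L g P ty α β) (t : ℕ) :
    ∀ᶠ m in (hyperfilter ℕ : Filter ℕ),
      |(((∑ a, gOne g a m * cf ty α β t a m) * (2 ^ exA P t m / 3 ^ exB d x P t m) : ℚ) : ℝ)| ≤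
        |((T (d m))^[P 0 m] (x m) : ℝ)| * Real.exp (-(Real.log 2 / 16) * L m) := by
  have hlog : 0 < Real.log 2 := Real.log_pos (by norm_num)
  have hε : 0 < Real.log 2 / 32 := by positivity
  have hε2 : Real.log 2 / 32 ≤ Real.log 2 / 8 := by linarith
  have hL : Tendsto (fun m => (L m : ℝ)) (hyperfilter ℕ) atTop :=
    (tendsto_natCast_atTop_atTop.comp h.tend).mono_left Nat.hyperfilter_le_atTop
  have hfour : ∀ᶠ m in (hyperfilter ℕ : Filter ℕ),
      4 * Real.exp ((Real.log 2 / 32 - Real.log 2 / 8) * L m) ≤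
        Real.exp (-(Real.log 2 / 16) * L m) := by
    filter_upwards [hL.eventually (eventually_ge_atTop 64)] with m hm
    have h1 : (4 : ℝ) = Real.exp (2 * Real.log 2) := by
      rw [two_mul, Real.exp_add, Real.exp_log (by norm_num)]; norm_num
    rw [h1, ← Real.exp_add]
    apply Real.exp_le_exp.2
    nlinarith
  have hcast : ∀ (q : ℚ) (m : ℕ), |((q * (2 ^ exA P t m / 3 ^ exB d x P t m) : ℚ) : ℝ)| =
      |(q : ℝ)| * ((2 : ℝ) ^ exA P t m / 3 ^ exB d x P t m) := by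
    intro q m
    push_cast
    rw [abs_mul]
    congr 1
    exact abs_of_nonneg (by positivity)
  rcases Nat.even_or_odd' t with ⟨i, rfl | rfl⟩
  · filter_upwards [UB3_small h (2 * i) hε hε2 (α i) (h.ht_α i), hfour] with m h1 h2
    rw [cf_even, hcast]
    set Y : ℝ := |((T (d m))^[P 0 m] (x m) : ℝ)| with hY
    have hY0 : 0 ≤ Y := abs_nonneg _
    have h3 := mul_le_mul_of_nonneg_right h2 hY0
    have h4 : 0 ≤ Real.exp ((Real.log 2 / 32 - Real.log 2 / 8) * L m) * Y := by positivity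
    linarith
  · filter_upwards [UB3_small h (2 * i + 1) hε hε2 (β i) (h.ht_β i), UB3_gval h i hε hε2, hfour]
      with m h1 h1' h2
    rw [cf_odd, hcast, Rat.cast_add]
    set Y : ℝ := |((T (d m))^[P 0 m] (x m) : ℝ)| with hY
    set W : ℝ := (2 : ℝ) ^ exA P (2 * i + 1) m / 3 ^ exB d x P (2 * i + 1) m with hW
    have hW0 : 0 ≤ W := by positivity
    have hY0 : 0 ≤ Y := abs_nonneg _
    have h3 := mul_le_mul_of_nonneg_right h2 hY0
    have h4 := mul_le_mul_of_nonneg_right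
      (abs_add_le ((g (ty i m) m : ℚ) : ℝ) ((β i m : ℚ) : ℝ)) hW0
    rw [add_mul] at h4
    linarith

end Pool.Agent.Lib.MP_d0d59f_nt.Un

end
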